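import Pool.Agent.Lib.MP_7f581e_ntG.SplitPSL
import Pool.Agent.Lib.MP_7f581e_nt.AutPow

/-!
The complement of a power of `PSL(n, F)`.
-/

set_option autoImplicit false
set_option linter.unusedSectionVars false

namespace MP7fG

open Matrix Matrix.SpecialLinearGroup MulOpposite

variable {F : Type*} [Field F] {n : ℕ} {κ : Type*}

/-- Scalars in relations between conjugate transvections are trivial. -/
theorem rX_smul_eq (h3 : 3 ≤ n) {v f v' f' : Fin n → F} {θ θ' c : F}
    (h : rX v f θ = c • rX v' f' θ') : c = 1 := by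
  obtain ⟨w, hw0, hw1, hw2⟩ := exists_common_zero h3 f f'
  have h1 := congrArg (fun M => M *ᵥ w) h
  simp only [Matrix.smul_mulVec, rX_mulVec, hw1, hw2, mul_zero, zero_smul, add_zero] at h1
  have h4 : (1 - c) • w = 0 := by
    rw [sub_smul, one_smul, ← h1, sub_self]
  exact (sub_eq_zero.mp ((smul_eq_zero.mp h4).resolve_right hw0)).symm

theorem conj_single_smul (h3 : 3 ≤ n) (g : GL (Fin n) F) {i j i' j' : Fin n} {s t c : F}
    (h : g.1 * (1 + single i j s) * (g⁻¹).1 = c • (1 + single i' j' t)) :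
    g.1 * single i j s = single i' j' t * g.1 := by
  have h1 := conj_single (A := g.1) (B := (g⁻¹).1) (Units.mul_inv g) i j s
  have h2 := conj_single (A := (1 : Matrix (Fin n) (Fin n) F)) (B := 1) (mul_one 1) i' j' t
  rw [one_mul, mul_one] at h2
  have hc : c = 1 := by
    rw [h1, h2] at h
    exact rX_smul_eq h3 h
  rw [hc, one_smul] at h
  have h4 : g.1 * (1 + single i j s) = (1 + single i' j' t) * g.1 := by
    rw [← h, mul_assoc, Units.inv_mul, mul_one]
  rw [mul_add, add_mul, mul_one, one_mul] at h4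
  exact add_left_cancel h4

theorem center_psl (h3 : 3 ≤ n) :
    Subgroup.center (ProjectiveSpecialLinearGroup (Fin n) F) = ⊥ := by
  have hs : IsSimpleGroup (ProjectiveSpecialLinearGroup (Fin n) F) :=
    PSL_simple (by rw [Fintype.card_fin]; exact h3)
  rcases hs.eq_bot_or_eq_top_of_normal _
    (inferInstance : (Subgroup.center (ProjectiveSpecialLinearGroup (Fin n) F)).Normal) with h | h
  · exact h
  · exfalso
    have h1 : Group.IsPerfect (SpecialLinearGroup (Fin n) F) :=
      ⟨SL_commutator_eq_top (by rw [Fintype.card_fin]; exact h3)⟩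
    have h2 : Group.IsPerfect (ProjectiveSpecialLinearGroup (Fin n) F) := inferInstance
    have h4 : commutator (ProjectiveSpecialLinearGroup (Fin n) F) = ⊥ := by
      rw [commutator_def, Subgroup.commutator_eq_bot_iff_le_centralizer, ← h]
      intro x hx
      rw [Subgroup.mem_centralizer_iff]
      intro y hy
      exact (Subgroup.mem_center_iff.mp hx y)
    have h5 := h2.commutator_eq_top
    rw [h4] at h5
    have h6 := hs.exists_pair_ne
    obtain ⟨x, y, hxy⟩ := h6
    have hx : x ∈ (⊥ : Subgroup (ProjectiveSpecialLinearGroup (Fin n) F)) := by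
      rw [h5]; trivial
    have hy : y ∈ (⊥ : Subgroup (ProjectiveSpecialLinearGroup (Fin n) F)) := by
      rw [h5]; trivial
    exact hxy ((Subgroup.mem_bot.mp hx).trans (Subgroup.mem_bot.mp hy).symm)

section

variable {E : Type*} [Group E] (N : Subgroup E) [hN : N.Normal]
  (θ : N ≃* (κ → ProjectiveSpecialLinearGroup (Fin n) F))

theorem cmplP_disj [NeZero n] [Finite E] [Finite F] (h3 : 3 ≤ n)
    (hd : DiagCond n (Nat.card Fˣ)) {e : E} (he : e ∈ N) (h : e ∈ cmplP N θ) : e = 1 := by
  classical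
  obtain ⟨x, rfl⟩ := nP_surj N θ he
  obtain ⟨d, h1⟩ := (mem_cmplP N θ).mp h
  have hk : ∀ (z : κ → SpecialLinearGroup (Fin n) F) k,
      mkP n F (x k * z k * (x k)⁻¹) = mkP n F (wf d.π d.ε d.σ d.a z k) := by
    intro z k
    have h2 := h1 z
    rw [psiP_nP] at h2
    have h3 := congrFun h2 k
    rw [map_mul, map_mul, map_inv]
    exact h3
  obtain ⟨i, hi, -⟩ := exists_third h3 (0 : Fin n) 0
  have hπ : ∀ k, d.π k = k := by
    intro k
    by_contra hne
    let A : SpecialLinearGroup (Fin n) F := SpecialLinearGroup.transvection hi (1 : F)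
    have h2 := hk (Pi.mulSingle (d.π k) A) (d.π k)
    rw [wf_apply, Pi.mulSingle_eq_same, Pi.mulSingle_eq_of_ne (Ne.symm hne), map_one, map_one,
      map_one, map_one, map_mul, map_mul, map_inv, mul_inv_eq_one, mul_eq_left, mkP_eq_one,
      transvection_mem_center_iff] at h2
    exact one_ne_zero h2
  have hx : mkk x = 1 := by
    funext k
    change mkP n F (x k) = 1
    set g : GL (Fin n) F := (dgl n F (d.a k))⁻¹ * toGL (x k) with hg
    have h2 : ∀ A : SpecialLinearGroup (Fin n) F, ∃ c : F, g.1 * A.1 * (g⁻¹).1 =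
        c • (SpecialLinearGroup.map ((d.σ k : F ≃+* F) : F →+* F) (iT (d.ε k) A)).1 := by
      intro A
      have h4 := hk (fun _ => A) (d.π k)
      rw [wf_apply, hπ k] at h4
      obtain ⟨c, hc⟩ := mkP_eq h4
      refine ⟨c, ?_⟩
      set B := SpecialLinearGroup.map ((d.σ k : F ≃+* F) : F →+* F) (iT (d.ε k) A)
      set D := dgl n F (d.a k)
      have h5 : (x k * A * (x k)⁻¹).1 = (toGL (x k)).1 * A.1 * ((toGL (x k))⁻¹).1 := by
        rw [← map_inv]
        rfl
      have h6 : g.1 * A.1 * (g⁻¹).1 = (D⁻¹).1 * (x k * A * (x k)⁻¹).1 * D.1 := by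
        rw [h5, hg, _root_.mul_inv_rev, inv_inv, Units.val_mul, Units.val_mul]
        noncomm_ring
      rw [h6, hc, conjSL_coe, Matrix.mul_smul, Matrix.smul_mul]
      congr 1
      have h7 : (D⁻¹).1 * D.1 = 1 := Units.inv_mul D
      calc (D⁻¹).1 * (D.1 * B.1 * (D⁻¹).1) * D.1 = ((D⁻¹).1 * D.1) * B.1 * ((D⁻¹).1 * D.1) := by
            noncomm_ring
        _ = B.1 := by rw [h7, one_mul, mul_one]
    have hgdet : g.1.det ≠ 0 := ((Matrix.isUnit_iff_isUnit_det _).mp g.isUnit).ne_zero
    cases hε : d.ε k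
    · have hcomm : ∀ i j : Fin n, i ≠ j → Commute (single i j (1 : F)) g.1 := by
        intro i j hij
        obtain ⟨c, hc⟩ := h2 (SpecialLinearGroup.transvection hij 1)
        rw [hε, iT_false, map_transvection, transvection_coe, transvection_coe, map_one] at hc
        exact (conj_single_smul h3 g hc).symm
      obtain ⟨r, hr⟩ := mem_range_scalar_of_commute_single (M := g.1)
        (fun i j hij => hcomm i j hij)
      have hr0 : r ≠ 0 := by
        rintro rfl
        rw [← hr, map_zero, Matrix.det_zero] at hgdet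
        exact hgdet rfl
      have h5 : (x k).1 = r • (dgl n F (d.a k)).1 := by
        have h6 : toGL (x k) = dgl n F (d.a k) * g := by
          rw [hg, mul_inv_cancel_left]
        have h7 : (x k).1 = (toGL (x k)).1 := rfl
        rw [h7, h6, Units.val_mul, ← hr, Matrix.scalar_apply, ← Matrix.smul_one_eq_diagonal,
          Matrix.mul_smul, mul_one]
      have h6 : d.a k = ((Units.mk0 r hr0)⁻¹) ^ n := by
        have h7 := (x k).2
        rw [h5, Matrix.det_smul, Fintype.card_fin, dgl_det] at h7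
        apply Units.ext
        rw [inv_pow, Units.val_inv_eq_inv_val, Units.val_pow_eq_pow_val, Units.val_mk0]
        exact eq_inv_of_mul_eq_one_right h7
      have h7 := mu_disj hd (d.ha k) h6
      rw [h7, map_one, Units.val_one] at h5
      rw [mkP_eq_one, mem_center_iff]
      refine ⟨r, ?_, ?_⟩
      · have h8 := (x k).2
        rw [h5, Matrix.det_smul, Matrix.det_one, mul_one] at h8
        exact h8
      · rw [h5, Matrix.scalar_apply, Matrix.smul_one_eq_diagonal]
    · exfalso
      have hcomm : ∀ i j : Fin n, i ≠ j → g.1 * single i j (1 : F) = single j i (-1) * g.1 := by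
        intro i j hij
        obtain ⟨c, hc⟩ := h2 (SpecialLinearGroup.transvection hij 1)
        rw [hε, iT_true, invT_transvection, map_transvection, transvection_coe,
          transvection_coe, map_neg, map_one] at hc
        exact conj_single_smul h3 g hc
      have hzero : g.1 = 0 := by
        ext a i
        obtain ⟨j, hji, hja⟩ := exists_third h3 i a
        have h4 := congrFun (congrFun (hcomm i j hji.symm) a) j
        rw [mul_single_apply_same, single_mul_apply_of_ne _ _ _ _ _ hja.symm, mul_one] at h4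
        exact h4
      rw [hzero, Matrix.det_zero] at hgdet
      exact hgdet rfl
  have h8 : nP N θ x = nP N θ 1 := nP_eq N θ (by rw [hx, map_one])
  rw [h8, map_one]

/-- The decomposition of a matrix. -/
theorem exists_dec [NeZero n] [Finite F] (hd : DiagCond n (Nat.card Fˣ)) (g : GL (Fin n) F) :
    ∃ (h : SpecialLinearGroup (Fin n) F) (a : Fˣ), a ^ (Nat.gcd n (Nat.card Fˣ)) = 1 ∧
      ∀ A : SpecialLinearGroup (Fin n) F, conjSL g A = h * conjSL (dgl n F a) A * h⁻¹ := by
  obtain ⟨a, b, ha, hab⟩ := mu_dec hd (Matrix.GeneralLinearGroup.det g)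
  have hdet : g.1.det = a * (b : F) ^ n := by
    have := congrArg Units.val hab
    rw [Units.val_mul, Units.val_pow_eq_pow_val] at this
    exact this
  have hdi : ((dgl n F a)⁻¹).1.det = (a⁻¹ : Fˣ) := by
    rw [← map_inv, dgl_det]
  let h : SpecialLinearGroup (Fin n) F := ⟨(b⁻¹ : Fˣ).1 • (g.1 * ((dgl n F a)⁻¹).1), by
    rw [Matrix.det_smul, Fintype.card_fin, Matrix.det_mul, hdet, hdi, ← Units.val_pow_eq_pow_val,
      ← Units.val_pow_eq_pow_val, ← Units.val_mul, ← Units.val_mul, ← Units.val_mul]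
    have : (b⁻¹ ^ n * (a * b ^ n * a⁻¹) : Fˣ) = 1 := by
      rw [mul_comm a, mul_assoc (b ^ n), mul_inv_cancel, mul_one, inv_pow, inv_mul_cancel]
    rw [this, Units.val_one]⟩
  have hval : (toGL h : GL (Fin n) F) = (Units.map (Matrix.scalar (Fin n) : F →+*
      Matrix (Fin n) (Fin n) F).toMonoidHom b⁻¹ : GL (Fin n) F) * g * (dgl n F a)⁻¹ := by
    apply Units.ext
    change (b⁻¹ : Fˣ).1 • (g.1 * ((dgl n F a)⁻¹).1) =
      Matrix.scalar (Fin n) ((b⁻¹ : Fˣ) : F) * g.1 * ((dgl n F a)⁻¹).1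
    rw [Matrix.scalar_apply, ← Matrix.smul_one_eq_diagonal, Matrix.smul_mul, one_mul,
      Matrix.smul_mul]
  refine ⟨h, a, ha, fun A => ?_⟩
  rw [← conjSL_toGL, hval, ← conjSL_mul, inv_mul_cancel_right, conjSL_mul]
  apply Subtype.ext
  rw [conjSL_coe, conjSL_coe]
  set B := g.1 * A.1 * (g⁻¹).1
  rw [← map_inv]
  change B = Matrix.scalar (Fin n) ((b⁻¹ : Fˣ) : F) * B *
    Matrix.scalar (Fin n) (((b⁻¹)⁻¹ : Fˣ) : F)
  rw [Matrix.scalar_apply, Matrix.scalar_apply, ← Matrix.smul_one_eq_diagonal,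
    ← Matrix.smul_one_eq_diagonal, Matrix.smul_mul, one_mul, Matrix.mul_smul, mul_one, smul_smul,
    Units.inv_mul, one_smul]

theorem cmplP_sup [NeZero n] [Finite E] [Finite F] [Finite κ] (h3 : 3 ≤ n)
    (hd : DiagCond n (Nat.card Fˣ)) (e : E) : ∃ x, nP N θ x * e ∈ cmplP N θ := by
  classical
  have hs : IsSimpleGroup (ProjectiveSpecialLinearGroup (Fin n) F) :=
    PSL_simple (by rw [Fintype.card_fin]; exact h3)
  obtain ⟨π, φ, hφ⟩ := Pool.Agent.Lib.MP_7f581e_nt.AutAlt.aut_pi (center_psl h3) (psiP N θ e)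
  have h1 : ∀ j, ∃ (h : SpecialLinearGroup (Fin n) F) (a : Fˣ) (σ : F ≃+* F) (ε : Bool),
      a ^ (Nat.gcd n (Nat.card Fˣ)) = 1 ∧ ∀ A, φ j (mkP n F A) = mkP n F (h *
        conjSL (dgl n F a) (SpecialLinearGroup.map (σ : F →+* F) (iT ε A)) * h⁻¹) := by
    intro j
    obtain ⟨g, σ, h2 | h2⟩ := aut_psl h3 (φ j)
    · obtain ⟨h, a, ha, hga⟩ := exists_dec hd g
      exact ⟨h, a, σ, false, ha, fun A => by rw [h2, hga]; rfl⟩
    · obtain ⟨h, a, ha, hga⟩ := exists_dec hd g
      exact ⟨h, a, σ, true, ha, fun A => by rw [h2, hga]; rfl⟩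
  choose h a σ ε ha h2 using h1
  refine ⟨fun k => (h (π.symm k))⁻¹, (mem_cmplP N θ).mpr ⟨⟨π, ε, σ, fun k => a (π.symm k),
    fun k => ha _⟩, ?_⟩⟩
  intro x
  rw [psiP_mul, MulEquiv.trans_apply, psiP_nP]
  funext k'
  obtain ⟨k, rfl⟩ := π.surjective k'
  rw [mkk_apply, wf_apply, Pi.mul_apply, Pi.mul_apply, Pi.inv_apply, mkk_apply, hφ, mkk_apply, h2,
    Equiv.symm_apply_apply, map_mul, map_mul, map_inv]
  simp only [Equiv.symm_apply_apply]
  group

end

end MP7fG
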