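import Pool.Agent.Lib.MP_7f581e_ntL.W2
import Pool.Agent.Lib.MP_7f581e_ntL.W3
import Pool.Agent.Lib.MP_7f581e_ntG.CmplPSL

/-!
Data for split embedding problems with kernel a power of `SL(n, F)` or of `PSL(n, F)`, `n ≥ 3`.
-/

set_option autoImplicit false
set_option linter.unusedSectionVars false

universe u

namespace MP7fY

open Matrix Matrix.SpecialLinearGroup MP7fE MP7fR MP7fW MP7fG

section twist

variable {n : ℕ} {F : Type*} [Field F]

/-- The inverse transpose of an invertible matrix. -/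
def gI (g : GL (Fin n) F) : GL (Fin n) F where
  val := ((g⁻¹).1)ᵀ
  inv := (g.1)ᵀ
  val_inv := by rw [← transpose_mul, gl_mul_inv, transpose_one]
  inv_val := by rw [← transpose_mul, gl_inv_mul, transpose_one]

/-- The twist. -/
def gT (b : Bool) (g : GL (Fin n) F) : GL (Fin n) F := if b then gI g else g

theorem gT_false (g : GL (Fin n) F) : gT false g = g := rfl

theorem gT_true (g : GL (Fin n) F) : gT true g = gI g := rfl

theorem gI_gI (g : GL (Fin n) F) : gI (gI g) = g := Units.ext rfl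

theorem gI_mul (g h : GL (Fin n) F) : gI (g * h) = gI g * gI h := by
  apply Units.ext
  change (((g * h)⁻¹).1)ᵀ = ((g⁻¹).1)ᵀ * ((h⁻¹).1)ᵀ
  rw [_root_.mul_inv_rev, ← transpose_mul]
  rfl

theorem gT_mul (b : Bool) (g h : GL (Fin n) F) : gT b (g * h) = gT b g * gT b h := by
  cases b
  · rfl
  · exact gI_mul g h

theorem gT_one (b : Bool) : gT b (1 : GL (Fin n) F) = 1 := by
  have h1 := gT_mul b (1 : GL (Fin n) F) 1
  rw [mul_one] at h1
  exact (mul_eq_left.mp h1.symm)

theorem gT_gT (b c : Bool) (g : GL (Fin n) F) : gT b (gT c g) = gT (xor b c) g := by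
  cases b <;> cases c
  · rfl
  · rfl
  · rfl
  · exact gI_gI g

theorem glMap_gT (σ : F ≃+* F) (b : Bool) (g : GL (Fin n) F) :
    glMap σ (gT b g) = gT b (glMap σ g) := by
  cases b
  · rfl
  · exact Units.ext rfl

theorem cjR_transpose (σ : F ≃+* F) (g : GL (Fin n) F) (M : Matrix (Fin n) (Fin n) F) :
    (cjR g σ M)ᵀ = cjR (gI g) σ Mᵀ := by
  rw [cjR_apply, cjR_apply, transpose_mul, transpose_mul, ← Matrix.mul_assoc]
  rfl

theorem cjR_transpose' (σ : F ≃+* F) (b : Bool) (g : GL (Fin n) F)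
    (M : Matrix (Fin n) (Fin n) F) :
    (cjR (gT (!b) g) σ M)ᵀ = cjR (gT b g) σ Mᵀ := by
  rw [cjR_transpose, ← gT_true, gT_gT]
  cases b <;> rfl

theorem xor_xor_self (b ε : Bool) : xor (xor b ε) ε = b := by
  cases b <;> cases ε <;> rfl

/-- The ring automorphisms with exchange. -/
def aR (g : GL (Fin n) F) (σ : F ≃+* F) (ε : Bool) :
    RingAut (Bool → Matrix (Fin n) (Fin n) F) where
  toFun z := fun b => cjR (gT b g) σ (z (xor b ε))
  invFun z := fun b => (cjR (gT (xor b ε) g) σ).symm (z (xor b ε))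
  left_inv z := by
    funext b
    simp only [xor_xor_self]
    exact RingEquiv.symm_apply_apply _ _
  right_inv z := by
    funext b
    simp only [xor_xor_self]
    exact RingEquiv.apply_symm_apply _ _
  map_mul' x y := by
    funext b
    exact map_mul (cjR (gT b g) σ) _ _
  map_add' x y := by
    funext b
    exact map_add (cjR (gT b g) σ) _ _

theorem aR_apply (g : GL (Fin n) F) (σ : F ≃+* F) (ε : Bool)
    (z : Bool → Matrix (Fin n) (Fin n) F) (b : Bool) :
    aR g σ ε z b = cjR (gT b g) σ (z (xor b ε)) := rfl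

theorem aR_one : aR (1 : GL (Fin n) F) (RingEquiv.refl F) false = 1 := by
  ext1 z
  funext b
  rw [aR_apply, gT_one, cjR_one, Bool.xor_false]
  rfl

theorem aR_mul (g h : GL (Fin n) F) (σ τ : F ≃+* F) (ε δ : Bool) :
    aR g σ ε * aR h τ δ = aR (g * glMap σ (gT ε h)) (τ.trans σ) (xor ε δ) := by
  ext1 z
  funext b
  change aR g σ ε (aR h τ δ z) b = _
  rw [aR_apply, aR_apply, aR_apply, ← RingAut.mul_apply, cjR_mul, gT_mul, ← glMap_gT, gT_gT,
    Bool.xor_assoc]

variable (n F) in
/-- The group of ring automorphisms. -/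
def A1 : Subgroup (RingAut (Bool → Matrix (Fin n) (Fin n) F)) where
  carrier := {R | ∃ (g : GL (Fin n) F) (σ : F ≃+* F) (ε : Bool), R = aR g σ ε}
  one_mem' := ⟨1, RingEquiv.refl F, false, aR_one.symm⟩
  mul_mem' := by
    rintro _ _ ⟨g, σ, ε, rfl⟩ ⟨h, τ, δ, rfl⟩
    exact ⟨_, _, _, aR_mul g h σ τ ε δ⟩
  inv_mem' := by
    rintro _ ⟨g, σ, ε, rfl⟩
    refine ⟨gT ε (glMap σ.symm g⁻¹), σ.symm, ε, ?_⟩
    rw [inv_eq_iff_mul_eq_one, aR_mul, gT_gT, Bool.xor_self, gT_false]
    have h1 : glMap σ (glMap σ.symm g⁻¹) = g⁻¹ := by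
      apply Units.ext
      rw [glMap_coe, glMap_coe]
      exact map_map_symm σ _
    rw [h1, mul_inv_cancel]
    have h2 : σ.symm.trans σ = RingEquiv.refl F := by
      ext x
      exact RingEquiv.apply_symm_apply σ x
    rw [h2, aR_one]

theorem mem_A1 {R : RingAut (Bool → Matrix (Fin n) (Fin n) F)} :
    R ∈ A1 n F ↔ ∃ (g : GL (Fin n) F) (σ : F ≃+* F) (ε : Bool), R = aR g σ ε := Iff.rfl

/-- The elements of `A1` commute with the exchange. -/
theorem A1_exch {R : RingAut (Bool → Matrix (Fin n) (Fin n) F)} (hR : R ∈ A1 n F)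
    (z : Bool → Matrix (Fin n) (Fin n) F) :
    R (fun b => (z (!b))ᵀ) = fun b => (R z (!b))ᵀ := by
  obtain ⟨g, σ, ε, rfl⟩ := hR
  funext b
  rw [aR_apply, aR_apply, cjR_transpose']
  congr 3
  cases b <;> cases ε <;> rfl

/-- The twist of `SL` and of `GL`. -/
theorem iT_conjSL' (b : Bool) (g : GL (Fin n) F) (A : SpecialLinearGroup (Fin n) F) :
    iT b (conjSL g A) = conjSL (gT b g) (iT b A) := by
  cases b
  · rfl
  · apply Subtype.ext
    change (((conjSL g A)⁻¹).1)ᵀ = ((g⁻¹).1)ᵀ * ((A⁻¹).1)ᵀ * (g.1)ᵀ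
    have h1 : (conjSL g A)⁻¹ = conjSL g A⁻¹ := (map_inv (conjSL g) A).symm
    rw [h1, conjSL_coe, transpose_mul, transpose_mul, Matrix.mul_assoc]

variable (n F) in
/-- The inclusion of `SL(n,F)`. -/
def inc1 : SpecialLinearGroup (Fin n) F →* (Bool → Matrix (Fin n) (Fin n) F) where
  toFun h := fun b => (iT b h).1
  map_one' := by
    funext b
    rw [map_one]
    rfl
  map_mul' x y := by
    funext b
    rw [map_mul]
    rfl

theorem inc1_apply (h : SpecialLinearGroup (Fin n) F) (b : Bool) :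
    inc1 n F h b = (iT b h).1 := rfl

theorem inc1_inj : Function.Injective (inc1 n F) := fun _ _ h => Subtype.ext (congrFun h false)

theorem inc1_aR (g : GL (Fin n) F) (σ : F ≃+* F) (ε : Bool) (h : SpecialLinearGroup (Fin n) F) :
    inc1 n F (conjSL g (SpecialLinearGroup.map (σ : F →+* F) (iT ε h))) =
      aR g σ ε (inc1 n F h) := by
  funext b
  rw [aR_apply, inc1_apply, inc1_apply, iT_conjSL', iT_map, iT_iT]
  rfl

theorem hex1 (x : A1 n F) (h : SpecialLinearGroup (Fin n) F) :
    ∃ h', inc1 n F h' = (A1 n F).subtype x (inc1 n F h) := by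
  obtain ⟨R, g, σ, ε, rfl⟩ := x
  exact ⟨_, inc1_aR g σ ε h⟩

variable (n F) in
/-- The action on `PSL(n,F)`. -/
noncomputable abbrev c1 : A1 n F →* MulAut (ProjectiveSpecialLinearGroup (Fin n) F) :=
  cQ (inc1 n F) inc1_inj (A1 n F).subtype hex1

theorem c1_mk (g : GL (Fin n) F) (σ : F ≃+* F) (ε : Bool) (A : SpecialLinearGroup (Fin n) F) :
    c1 n F ⟨aR g σ ε, g, σ, ε, rfl⟩ (mkP n F A) =
      mkP n F (conjSL g (SpecialLinearGroup.map (σ : F →+* F) (iT ε A))) :=
  cQ_mk' _ _ _ _ _ (inc1_aR g σ ε A)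

theorem sur1 [Finite F] (h3 : 3 ≤ n)
    (φ : ProjectiveSpecialLinearGroup (Fin n) F ≃* ProjectiveSpecialLinearGroup (Fin n) F) :
    ∃ x : A1 n F, ∀ t, φ t = c1 n F x t := by
  obtain ⟨g, σ, h | h⟩ := aut_psl h3 φ
  · refine ⟨⟨aR g σ false, g, σ, false, rfl⟩, ?_⟩
    intro t
    obtain ⟨A, rfl⟩ := mkP_surj t
    rw [h, c1_mk]
    rfl
  · refine ⟨⟨aR g σ true, g, σ, true, rfl⟩, ?_⟩
    intro t
    obtain ⟨A, rfl⟩ := mkP_surj t
    rw [h, c1_mk]
    rfl

/-- The entries of the commutation relations. -/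
theorem single_comm {g : Matrix (Fin n) (Fin n) F} {i j i' j' : Fin n} {s t : F}
    (h : g * single i j s = single i' j' t * g) (a b : Fin n) :
    (if b = j then g a i * s else 0) = if a = i' then t * g j' b else 0 := by
  have h1 := congrFun (congrFun h a) b
  by_cases hb : b = j
  · subst hb
    rw [mul_single_apply_same] at h1
    rw [if_pos rfl]
    by_cases ha : a = i'
    · subst ha
      rw [single_mul_apply_same] at h1
      rw [if_pos rfl, h1]
    · rw [single_mul_apply_of_ne _ _ _ _ _ ha] at h1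
      rw [if_neg ha, h1]
  · rw [mul_single_apply_of_ne _ _ _ _ _ hb] at h1
    rw [if_neg hb]
    by_cases ha : a = i'
    · subst ha
      rw [single_mul_apply_same] at h1
      rw [if_pos rfl, h1]
    · rw [if_neg ha]

theorem fix1 (h3 : 3 ≤ n) (x : A1 n F) (hx : ∀ t, c1 n F x t = t) : x = 1 := by
  have hn0 : 0 < n := by omega
  have hNZ : NeZero n := ⟨by omega⟩
  obtain ⟨R, g, σ, ε, rfl⟩ := x
  -- relations
  have hrel : ∀ A : SpecialLinearGroup (Fin n) F, ∃ c : F,
      (conjSL g (SpecialLinearGroup.map (σ : F →+* F) (iT ε A))).1 = c • A.1 := by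
    intro A
    have h1 := hx (mkP n F A)
    rw [c1_mk] at h1
    obtain ⟨c, hc⟩ := mkP_eq h1
    exact ⟨c, hc⟩
  have hg0 : g.1 ≠ 0 := by
    intro h0
    have h1 := gl_mul_inv g
    rw [h0, Matrix.zero_mul] at h1
    have h2 := congrFun (congrFun h1 ⟨0, hn0⟩) ⟨0, hn0⟩
    rw [Matrix.zero_apply, Matrix.one_apply_eq] at h2
    exact zero_ne_one h2
  cases ε
  · have key : ∀ (i j : Fin n) (_ : i ≠ j) (t : F),
        g.1 * single i j (σ t) = single i j t * g.1 := by
      intro i j hij t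
      obtain ⟨c, hc⟩ := hrel (SpecialLinearGroup.transvection hij t)
      rw [iT_false, map_transvection, conjSL_coe, transvection_coe, transvection_coe] at hc
      exact conj_single_smul h3 g hc
    have h0 : ∀ a i : Fin n, a ≠ i → g.1 a i = 0 := by
      intro a i hai
      obtain ⟨j, hj, -⟩ := exists_third h3 i i
      have h1 := single_comm (key i j hj.symm 1) a j
      rwa [if_pos rfl, if_neg hai, map_one, mul_one] at h1
    have h1 : ∀ (i j : Fin n) (_ : i ≠ j) (t : F), g.1 i i * σ t = t * g.1 j j := by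
      intro i j hij t
      have h2 := single_comm (key i j hij t) i j
      rwa [if_pos rfl, if_pos rfl] at h2
    have h2 : ∀ i j : Fin n, g.1 i i = g.1 j j := by
      intro i j
      by_cases hij : i = j
      · rw [hij]
      · have h3 := h1 i j hij 1
        rwa [map_one, mul_one, one_mul] at h3
    set o : Fin n := ⟨0, hn0⟩
    have hg : g.1 = g.1 o o • (1 : Matrix (Fin n) (Fin n) F) := by
      ext a b
      rw [Matrix.smul_apply, smul_eq_mul, Matrix.one_apply]
      split_ifs with h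
      · rw [h, mul_one, h2]
      · rw [mul_zero, h0 a b h]
    have hk : g.1 o o ≠ 0 := by
      intro h
      rw [h, zero_smul] at hg
      exact hg0 hg
    have hσ : σ = RingEquiv.refl F := by
      obtain ⟨j, hj, -⟩ := exists_third h3 o o
      ext t
      have h3 := h1 o j hj.symm t
      rw [h2 j o, mul_comm t] at h3
      exact mul_left_cancel₀ hk h3
    subst hσ
    apply Subtype.ext
    ext1 z
    funext b
    change cjR (gT b g) (RingEquiv.refl F) (z (xor b false)) = z b
    rw [Bool.xor_false]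
    have h4 : ∃ k : F, (gT b g).1 = k • (1 : Matrix (Fin n) (Fin n) F) := by
      cases b
      · exact ⟨_, hg⟩
      · refine ⟨(g.1 o o)⁻¹, ?_⟩
        change ((g⁻¹).1)ᵀ = _
        have h5 : (g⁻¹).1 = (g.1 o o)⁻¹ • (1 : Matrix (Fin n) (Fin n) F) := by
          have h6 := gl_inv_mul g
          rw [hg, Matrix.mul_smul, Matrix.mul_one] at h6
          rw [← h6, smul_smul, inv_mul_cancel₀ hk, one_smul]
        rw [h5, transpose_smul, transpose_one]
    obtain ⟨k, hk'⟩ := h4
    rw [cjR_scalar hk']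
    rfl
  · exfalso
    apply hg0
    have key : ∀ (i j : Fin n) (_ : i ≠ j) (t : F),
        g.1 * single j i (σ (-t)) = single i j t * g.1 := by
      intro i j hij t
      obtain ⟨c, hc⟩ := hrel (SpecialLinearGroup.transvection hij t)
      rw [iT_true, invT_transvection, map_transvection, conjSL_coe, transvection_coe,
        transvection_coe] at hc
      exact conj_single_smul h3 g hc
    ext a j
    rw [Matrix.zero_apply]
    obtain ⟨i, hi1, hi2⟩ := exists_third h3 a j
    have h1 := single_comm (key i j hi2 1) a i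
    rw [if_pos rfl, if_neg hi1.symm, map_neg, map_one, mul_neg, mul_one] at h1
    exact neg_eq_zero.mp h1

theorem perf1 (h3 : 3 ≤ n) : commutator (SpecialLinearGroup (Fin n) F) = ⊤ :=
  SL_commutator_eq_top (by rw [Fintype.card_fin]; exact h3)

theorem nontrivial_SLn (h3 : 3 ≤ n) : Nontrivial (SpecialLinearGroup (Fin n) F) := by
  have hn0 : 0 < n := by omega
  obtain ⟨j0, hj0, -⟩ := exists_third h3 (⟨0, hn0⟩ : Fin n) ⟨0, hn0⟩
  refine ⟨SpecialLinearGroup.transvection hj0.symm 1, 1, ?_⟩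
  intro h
  have h1 := congrArg (fun A : SpecialLinearGroup (Fin n) F => A.1 ⟨0, hn0⟩ j0) h
  simp only [transvection_coe, Matrix.add_apply, Matrix.one_apply, if_neg hj0.symm, zero_add,
    Matrix.single_apply_same] at h1
  have h2 : (1 : SpecialLinearGroup (Fin n) F).1 ⟨0, hn0⟩ j0 = 0 :=
    Matrix.one_apply_ne hj0.symm
  exact one_ne_zero (h1.trans h2)

theorem simple_PSLn (h3 : 3 ≤ n) : IsSimpleGroup (ProjectiveSpecialLinearGroup (Fin n) F) :=
  PSL_simple (by rw [Fintype.card_fin]; exact h3)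

end twist

end MP7fY
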