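import Pool.Agent.Lib.MP_7f581e_ntL.Y6
import Pool.Agent.Lib.MP_7f581e_ntG.SplitSLn

/-!
Split embedding problems with kernel a power of `SL(n, F)` or of `PSL(n, F)`, `n ≥ 3`: reduction
to the generic Lang torsor.
-/

set_option autoImplicit false
set_option linter.unusedSectionVars false

universe u

namespace MP7fY

open Matrix Matrix.SpecialLinearGroup MP7fE MP7fR MP7fW MP7fG

section form

variable {n : ℕ} {F : Type*} [Field F] {κ : Type*}

/-- The shape of the ring automorphisms: field automorphisms, exchange, permutations of the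
factors and conjugations. -/
def SlForm (R : (κ × Bool → Matrix (Fin n) (Fin n) F) ≃+* (κ × Bool → Matrix (Fin n) (Fin n) F)) :
    Prop :=
  ∃ (π : Equiv.Perm κ) (g : κ → GL (Fin n) F) (σ : κ → (F ≃+* F)) (ε : κ → Bool),
    ∀ z k b, R z (π k, b) =
      (gT b (g k)).1 * (z (k, xor b (ε k))).map (σ k) * ((gT b (g k))⁻¹).1

/-- Compatibility with the exchange involution. -/
theorem SlForm.exch {R : (κ × Bool → Matrix (Fin n) (Fin n) F) ≃+*
    (κ × Bool → Matrix (Fin n) (Fin n) F)} (h : SlForm R)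
    (z : κ × Bool → Matrix (Fin n) (Fin n) F) :
    R (fun y => (z (y.1, !y.2))ᵀ) = fun y => (R z (y.1, !y.2))ᵀ := by
  obtain ⟨π, g, σ, ε, h⟩ := h
  funext y
  obtain ⟨i, b⟩ := y
  obtain ⟨k, rfl⟩ := π.surjective i
  change R _ (π k, b) = (R z (π k, !b))ᵀ
  rw [h, h]
  have h1 := cjR_transpose' (σ k) b (g k) (z (k, xor (!b) (ε k)))
  rw [cjR_apply, cjR_apply] at h1
  rw [h1]
  congr 3
  cases b <;> cases (ε k) <;> rfl

/-- The shape in terms of permutations of the set of indices. -/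
theorem SlForm.perm {R : (κ × Bool → Matrix (Fin n) (Fin n) F) ≃+*
    (κ × Bool → Matrix (Fin n) (Fin n) F)} (h : SlForm R) :
    ∃ (π : Equiv.Perm (κ × Bool)) (P Q : κ × Bool → Matrix (Fin n) (Fin n) F)
      (σ : κ × Bool → (F →+* F)), (∀ y, P y * Q y = 1) ∧
        ∀ z y, R z (π y) = P y * (z y).map (σ y) * Q y := by
  obtain ⟨π, g, σ, ε, h⟩ := h
  let π' : Equiv.Perm (κ × Bool) :=
    { toFun := fun y => (π y.1, xor y.2 (ε y.1))
      invFun := fun y => (π.symm y.1, xor y.2 (ε (π.symm y.1)))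
      left_inv := fun y => by
        refine Prod.ext ?_ ?_
        · exact π.symm_apply_apply _
        · change xor (xor y.2 (ε y.1)) (ε (π.symm (π y.1))) = y.2
          rw [π.symm_apply_apply, xor_xor_self]
      right_inv := fun y => by
        refine Prod.ext ?_ ?_
        · exact π.apply_symm_apply _
        · change xor (xor y.2 (ε (π.symm y.1))) (ε (π.symm y.1)) = y.2
          rw [xor_xor_self] }
  refine ⟨π', fun y => (gT (xor y.2 (ε y.1)) (g y.1)).1,
    fun y => ((gT (xor y.2 (ε y.1)) (g y.1))⁻¹).1, fun y => (σ y.1 : F →+* F),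
    fun y => gl_mul_inv _, ?_⟩
  intro z y
  change R z (π y.1, xor y.2 (ε y.1)) = _
  rw [h, xor_xor_self]
  rfl

/-- Currying. -/
def cuR (n : ℕ) (F : Type*) [Field F] (κ : Type*) :
    (κ × Bool → Matrix (Fin n) (Fin n) F) ≃+* (κ → Bool → Matrix (Fin n) (Fin n) F) where
  toFun z := fun k b => z (k, b)
  invFun w := fun y => w y.1 y.2
  left_inv _ := rfl
  right_inv _ := rfl
  map_mul' _ _ := rfl
  map_add' _ _ := rfl

/-- Transport along currying. -/
def cuA (n : ℕ) (F : Type*) [Field F] (κ : Type*) :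
    RingAut (κ → Bool → Matrix (Fin n) (Fin n) F) →*
      ((κ × Bool → Matrix (Fin n) (Fin n) F) ≃+* (κ × Bool → Matrix (Fin n) (Fin n) F)) where
  toFun R := ((cuR n F κ).trans R).trans (cuR n F κ).symm
  map_one' := by
    ext1 z
    rfl
  map_mul' R S := by
    ext1 z
    rfl

theorem cuA_apply (R : RingAut (κ → Bool → Matrix (Fin n) (Fin n) F))
    (z : κ × Bool → Matrix (Fin n) (Fin n) F) (y : κ × Bool) :
    cuA n F κ R z y = R (fun k b => z (k, b)) y.1 y.2 := rfl

theorem slForm_cuA {R : RingAut (κ → Bool → Matrix (Fin n) (Fin n) F)}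
    (h : ∃ (π : Equiv.Perm κ) (x : κ → A1 n F), ∀ b k, R b (π k) = (A1 n F).subtype (x k) (b k)) :
    SlForm (cuA n F κ R) := by
  obtain ⟨π, x, h⟩ := h
  choose g σ ε hx using fun k => (x k).2
  refine ⟨π, g, σ, ε, ?_⟩
  intro z k b
  rw [cuA_apply, h]
  change (x k).1 _ b = _
  rw [hx, aR_apply, cjR_apply]

end form

section solve

variable {F : Type} [Field F] [Finite F] {n : ℕ}

/-- The generic Lang torsor hypothesis for one action. -/
def LangSL1 {n : ℕ} {F : Type} [Field F] {κ : Type} (K L : Type u) [Field K] [Field L]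
    [Algebra K L] {Q : Type} [Group Q]
    (ρ : Q →* ((κ × Bool → Matrix (Fin n) (Fin n) F) ≃+* (κ × Bool → Matrix (Fin n) (Fin n) F))) :
    Prop :=
  ∃ (V : Type) (_ : Group V) (l : V →* (κ → SpecialLinearGroup (Fin n) F))
    (act : Q →* MulAut V), Function.Surjective l ∧
      (∀ q v, wInc (l (act q v)) = ρ q (wInc (l v))) ∧
        SolvesOver K L (SemidirectProduct.rightHom : V ⋊[act] Q →* Q)

/-- The generic Lang torsor hypothesis. -/
def LangSL (n : ℕ) (F : Type) [Field F] (κ : Type) (K L : Type u) [Field K] [Field L]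
    [Algebra K L] (Q : Type) [Group Q] : Prop :=
  ∀ ρ : Q →* ((κ × Bool → Matrix (Fin n) (Fin n) F) ≃+* (κ × Bool → Matrix (Fin n) (Fin n) F)),
    (∀ q, SlForm (ρ q)) → LangSL1 K L ρ

/-- Split embedding problems with kernel a power of `SL(n, F)`: reduction. -/
theorem exists_sln_of_lang (h3 : 3 ≤ n) {κ : Type} [Finite κ] {E Q : Type} [Group E]
    [Group Q] (f : E →* Q) (s : Q →* E) (hfs : ∀ q, f (s q) = q)
    (θ : f.ker ≃* (κ → SpecialLinearGroup (Fin n) F)) :
    ∃ ρ : Q →* ((κ × Bool → Matrix (Fin n) (Fin n) F) ≃+* (κ × Bool → Matrix (Fin n) (Fin n) F)),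
      (∀ q, SlForm (ρ q)) ∧ ∀ {K L : Type u} [Field K] [Field L] [Algebra K L],
        LangSL1 K L ρ → SolvesOver K L f := by
  have := nontrivial_SLn (F := F) h3
  have := simple_PSLn (F := F) h3
  have hz := center_psl (F := F) h3
  have hperf := perf1 (F := F) h3
  let ρ : Q →* RingAut (κ → Bool → Matrix (Fin n) (Fin n) F) :=
    rhoH (sur1 h3) (fix1 h3) hz f s hperf θ
  refine ⟨(cuA n F κ).comp ρ,
    fun q => slForm_cuA (rhoH_form (sur1 h3) (fix1 h3) hz f s hperf θ q), ?_⟩
  intro K L _ _ _ hL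
  obtain ⟨V, _, l, act, hl, hact, hs⟩ := hL
  refine solvesOver_of_splitH (sur1 h3) (fix1 h3) hz f s hfs hperf θ l hl act ?_ hs
  intro q v
  funext k b
  exact congrFun (hact q v) (k, b)

/-- Split embedding problems with kernel a power of `PSL(n, F)`: reduction. -/
theorem exists_psln_of_lang (h3 : 3 ≤ n) {κ : Type} [Finite κ] {E Q : Type} [Group E]
    [Group Q] (f : E →* Q) (s : Q →* E) (hfs : ∀ q, f (s q) = q)
    (θ : f.ker ≃* (κ → ProjectiveSpecialLinearGroup (Fin n) F)) :
    ∃ ρ : Q →* ((κ × Bool → Matrix (Fin n) (Fin n) F) ≃+* (κ × Bool → Matrix (Fin n) (Fin n) F)),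
      (∀ q, SlForm (ρ q)) ∧ ∀ {K L : Type u} [Field K] [Field L] [Algebra K L],
        LangSL1 K L ρ → SolvesOver K L f := by
  have := simple_PSLn (F := F) h3
  have hz := center_psl (F := F) h3
  let ρ : Q →* RingAut (κ → Bool → Matrix (Fin n) (Fin n) F) :=
    rhoS (sur1 h3) (fix1 h3) hz f s θ
  refine ⟨(cuA n F κ).comp ρ,
    fun q => slForm_cuA (rhoS_form (sur1 h3) (fix1 h3) hz f s θ q), ?_⟩
  intro K L _ _ _ hL
  obtain ⟨V, _, l, act, hl, hact, hs⟩ := hL
  refine solvesOver_of_splitS (sur1 h3) (fix1 h3) hz f s hfs θ l hl act ?_ hs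
  intro q v
  funext k b
  exact congrFun (hact q v) (k, b)

/-- Split embedding problems with kernel a power of `SL(n, F)`: reduction. -/
theorem solvesOver_sln_of_lang (h3 : 3 ≤ n) {κ : Type} [Finite κ] {E Q : Type} [Group E]
    [Group Q] (f : E →* Q) (s : Q →* E) (hfs : ∀ q, f (s q) = q)
    (θ : f.ker ≃* (κ → SpecialLinearGroup (Fin n) F)) {K L : Type u} [Field K] [Field L]
    [Algebra K L] (hL : LangSL n F κ K L Q) : SolvesOver K L f := by
  obtain ⟨ρ, hρ, h⟩ := exists_sln_of_lang h3 f s hfs θ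
  exact h (hL ρ hρ)

/-- Split embedding problems with kernel a power of `PSL(n, F)`: reduction. -/
theorem solvesOver_psln_of_lang (h3 : 3 ≤ n) {κ : Type} [Finite κ] {E Q : Type} [Group E]
    [Group Q] (f : E →* Q) (s : Q →* E) (hfs : ∀ q, f (s q) = q)
    (θ : f.ker ≃* (κ → ProjectiveSpecialLinearGroup (Fin n) F)) {K L : Type u} [Field K]
    [Field L] [Algebra K L] (hL : LangSL n F κ K L Q) : SolvesOver K L f := by
  obtain ⟨ρ, hρ, h⟩ := exists_psln_of_lang h3 f s hfs θ
  exact h (hL ρ hρ)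

end solve

end MP7fY
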