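import Pool.Agent.Lib.MP_7f581e_ntG.AutSL

/-!
Ring automorphisms of `(κ × Bool → Matrix (Fin n) (Fin n) F)`, and the twisted inclusion of a
power of `SL(n, F)`.
-/

set_option autoImplicit false

namespace MP7fG

open Matrix Matrix.SpecialLinearGroup MulOpposite

variable {F : Type*} [Field F] {n : ℕ} {κ : Type*}

/-- The permutation of `κ × Bool`. -/
def wPerm (π : Equiv.Perm κ) (ε : κ → Bool) : Equiv.Perm (κ × Bool) where
  toFun y := (π y.1, xor (ε y.1) y.2)
  invFun y := (π.symm y.1, xor (ε (π.symm y.1)) y.2)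
  left_inv y := by
    rcases y with ⟨k, b⟩
    simp
  right_inv y := by
    rcases y with ⟨k, b⟩
    simp

theorem wPerm_apply (π : Equiv.Perm κ) (ε : κ → Bool) (y : κ × Bool) :
    wPerm π ε y = (π y.1, xor (ε y.1) y.2) := rfl

/-- The ring automorphism. -/
def wR (π : Equiv.Perm κ) (ε : κ → Bool) (σ : κ → (F ≃+* F)) :
    (κ × Bool → Matrix (Fin n) (Fin n) F) ≃+* (κ × Bool → Matrix (Fin n) (Fin n) F) where
  toFun z := fun y => (z ((wPerm π ε).symm y)).map (σ ((wPerm π ε).symm y).1)
  invFun z := fun y => (z (wPerm π ε y)).map (σ y.1).symm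
  left_inv z := by
    funext y
    simp only [Equiv.symm_apply_apply]
    ext a b
    rw [Matrix.map_apply, Matrix.map_apply, RingEquiv.symm_apply_apply]
  right_inv z := by
    funext y
    simp only [Equiv.apply_symm_apply]
    ext a b
    rw [Matrix.map_apply, Matrix.map_apply, RingEquiv.apply_symm_apply]
  map_mul' z z' := by
    funext y
    exact Matrix.map_mul
  map_add' z z' := by
    funext y
    ext a b
    exact map_add (σ ((wPerm π ε).symm y).1) _ _

theorem wR_apply (π : Equiv.Perm κ) (ε : κ → Bool) (σ : κ → (F ≃+* F))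
    (z : κ × Bool → Matrix (Fin n) (Fin n) F) (y : κ × Bool) :
    wR π ε σ z (wPerm π ε y) = (z y).map (σ y.1) := by
  change (z ((wPerm π ε).symm (wPerm π ε y))).map (σ ((wPerm π ε).symm (wPerm π ε y)).1) = _
  rw [Equiv.symm_apply_apply]

theorem wR_one : wR (n := n) (Equiv.refl κ) (fun _ => false) (fun _ => RingEquiv.refl F) =
    RingEquiv.refl _ := by
  ext1 z
  funext y
  have h1 : wPerm (Equiv.refl κ) (fun _ => false) y = y := by
    rcases y with ⟨k, b⟩
    simp [wPerm_apply]
  have h2 := wR_apply (Equiv.refl κ) (fun _ => false) (fun _ => RingEquiv.refl F) z y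
  rw [h1] at h2
  rw [h2]
  ext a b
  rfl

theorem wR_comp (π π' : Equiv.Perm κ) (ε ε' : κ → Bool) (σ σ' : κ → (F ≃+* F)) :
    (wR (n := n) π' ε' σ').trans (wR π ε σ) =
      wR (π'.trans π) (fun k => xor (ε (π' k)) (ε' k)) (fun k => (σ' k).trans (σ (π' k))) := by
  ext1 z
  funext y
  obtain ⟨y, rfl⟩ := (wPerm (π'.trans π) (fun k => xor (ε (π' k)) (ε' k))).surjective y
  rw [wR_apply]
  have h1 : wPerm (π'.trans π) (fun k => xor (ε (π' k)) (ε' k)) y =
      wPerm π ε (wPerm π' ε' y) := by
    rcases y with ⟨k, b⟩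
    simp [wPerm_apply]
  rw [h1, RingEquiv.trans_apply, wR_apply, wR_apply]
  ext a b
  rfl

/-- The exchange. -/
def wJ (z : κ × Bool → Matrix (Fin n) (Fin n) F) : κ × Bool → Matrix (Fin n) (Fin n) F :=
  fun y => (z (y.1, !y.2)).transpose

theorem wR_wJ (π : Equiv.Perm κ) (ε : κ → Bool) (σ : κ → (F ≃+* F))
    (z : κ × Bool → Matrix (Fin n) (Fin n) F) : wR π ε σ (wJ z) = wJ (wR π ε σ z) := by
  funext y
  obtain ⟨y, rfl⟩ := (wPerm π ε).surjective y
  rw [wR_apply]
  have h1 : wJ (wR π ε σ z) (wPerm π ε y) = (wR π ε σ z (wPerm π ε (y.1, !y.2))).transpose := by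
    change (wR π ε σ z ((wPerm π ε y).1, !(wPerm π ε y).2)).transpose = _
    congr 2
    rcases y with ⟨k, b⟩
    simp [wPerm_apply]
  rw [h1, wR_apply]
  ext a b
  rfl

/-- The identification with the exchange algebra. -/
def wE (n : ℕ) (F : Type*) [Field F] (κ : Type*) :
    ((κ → Matrix (Fin n) (Fin n) F) × (κ → Matrix (Fin n) (Fin n) F)ᵐᵒᵖ) ≃+*
      (κ × Bool → Matrix (Fin n) (Fin n) F) where
  toFun x := fun y => if y.2 then (unop x.2 y.1).transpose else x.1 y.1
  invFun z := (fun k => z (k, false), op fun k => (z (k, true)).transpose)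
  left_inv x := by
    rcases x with ⟨a, b⟩
    rfl
  right_inv z := by
    funext y
    rcases y with ⟨k, b⟩
    cases b <;> rfl
  map_mul' x x' := by
    funext y
    rcases y with ⟨k, b⟩
    cases b
    · rfl
    · change (unop (x.2 * x'.2) k).transpose = (unop x.2 k).transpose * (unop x'.2 k).transpose
      rw [← Matrix.transpose_mul]
      rfl
  map_add' x x' := by
    funext y
    rcases y with ⟨k, b⟩
    cases b <;> rfl

theorem wE_false (x : (κ → Matrix (Fin n) (Fin n) F) × (κ → Matrix (Fin n) (Fin n) F)ᵐᵒᵖ)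
    (k : κ) : wE n F κ x (k, false) = x.1 k := rfl

theorem wE_true (x : (κ → Matrix (Fin n) (Fin n) F) × (κ → Matrix (Fin n) (Fin n) F)ᵐᵒᵖ)
    (k : κ) : wE n F κ x (k, true) = (unop x.2 k).transpose := rfl

theorem wE_swap (a b : κ → Matrix (Fin n) (Fin n) F) :
    wE n F κ (b, op a) = wJ (wE n F κ (a, op b)) := by
  funext y
  rcases y with ⟨k, c⟩
  cases c <;> rfl

/-- The twist. -/
def iT (b : Bool) : SpecialLinearGroup (Fin n) F ≃* SpecialLinearGroup (Fin n) F :=
  if b then invT n F else MulEquiv.refl _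

theorem iT_false (A : SpecialLinearGroup (Fin n) F) : iT false A = A := rfl

theorem iT_true (A : SpecialLinearGroup (Fin n) F) : iT true A = invT n F A := rfl

theorem iT_iT (b c : Bool) (A : SpecialLinearGroup (Fin n) F) :
    iT b (iT c A) = iT (xor b c) A := by
  cases b <;> cases c
  · rfl
  · rfl
  · rfl
  · exact invT_invT A

theorem invT_map (σ : F ≃+* F) (A : SpecialLinearGroup (Fin n) F) :
    invT n F (SpecialLinearGroup.map (σ : F →+* F) A) =
      SpecialLinearGroup.map (σ : F →+* F) (invT n F A) := by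
  have h1 : invT n F (SpecialLinearGroup.map (σ : F →+* F) A) =
    ((SpecialLinearGroup.map (σ : F →+* F) A)⁻¹).transpose := rfl
  rw [h1, ← map_inv]
  rfl

theorem iT_map (b : Bool) (σ : F ≃+* F) (A : SpecialLinearGroup (Fin n) F) :
    iT b (SpecialLinearGroup.map (σ : F →+* F) A) =
      SpecialLinearGroup.map (σ : F →+* F) (iT b A) := by
  cases b
  · rfl
  · exact invT_map σ A

/-- The twisted inclusion. -/
def wInc (x : κ → SpecialLinearGroup (Fin n) F) : κ × Bool → Matrix (Fin n) (Fin n) F :=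
  fun y => (iT y.2 (x y.1)).1

theorem wInc_inj {x x' : κ → SpecialLinearGroup (Fin n) F} (h : wInc x = wInc x') : x = x' := by
  funext k
  exact Subtype.ext (congrFun h (k, false))

theorem map_coe (σ : F ≃+* F) (A : SpecialLinearGroup (Fin n) F) :
    (A.1).map σ = (SpecialLinearGroup.map (σ : F →+* F) A).1 := rfl

/-- The ring automorphism induces the group automorphism. -/
def Ind (R : (κ × Bool → Matrix (Fin n) (Fin n) F) ≃+* (κ × Bool → Matrix (Fin n) (Fin n) F))
    (ψ : (κ → SpecialLinearGroup (Fin n) F) → (κ → SpecialLinearGroup (Fin n) F)) : Prop :=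
  ∀ x, R (wInc x) = wInc (ψ x)

theorem ind_iff {π : Equiv.Perm κ} {ε : κ → Bool} {σ : κ → (F ≃+* F)}
    {ψ : (κ → SpecialLinearGroup (Fin n) F) → (κ → SpecialLinearGroup (Fin n) F)} :
    Ind (wR π ε σ) ψ ↔ ∀ x k, ψ x (π k) =
      SpecialLinearGroup.map (σ k : F →+* F) (iT (ε k) (x k)) := by
  constructor
  · intro h x k
    have h1 := congrFun (h x) (wPerm π ε (k, ε k))
    rw [wR_apply] at h1
    have h2 : wPerm π ε (k, ε k) = (π k, false) := by
      simp [wPerm_apply]
    rw [h2] at h1
    apply Subtype.ext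
    exact h1.symm
  · intro h x
    funext y
    obtain ⟨⟨k, b⟩, rfl⟩ := (wPerm π ε).surjective y
    rw [wR_apply]
    change (iT b (x k)).1.map (σ k) = (iT (xor (ε k) b) (ψ x (π k))).1
    rw [h, iT_map, iT_iT, map_coe]
    congr 2
    cases ε k <;> cases b <;> rfl

/-- The twist is not a field automorphism. -/
theorem not_twist (h3 : 3 ≤ n) {b : Bool} {σ σ' : F ≃+* F}
    (h : ∀ A : SpecialLinearGroup (Fin n) F,
      SpecialLinearGroup.map (σ : F →+* F) (iT b A) = SpecialLinearGroup.map (σ' : F →+* F) A) :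
    b = false ∧ σ = σ' := by
  have hn0 : 0 < n := by omega
  obtain ⟨j0, hj0, -⟩ := exists_third h3 (⟨0, hn0⟩ : Fin n) ⟨0, hn0⟩
  have h1 : ∀ t : F, ((SpecialLinearGroup.map (σ : F →+* F)
      (iT b (SpecialLinearGroup.transvection hj0.symm t))).1) ⟨0, hn0⟩ j0 = σ' t := by
    intro t
    rw [h, ← map_coe, Matrix.map_apply, transvection_coe, Matrix.add_apply, Matrix.one_apply,
      if_neg hj0.symm, zero_add, Matrix.single_apply_same]
  cases b
  · refine ⟨rfl, ?_⟩
    ext t
    rw [← h1 t, iT_false, ← map_coe, Matrix.map_apply, transvection_coe, Matrix.add_apply,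
      Matrix.one_apply, if_neg hj0.symm, zero_add, Matrix.single_apply_same]
  · exfalso
    have h2 := h1 1
    rw [iT_true, invT_transvection, ← map_coe, Matrix.map_apply, transvection_coe,
      Matrix.add_apply, Matrix.one_apply, if_neg hj0.symm, zero_add, Matrix.single_apply,
      if_neg, map_zero, map_one] at h2
    · exact zero_ne_one h2
    · rintro ⟨h3, -⟩
      exact hj0 h3

theorem wR_unique (h3 : 3 ≤ n) {π π' : Equiv.Perm κ} {ε ε' : κ → Bool} {σ σ' : κ → (F ≃+* F)}
    {ψ : (κ → SpecialLinearGroup (Fin n) F) → (κ → SpecialLinearGroup (Fin n) F)}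
    (h : Ind (wR π ε σ) ψ) (h' : Ind (wR π' ε' σ') ψ) :
    wR (n := n) π ε σ = wR π' ε' σ' := by
  classical
  rw [ind_iff] at h h'
  have hn0 : 0 < n := by omega
  obtain ⟨j0, hj0, -⟩ := exists_third h3 (⟨0, hn0⟩ : Fin n) ⟨0, hn0⟩
  have hinj : ∀ (σ : F ≃+* F) (b : Bool) (A : SpecialLinearGroup (Fin n) F),
      SpecialLinearGroup.map (σ : F →+* F) (iT b A) = 1 → A = 1 := by
    intro σ b A hA
    have h1 : iT b A = 1 := by
      apply Subtype.ext
      ext i j
      apply σ.injective
      have := congrFun (congrFun (congrArg Subtype.val hA) i) j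
      rw [← map_coe, Matrix.map_apply] at this
      rw [this, coe_one, Matrix.one_apply]
      split_ifs
      · exact (map_one σ).symm
      · exact (map_zero σ).symm
    have h2 := congrArg (iT b) h1
    rw [iT_iT, Bool.xor_self, iT_false, map_one] at h2
    exact h2
  have hπ : π = π' := by
    ext k
    by_contra hne
    obtain ⟨k', hk'⟩ := π'.surjective (π k)
    have hkk : k' ≠ k := fun h => hne (by rw [← hk', h])
    let A : SpecialLinearGroup (Fin n) F := SpecialLinearGroup.transvection hj0 (1 : F)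
    have h1 := h (Pi.mulSingle k A) k
    have h2 := h' (Pi.mulSingle k A) k'
    rw [hk', h1, Pi.mulSingle_eq_same, Pi.mulSingle_eq_of_ne hkk, map_one, map_one] at h2
    have h4 := hinj _ _ _ h2
    have h5 : A = SpecialLinearGroup.transvection hj0 (0 : F) := by
      rw [h4, transvection_coeff_zero]
    exact one_ne_zero (transvection_inj hj0 h5)
  subst hπ
  have h4 : ∀ k, xor (ε k) (ε' k) = false ∧ σ k = σ' k := by
    intro k
    apply not_twist h3
    intro A
    have h1 := h (fun _ => iT (ε' k) A) k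
    have h2 := h' (fun _ => iT (ε' k) A) k
    rw [h1, iT_iT, iT_iT, Bool.xor_self, iT_false] at h2
    exact h2
  have hε : ε = ε' := by
    funext k
    have := (h4 k).1
    simpa using this
  have hσ : σ = σ' := funext fun k => (h4 k).2
  rw [hε, hσ]

end MP7fG
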