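import Pool.Agent.Lib.MP_7f581e_ntG.AutPSL
import Pool.Agent.Lib.MP_7f581e_ntG.WAut

/-!
Diagonal automorphisms.
-/

set_option autoImplicit false

namespace MP7fG

open Matrix Matrix.SpecialLinearGroup MulOpposite

/-- The condition under which the diagonal automorphisms have a complement. -/
def DiagCond (n : ℕ) (N : ℕ) : Prop := (Nat.gcd n N).Coprime (N / Nat.gcd n N)

theorem mu_dec {A : Type*} [CommGroup A] [Finite A] {n : ℕ} (h : DiagCond n (Nat.card A))
    (x : A) : ∃ a b : A, a ^ (Nat.gcd n (Nat.card A)) = 1 ∧ x = a * b ^ n := by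
  set N := Nat.card A with hN
  set d := Nat.gcd n N with hd
  have hdN : d * (N / d) = N := Nat.mul_div_cancel' (Nat.gcd_dvd_right n N)
  have hb1 : (1 : ℤ) = d * Nat.gcdA d (N / d) + (N / d : ℕ) * Nat.gcdB d (N / d) := by
    rw [← Nat.gcd_eq_gcd_ab, h]
    rfl
  have hb2 : (d : ℤ) = n * Nat.gcdA n N + N * Nat.gcdB n N := Nat.gcd_eq_gcd_ab n N
  set u := Nat.gcdA d (N / d)
  set v := Nat.gcdB d (N / d)
  set s := Nat.gcdA n N
  set t := Nat.gcdB n N
  have hone : ∀ y : A, y ^ N = 1 := fun y => pow_card_eq_one'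
  refine ⟨x ^ ((N / d : ℕ) * v), x ^ (u * s), ?_, ?_⟩
  · rw [← zpow_natCast, ← _root_.zpow_mul]
    have : ((N / d : ℕ) : ℤ) * v * d = N * v := by
      have h1 : ((d : ℤ) * ((N / d : ℕ) : ℤ)) = N := by exact_mod_cast hdN
      rw [← h1]
      ring
    rw [this, _root_.zpow_mul, zpow_natCast, hone, _root_.one_zpow]
  · rw [← zpow_natCast, ← _root_.zpow_mul, ← _root_.zpow_add]
    have h2 : x ^ ((N / d : ℕ) * v + u * s * n) * x ^ ((N : ℤ) * (u * t)) = x ^ (1 : ℤ) := by
      rw [← _root_.zpow_add]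
      congr 1
      rw [hb1, hb2]
      ring
    rw [_root_.zpow_mul x (N : ℤ), zpow_natCast, hone, _root_.one_zpow, mul_one, zpow_one] at h2
    exact h2.symm

theorem mu_disj {A : Type*} [CommGroup A] [Finite A] {n : ℕ} (h : DiagCond n (Nat.card A))
    {a b : A} (ha : a ^ (Nat.gcd n (Nat.card A)) = 1) (hab : a = b ^ n) : a = 1 := by
  set N := Nat.card A with hN
  set d := Nat.gcd n N with hd
  have hdN : d * (N / d) = N := Nat.mul_div_cancel' (Nat.gcd_dvd_right n N)
  obtain ⟨e, he⟩ := Nat.gcd_dvd_left n N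
  have h1 : a ^ (N / d) = 1 := by
    rw [hab, ← pow_mul, he]
    have : Nat.gcd n N * e * (N / d) = N * e := by
      rw [← hd]
      calc d * e * (N / d) = d * (N / d) * e := by ring
        _ = N * e := by rw [hdN]
    rw [this, pow_mul, pow_card_eq_one', one_pow]
  have h2 : orderOf a ∣ Nat.gcd d (N / d) :=
    Nat.dvd_gcd (orderOf_dvd_of_pow_eq_one ha) (orderOf_dvd_of_pow_eq_one h1)
  rw [h] at h2
  exact orderOf_eq_one_iff.mp (Nat.dvd_one.mp h2)

variable {F : Type*} [Field F] {n : ℕ}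

/-- The entries of the diagonal matrix. -/
def dvec [NeZero n] (a : Fˣ) : Fin n → F := fun i => if i = 0 then (a : F) else 1

theorem dvec_ne [NeZero n] (a : Fˣ) (i : Fin n) : dvec a i ≠ 0 := by
  unfold dvec
  split_ifs
  · exact a.ne_zero
  · exact one_ne_zero

theorem dvec_zero [NeZero n] (a : Fˣ) : dvec a (0 : Fin n) = a := if_pos rfl

theorem dvec_of_ne [NeZero n] (a : Fˣ) {i : Fin n} (h : i ≠ 0) : dvec a i = 1 := if_neg h

/-- The diagonal matrices. -/
noncomputable def dgl (n : ℕ) (F : Type*) [Field F] [NeZero n] : Fˣ →* GL (Fin n) F where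
  toFun a := diagGL (dvec a) (dvec_ne a)
  map_one' := by
    apply Units.ext
    change diagonal (dvec 1) = 1
    rw [← diagonal_one]
    congr 1
    funext i
    unfold dvec
    split_ifs <;> rfl
  map_mul' a b := by
    apply Units.ext
    change diagonal (dvec (a * b)) = diagonal (dvec a) * diagonal (dvec b)
    rw [diagonal_mul_diagonal]
    congr 1
    funext i
    unfold dvec
    split_ifs
    · rfl
    · rw [one_mul]

theorem dgl_coe [NeZero n] (a : Fˣ) : (dgl n F a).1 = diagonal (dvec a) := rfl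

theorem dgl_det [NeZero n] (a : Fˣ) : (dgl n F a).1.det = a := by
  rw [dgl_coe, det_diagonal, Finset.prod_eq_single 0]
  · exact dvec_zero a
  · intro i _ hi
    exact dvec_of_ne a hi
  · intro h
    exact absurd (Finset.mem_univ _) h

theorem dgl_map [NeZero n] (σ : F ≃+* F) (a : Fˣ) :
    (dgl n F a).1.map σ = (dgl n F (Units.map (σ : F →* F) a)).1 := by
  rw [dgl_coe, dgl_coe, diagonal_map (map_zero σ)]
  congr 1
  funext i
  unfold dvec
  split_ifs
  · rfl
  · exact map_one σ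

theorem dgl_inv_map [NeZero n] (σ : F ≃+* F) (a : Fˣ) :
    ((dgl n F a)⁻¹).1.map σ = ((dgl n F (Units.map (σ : F →* F) a))⁻¹).1 := by
  rw [← map_inv, dgl_map, ← map_inv, map_inv (Units.map (σ : F →* F))]

theorem dgl_transpose [NeZero n] (a : Fˣ) : ((dgl n F a).1).transpose = (dgl n F a).1 := by
  rw [dgl_coe, diagonal_transpose]

theorem dgl_inv_transpose [NeZero n] (a : Fˣ) :
    (((dgl n F a)⁻¹).1).transpose = ((dgl n F a)⁻¹).1 := by
  rw [← map_inv, dgl_transpose]

theorem conjSL_one (A : SpecialLinearGroup (Fin n) F) : conjSL 1 A = A := by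
  apply Subtype.ext
  rw [conjSL_coe, inv_one, Units.val_one, one_mul, mul_one]

theorem conjSL_mul (g h : GL (Fin n) F) (A : SpecialLinearGroup (Fin n) F) :
    conjSL (g * h) A = conjSL g (conjSL h A) := by
  apply Subtype.ext
  rw [conjSL_coe, conjSL_coe, conjSL_coe, _root_.mul_inv_rev, Units.val_mul, Units.val_mul]
  noncomm_ring

theorem conjSL_toGL (h A : SpecialLinearGroup (Fin n) F) : conjSL (toGL h) A = h * A * h⁻¹ := by
  apply Subtype.ext
  rw [conjSL_coe, coe_mul, coe_mul, ← map_inv]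
  rfl

theorem map_conjSL [NeZero n] (σ : F ≃+* F) (a : Fˣ) (A : SpecialLinearGroup (Fin n) F) :
    SpecialLinearGroup.map (σ : F →+* F) (conjSL (dgl n F a) A) =
      conjSL (dgl n F (Units.map (σ : F →* F) a)) (SpecialLinearGroup.map (σ : F →+* F) A) := by
  apply Subtype.ext
  rw [← map_coe, conjSL_coe, conjSL_coe, Matrix.map_mul, Matrix.map_mul, dgl_map, dgl_inv_map,
    map_coe]

theorem invT_coe (A : SpecialLinearGroup (Fin n) F) : (invT n F A).1 = ((A⁻¹).1).transpose := rfl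

theorem invT_conjSL [NeZero n] (a : Fˣ) (A : SpecialLinearGroup (Fin n) F) :
    invT n F (conjSL (dgl n F a) A) = conjSL (dgl n F a⁻¹) (invT n F A) := by
  apply Subtype.ext
  rw [invT_coe, ← map_inv, conjSL_coe, conjSL_coe, Matrix.transpose_mul, Matrix.transpose_mul,
    dgl_inv_transpose, dgl_transpose, invT_coe, map_inv, inv_inv, mul_assoc]

theorem conjSL_transvection [NeZero n] (a : Fˣ) {i j : Fin n} (h : i ≠ j) (t : F) :
    conjSL (dgl n F a) (SpecialLinearGroup.transvection h t) =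
      SpecialLinearGroup.transvection h (dvec a i * t * (dvec a j)⁻¹) := by
  apply toGL_injective
  rw [← diagGL_conj (dvec a) (dvec_ne a) h t]
  apply Units.ext
  rfl

/-- The sign twist. -/
def sgn (b : Bool) (x : Fˣ) : Fˣ := if b then x⁻¹ else x

theorem sgn_sgn (b c : Bool) (x : Fˣ) : sgn b (sgn c x) = sgn (xor b c) x := by
  cases b <;> cases c <;> simp [sgn]

theorem sgn_mul (b : Bool) (x y : Fˣ) : sgn b (x * y) = sgn b x * sgn b y := by
  cases b
  · rfl
  · exact mul_inv x y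

theorem sgn_one (b : Bool) : sgn b (1 : Fˣ) = 1 := by
  cases b
  · rfl
  · exact inv_one

theorem sgn_pow (b : Bool) (x : Fˣ) (m : ℕ) : sgn b x ^ m = sgn b (x ^ m) := by
  cases b
  · rfl
  · exact inv_pow x m

theorem map_sgn (σ : F ≃+* F) (b : Bool) (x : Fˣ) :
    Units.map (σ : F →* F) (sgn b x) = sgn b (Units.map (σ : F →* F) x) := by
  cases b
  · rfl
  · exact map_inv _ x

theorem iT_conjSL [NeZero n] (b : Bool) (a : Fˣ) (A : SpecialLinearGroup (Fin n) F) :
    iT b (conjSL (dgl n F a) A) = conjSL (dgl n F (sgn b a)) (iT b A) := by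
  cases b
  · rfl
  · exact invT_conjSL a A

variable {κ : Type*}

/-- Conjugation by the diagonal matrices. -/
noncomputable def innR [NeZero n] (a : κ → Fˣ) :
    (κ × Bool → Matrix (Fin n) (Fin n) F) ≃+* (κ × Bool → Matrix (Fin n) (Fin n) F) where
  toFun z := fun y => (dgl n F (sgn y.2 (a y.1))).1 * z y * ((dgl n F (sgn y.2 (a y.1)))⁻¹).1
  invFun z := fun y => ((dgl n F (sgn y.2 (a y.1)))⁻¹).1 * z y * (dgl n F (sgn y.2 (a y.1))).1
  left_inv z := by
    funext y
    set g := dgl n F (sgn y.2 (a y.1))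
    have h1 : (g⁻¹).1 * g.1 = 1 := Units.inv_mul g
    calc (g⁻¹).1 * (g.1 * z y * (g⁻¹).1) * g.1 = ((g⁻¹).1 * g.1) * z y * ((g⁻¹).1 * g.1) := by
          noncomm_ring
      _ = z y := by rw [h1, one_mul, mul_one]
  right_inv z := by
    funext y
    set g := dgl n F (sgn y.2 (a y.1))
    have h1 : g.1 * (g⁻¹).1 = 1 := Units.mul_inv g
    calc g.1 * ((g⁻¹).1 * z y * g.1) * (g⁻¹).1 = (g.1 * (g⁻¹).1) * z y * (g.1 * (g⁻¹).1) := by
          noncomm_ring
      _ = z y := by rw [h1, one_mul, mul_one]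
  map_mul' z z' := by
    funext y
    set g := dgl n F (sgn y.2 (a y.1))
    have h1 : (g⁻¹).1 * g.1 = 1 := Units.inv_mul g
    calc g.1 * (z y * z' y) * (g⁻¹).1 = g.1 * z y * 1 * z' y * (g⁻¹).1 := by noncomm_ring
      _ = g.1 * z y * ((g⁻¹).1 * g.1) * z' y * (g⁻¹).1 := by rw [h1]
      _ = (g.1 * z y * (g⁻¹).1) * (g.1 * z' y * (g⁻¹).1) := by noncomm_ring
  map_add' z z' := by
    funext y
    set g := dgl n F (sgn y.2 (a y.1))
    change g.1 * (z y + z' y) * (g⁻¹).1 = g.1 * z y * (g⁻¹).1 + g.1 * z' y * (g⁻¹).1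
    noncomm_ring

theorem innR_apply [NeZero n] (a : κ → Fˣ) (z : κ × Bool → Matrix (Fin n) (Fin n) F)
    (y : κ × Bool) : innR a z y =
      (dgl n F (sgn y.2 (a y.1))).1 * z y * ((dgl n F (sgn y.2 (a y.1)))⁻¹).1 := rfl

theorem innR_one [NeZero n] (z : κ × Bool → Matrix (Fin n) (Fin n) F) :
    innR (1 : κ → Fˣ) z = z := by
  funext y
  rw [innR_apply, Pi.one_apply, sgn_one, map_one, inv_one, Units.val_one, one_mul, mul_one]

theorem innR_mul [NeZero n] (a a' : κ → Fˣ) (z : κ × Bool → Matrix (Fin n) (Fin n) F) :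
    innR (a * a') z = innR a (innR a' z) := by
  funext y
  rw [innR_apply, innR_apply, innR_apply, Pi.mul_apply, sgn_mul, map_mul,
    _root_.mul_inv_rev, Units.val_mul, Units.val_mul]
  noncomm_ring

theorem innR_wJ [NeZero n] (a : κ → Fˣ) (z : κ × Bool → Matrix (Fin n) (Fin n) F) :
    innR a (wJ z) = wJ (innR a z) := by
  funext y
  rcases y with ⟨k, b⟩
  change (dgl n F (sgn b (a k))).1 * (z (k, !b)).transpose * ((dgl n F (sgn b (a k)))⁻¹).1 =
    ((dgl n F (sgn (!b) (a k))).1 * z (k, !b) * ((dgl n F (sgn (!b) (a k)))⁻¹).1).transpose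
  have h1 : sgn (!b) (a k) = (sgn b (a k))⁻¹ := by
    cases b
    · rfl
    · exact (inv_inv _).symm
  rw [h1, Matrix.transpose_mul, Matrix.transpose_mul, map_inv, inv_inv, dgl_transpose,
    dgl_inv_transpose, mul_assoc]

theorem innR_wInc [NeZero n] (a : κ → Fˣ) (x : κ → SpecialLinearGroup (Fin n) F) :
    innR a (wInc x) = wInc (fun k => conjSL (dgl n F (a k)) (x k)) := by
  funext y
  rcases y with ⟨k, b⟩
  change _ = (iT b (conjSL (dgl n F (a k)) (x k))).1
  rw [iT_conjSL, conjSL_coe]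
  rfl

/-- The action on the diagonal parts. -/
def wA (π : Equiv.Perm κ) (ε : κ → Bool) (σ : κ → (F ≃+* F)) (a : κ → Fˣ) : κ → Fˣ :=
  fun k => Units.map ((σ (π.symm k) : F ≃+* F) : F →* F) (sgn (ε (π.symm k)) (a (π.symm k)))

theorem wA_apply (π : Equiv.Perm κ) (ε : κ → Bool) (σ : κ → (F ≃+* F)) (a : κ → Fˣ) (k : κ) :
    wA π ε σ a (π k) = Units.map ((σ k : F ≃+* F) : F →* F) (sgn (ε k) (a k)) := by
  unfold wA
  rw [Equiv.symm_apply_apply]

theorem wR_innR [NeZero n] (π : Equiv.Perm κ) (ε : κ → Bool) (σ : κ → (F ≃+* F)) (a : κ → Fˣ)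
    (z : κ × Bool → Matrix (Fin n) (Fin n) F) :
    wR π ε σ (innR a z) = innR (wA π ε σ a) (wR π ε σ z) := by
  funext y
  obtain ⟨⟨k, b⟩, rfl⟩ := (wPerm π ε).surjective y
  rw [wR_apply, innR_apply, innR_apply, wR_apply, Matrix.map_mul, Matrix.map_mul]
  change (dgl n F (sgn b (a k))).1.map (σ k) * (z (k, b)).map (σ k) *
    ((dgl n F (sgn b (a k)))⁻¹).1.map (σ k) =
    (dgl n F (sgn (xor (ε k) b) (wA π ε σ a (π k)))).1 * (z (k, b)).map (σ k) *
    ((dgl n F (sgn (xor (ε k) b) (wA π ε σ a (π k))))⁻¹).1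
  have h1 : sgn (xor (ε k) b) (wA π ε σ a (π k)) = Units.map ((σ k : F ≃+* F) : F →* F)
      (sgn b (a k)) := by
    rw [wA_apply, ← map_sgn, sgn_sgn]
    congr 2
    cases ε k <;> cases b <;> rfl
  rw [h1, dgl_map, dgl_inv_map]

end MP7fG
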