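import Pool.Agent.Lib.MP_7f581e_ntL.Y6
import Pool.Agent.Lib.MP_7f581e_ntH.Fin3

/-!
Split embedding problems with kernel a power of `SU(N, F)` or of `PSU(N, F)`: reduction to the
generic Lang torsor.
-/

set_option autoImplicit false
set_option linter.unusedSectionVars false

universe u

namespace MP7fY

open Matrix MP7fE MP7fU MP7fR MP7fV MP7fW MP7fG

section su

variable {F : Type*} [Field F] {s : F →+* F} {N : ℕ}
  (hσ : ∀ (σ : F ≃+* F) x, σ (s x) = s (σ x))

theorem oneN_map (σ : F ≃+* F) : (1 : Matrix (Fin N) (Fin N) F).map σ = 1 :=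
  MP7fW.map_one' σ

include hσ in
theorem UG_map (σ : F ≃+* F) : ∀ g ∈ UG s (1 : Matrix (Fin N) (Fin N) F),
    glMap σ g ∈ UG s (1 : Matrix (Fin N) (Fin N) F) := by
  intro g hg
  have h1 := conj_mem_UG (one_mem (UG s (1 : Matrix (Fin N) (Fin N) F))) (hσ σ) (oneN_map σ) hg
  rwa [one_mul, inv_one, mul_one] at h1

variable (s N) in
/-- The inclusion. -/
def incW : SG s (1 : Matrix (Fin N) (Fin N) F) →* Matrix (Fin N) (Fin N) F :=
  (Units.coeHom _).comp (SG s (1 : Matrix (Fin N) (Fin N) F)).subtype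

theorem incW_apply (h : SG s (1 : Matrix (Fin N) (Fin N) F)) : incW s N h = h.1.1 := rfl

theorem incW_inj : Function.Injective (incW s N) := fun _ _ h => Subtype.ext (Units.ext h)

/-- The group of semilinear conjugations by unitary matrices. -/
abbrev AW : Subgroup (RingAut (Matrix (Fin N) (Fin N) F)) :=
  AD (UG s (1 : Matrix (Fin N) (Fin N) F)) (UG_map hσ)

theorem hexW (x : AW (s := s) (N := N) hσ) (h : SG s (1 : Matrix (Fin N) (Fin N) F)) :
    ∃ h', incW s N h' = (AW hσ).subtype x (incW s N h) := by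
  obtain ⟨R, g, hg, σ, rfl⟩ := x
  exact ⟨⟨_, conj_mem_SG hg (hσ σ) (oneN_map σ) h.2⟩, rfl⟩

/-- The action on `PSU`. -/
noncomputable abbrev cW : AW (s := s) (N := N) hσ →*
    MulAut (PSG s (1 : Matrix (Fin N) (Fin N) F)) :=
  cQ (incW s N) incW_inj (AW hσ).subtype (hexW hσ)

theorem cW_mk (g : GL (Fin N) F) (hg : g ∈ UG s (1 : Matrix (Fin N) (Fin N) F)) (σ : F ≃+* F)
    (A B : SG s (1 : Matrix (Fin N) (Fin N) F)) (hB : B.1.1 = g.1 * A.1.1.map σ * (g⁻¹).1) :
    cW hσ ⟨cjR g σ, g, hg, σ, rfl⟩ (mk s 1 A) = mk s 1 B :=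
  cQ_mk' _ _ _ _ _ hB

theorem surW (hA : AutP s (1 : Matrix (Fin N) (Fin N) F))
    (φ : PSG s (1 : Matrix (Fin N) (Fin N) F) ≃* PSG s (1 : Matrix (Fin N) (Fin N) F)) :
    ∃ x : AW hσ, ∀ t, φ t = cW hσ x t := by
  obtain ⟨M, hM, σ, hφ⟩ := hA φ
  refine ⟨⟨cjR M σ, M, hM, σ, rfl⟩, ?_⟩
  intro t
  obtain ⟨A, rfl⟩ := mk_surj s 1 t
  obtain ⟨B, hB⟩ := hexW hσ ⟨cjR M σ, M, hM, σ, rfl⟩ A
  rw [cW_mk hσ M hM σ A B hB]
  exact hφ A B hB

theorem fixW (hR : RigP s (1 : Matrix (Fin N) (Fin N) F)) (x : AW (s := s) (N := N) hσ)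
    (hx : ∀ t, cW hσ x t = t) : x = 1 := by
  obtain ⟨R, g, hg, σ, rfl⟩ := x
  obtain ⟨rfl, k, hk⟩ := hR g hg 1 σ (by
    intro A B hB
    rw [← cW_mk hσ g hg σ A B hB, hx, one_mul, inv_one, mul_one])
  apply Subtype.ext
  exact cjR_scalar (k := k) hk

/-- Semilinear conjugations by unitary matrices commute with the conjugate transpose. -/
theorem cjR_ct' {g : GL (Fin N) F} (hg : g ∈ UG s (1 : Matrix (Fin N) (Fin N) F))
    (σ : F ≃+* F) (hσ : ∀ x, σ (s x) = s (σ x)) (b : Matrix (Fin N) (Fin N) F) :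
    cjR g σ ((b.map s)ᵀ) = ((cjR g σ b).map s)ᵀ := by
  cases N with
  | zero => exact Subsingleton.elim _ _
  | succ n => exact cjR_ct hg σ hσ b

end su

section form

variable {F : Type*} [Field F] (s : F →+* F) {N : ℕ} {κ : Type*}

/-- The shape of the ring automorphisms: field automorphisms, permutations of the factors and
conjugations by unitary matrices. -/
def SuForm (R : (κ → Matrix (Fin N) (Fin N) F) ≃+* (κ → Matrix (Fin N) (Fin N) F)) : Prop :=
  ∃ (π : Equiv.Perm κ) (g : κ → GL (Fin N) F) (σ : κ → (F ≃+* F)),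
    (∀ k, g k ∈ UG s (1 : Matrix (Fin N) (Fin N) F)) ∧
      ∀ z k, R z (π k) = (g k).1 * (z k).map (σ k) * ((g k)⁻¹).1

variable {s}

/-- Compatibility with the conjugate transpose. -/
theorem SuForm.ct (hσ : ∀ (σ : F ≃+* F) x, σ (s x) = s (σ x))
    {R : (κ → Matrix (Fin N) (Fin N) F) ≃+* (κ → Matrix (Fin N) (Fin N) F)} (h : SuForm s R)
    (z : κ → Matrix (Fin N) (Fin N) F) :
    R (fun k => ((z k).map s)ᵀ) = fun k => ((R z k).map s)ᵀ := by
  obtain ⟨π, g, σ, hg, h⟩ := h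
  funext i
  obtain ⟨k, rfl⟩ := π.surjective i
  rw [h, h]
  exact cjR_ct' (hg k) (σ k) (hσ (σ k)) (z k)

theorem suForm_of (hσ : ∀ (σ : F ≃+* F) x, σ (s x) = s (σ x))
    {R : RingAut (κ → Matrix (Fin N) (Fin N) F)}
    (h : ∃ (π : Equiv.Perm κ) (x : κ → AW (s := s) (N := N) hσ),
      ∀ b k, R b (π k) = (AW hσ).subtype (x k) (b k)) :
    SuForm s R := by
  obtain ⟨π, x, h⟩ := h
  choose g hg σ hx using fun k => (x k).2
  refine ⟨π, g, σ, hg, ?_⟩
  intro z k
  rw [h]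
  change (x k).1 _ = _
  rw [hx]
  rfl

end form

section solve

/-- The generic Lang torsor hypothesis for one action. -/
def LangSU1 {N : ℕ} {F : Type} [Field F] {κ : Type} (s : F →+* F) (K L : Type u) [Field K]
    [Field L] [Algebra K L] {Q : Type} [Group Q]
    (ρ : Q →* ((κ → Matrix (Fin N) (Fin N) F) ≃+* (κ → Matrix (Fin N) (Fin N) F))) : Prop :=
  ∃ (V : Type) (_ : Group V) (l : V →* (κ → SG s (1 : Matrix (Fin N) (Fin N) F)))
    (act : Q →* MulAut V), Function.Surjective l ∧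
      (∀ q v, (fun k => incW s N (l (act q v) k)) = ρ q (fun k => incW s N (l v k))) ∧
        SolvesOver K L (SemidirectProduct.rightHom : V ⋊[act] Q →* Q)

variable {p m N : ℕ} [Fact p.Prime] {F : Type} [Field F] [CharP F p] [Finite F]

/-- Split embedding problems with kernel a power of `SU(N, F)`: reduction. -/
theorem exists_su_of_lang (hm : 0 < m) (hcard : Nat.card F = p ^ (2 * m)) (h3 : 3 ≤ N)
    (hq : N = 3 → 2 < p ^ m) [IsSimpleGroup (PSG (sF p m F) (1 : Matrix (Fin N) (Fin N) F))]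
    {κ : Type} [Finite κ] {E Q : Type} [Group E] [Group Q] (f : E →* Q) (s : Q →* E)
    (hfs : ∀ q, f (s q) = q)
    (θ : f.ker ≃* (κ → SG (sF p m F) (1 : Matrix (Fin N) (Fin N) F))) :
    ∃ ρ : Q →* ((κ → Matrix (Fin N) (Fin N) F) ≃+* (κ → Matrix (Fin N) (Fin N) F)),
      (∀ q, SuForm (sF p m F) (ρ q)) ∧ ∀ {K L : Type u} [Field K] [Field L] [Algebra K L],
        LangSU1 (sF p m F) K L ρ → SolvesOver K L f := by
  have hA := MP7fH.autP_all (N := N) hm hcard h3 hq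
  have hR := MP7fH.rigP_one (N := N) (F := F) hm hcard h3
  have hperf := MP7fH.perf_one (N := N) (F := F) hm hcard h3
  obtain ⟨a, b, hab⟩ := MP7fH.noncomm_one (N := N) (F := F) hm hcard h3
  have hz := center_eq_bot hab
  have hnt : Nontrivial (SG (sF p m F) (1 : Matrix (Fin N) (Fin N) F)) := by
    obtain ⟨A, rfl⟩ := mk_surj _ _ a
    refine ⟨A, 1, ?_⟩
    rintro rfl
    apply hab
    rw [map_one, one_mul, mul_one]
  let ρ : Q →* RingAut (κ → Matrix (Fin N) (Fin N) F) :=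
    rhoH (surW (s := sF p m F) (sF_comm (p := p) (m := m)) hA) (fixW sF_comm hR) hz f s hperf θ
  refine ⟨ρ, fun q => suForm_of sF_comm
    (rhoH_form (surW (s := sF p m F) (sF_comm (p := p) (m := m)) hA) (fixW sF_comm hR) hz f s hperf θ q), ?_⟩
  intro K L _ _ _ hL
  obtain ⟨V, _, l, act, hl, hact, hs⟩ := hL
  exact solvesOver_of_splitH (surW (s := sF p m F) (sF_comm (p := p) (m := m)) hA)
    (fixW sF_comm hR) hz f s hfs hperf θ l hl act hact hs

/-- Split embedding problems with kernel a power of `PSU(N, F)`: reduction. -/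
theorem exists_psu_of_lang (hm : 0 < m) (hcard : Nat.card F = p ^ (2 * m)) (h3 : 3 ≤ N)
    (hq : N = 3 → 2 < p ^ m) [IsSimpleGroup (PSG (sF p m F) (1 : Matrix (Fin N) (Fin N) F))]
    {κ : Type} [Finite κ] {E Q : Type} [Group E] [Group Q] (f : E →* Q) (s : Q →* E)
    (hfs : ∀ q, f (s q) = q)
    (θ : f.ker ≃* (κ → PSG (sF p m F) (1 : Matrix (Fin N) (Fin N) F))) :
    ∃ ρ : Q →* ((κ → Matrix (Fin N) (Fin N) F) ≃+* (κ → Matrix (Fin N) (Fin N) F)),
      (∀ q, SuForm (sF p m F) (ρ q)) ∧ ∀ {K L : Type u} [Field K] [Field L] [Algebra K L],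
        LangSU1 (sF p m F) K L ρ → SolvesOver K L f := by
  have hA := MP7fH.autP_all (N := N) hm hcard h3 hq
  have hR := MP7fH.rigP_one (N := N) (F := F) hm hcard h3
  obtain ⟨a, b, hab⟩ := MP7fH.noncomm_one (N := N) (F := F) hm hcard h3
  have hz := center_eq_bot hab
  let ρ : Q →* RingAut (κ → Matrix (Fin N) (Fin N) F) :=
    rhoS (surW (s := sF p m F) (sF_comm (p := p) (m := m)) hA) (fixW sF_comm hR) hz f s θ
  refine ⟨ρ, fun q => suForm_of sF_comm
    (rhoS_form (surW (s := sF p m F) (sF_comm (p := p) (m := m)) hA) (fixW sF_comm hR) hz f s θ q), ?_⟩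
  intro K L _ _ _ hL
  obtain ⟨V, _, l, act, hl, hact, hs⟩ := hL
  exact solvesOver_of_splitS (surW (s := sF p m F) (sF_comm (p := p) (m := m)) hA)
    (fixW sF_comm hR) hz f s hfs θ l hl act hact hs

end solve

end MP7fY
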