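import Pool.Agent.Lib.MP_7f581e_ntE.SpecialMv
import Pool.Agent.Lib.MP_7f581e_ntS.PslF
import Pool.Agent.Lib.MP_7f581e_ntL.V10
import Pool.Agent.Lib.MP_7f581e_ntL.W3
import Pool.Agent.Lib.MP_7f581e_ntL.Y6

/-!
Split embedding problems with kernel a power of `SL(2, F)` or of `PSL(2, F)`.
-/

set_option autoImplicit false
set_option linter.unusedSectionVars false

universe u

namespace MP7fY

open Matrix MP7fE MP7fU MP7fR MP7fV MP7fW

section two

variable {F : Type*} [Field F]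

/-- The inclusion of `SL(2,F)`. -/
def inc2 (F : Type*) [Field F] : MP7fS.SL2 F →* Matrix (Fin 2) (Fin 2) F where
  toFun h := h.1
  map_one' := rfl
  map_mul' _ _ := rfl

theorem inc2_inj : Function.Injective (inc2 F) := fun _ _ h => Subtype.ext h

/-- The group of semilinear conjugations. -/
abbrev A2 (F : Type*) [Field F] : Subgroup (RingAut (Matrix (Fin 2) (Fin 2) F)) :=
  AD ⊤ (fun _ _ _ => Subgroup.mem_top _)

theorem hex2 (x : A2 F) (h : MP7fS.SL2 F) :
    ∃ h', inc2 F h' = (A2 F).subtype x (inc2 F h) := by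
  obtain ⟨R, g, hg, σ, rfl⟩ := x
  exact ⟨MP7fS.cj g σ h, rfl⟩

/-- The action on `PSL(2,F)`. -/
noncomputable abbrev c2 (F : Type*) [Field F] : A2 F →* MulAut (MP7fS.PSL2 F) :=
  cQ (inc2 F) inc2_inj (A2 F).subtype hex2

theorem c2_mk (g : GL (Fin 2) F) (σ : F ≃+* F) (A : MP7fS.SL2 F) :
    c2 F ⟨cjR g σ, g, Subgroup.mem_top _, σ, rfl⟩ (MP7fS.mk A) = MP7fS.mk (MP7fS.cj g σ A) :=
  cQ_mk' _ _ _ _ _ rfl

theorem sur2 [Finite F] (φ : MP7fS.PSL2 F ≃* MP7fS.PSL2 F) :
    ∃ x : A2 F, ∀ t, φ t = c2 F x t := by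
  obtain ⟨g, σ, h⟩ := MP7fS.aut_psl2 φ
  refine ⟨⟨cjR g σ, g, Subgroup.mem_top _, σ, rfl⟩, ?_⟩
  intro t
  obtain ⟨A, rfl⟩ := MP7fS.mk_surj t
  rw [h, c2_mk]

theorem fix2 (x : A2 F) (hx : ∀ t, c2 F x t = t) : x = 1 := by
  obtain ⟨R, g, hg, σ, rfl⟩ := x
  obtain ⟨rfl, c, hc⟩ := MP7fS.cj_unique (g := g) (g' := 1) (σ := σ) (σ' := RingEquiv.refl F) (by
    intro A
    rw [MP7fS.cj_refl_one]
    exact (c2_mk g σ A).symm.trans (hx _))
  apply Subtype.ext
  refine cjR_scalar (k := (c : F)) ?_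
  ext i j
  rw [hc]
  rfl

theorem exists_ne_two (hF : 4 ≤ Nat.card F) : ∃ a : F, a ≠ 0 ∧ a ^ 2 ≠ 1 := by
  have : Finite F := (Nat.card_pos_iff.1 (by omega)).2
  obtain ⟨x, hx⟩ : IsCyclic Fˣ := by infer_instance
  refine ⟨x, Units.ne_zero x, fun h ↦ ?_⟩
  grw [Nat.card_eq_card_units_add_one F, ← orderOf_eq_card_of_forall_mem_zpowers hx,
    orderOf_le_of_pow_eq_one zero_lt_two (Units.ext <| by simpa using h)] at hF
  omega

theorem perf2 (hF : 4 ≤ Nat.card F) : commutator (MP7fS.SL2 F) = ⊤ := by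
  obtain ⟨a, ha, ha2⟩ := exists_ne_two hF
  exact Matrix.SL2.commutator_eq_top ha ha2

theorem nontrivial_SL2 : Nontrivial (MP7fS.SL2 F) := by
  refine ⟨MP7fS.u 1, 1, ?_⟩
  intro h
  have h1 := congrArg (fun A : MP7fS.SL2 F => A.1 0 1) h
  simp [MP7fS.u] at h1

/-- Semilinear conjugations commute with the adjugate. -/
theorem cjR_adjugate (g : GL (Fin 2) F) (σ : F ≃+* F) (b : Matrix (Fin 2) (Fin 2) F) :
    cjR g σ b.adjugate = (cjR g σ b).adjugate := MP7fS.rc_adjugate g σ b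

end two

section solve

variable {F : Type} [Field F] [Finite F]

/-- Compatibility with the adjugate. -/
theorem adjInv_comm (p : ℕ) [Fact p.Prime] [Algebra (ZMod p) F] {k : ℕ}
    (R : RingAut (Fin k → Matrix (Fin 2) (Fin 2) F))
    (h : ∃ (π : Equiv.Perm (Fin k)) (x : Fin k → A2 F),
      ∀ b i, R b (π i) = (A2 F).subtype (x i) (b i))
    (b : Fin k → Matrix (Fin 2) (Fin 2) F) :
    R ((adjInv p k F).j b) = (adjInv p k F).j (R b) := by
  obtain ⟨π, x, hR⟩ := h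
  funext i
  obtain ⟨m, rfl⟩ := π.surjective i
  rw [adjInv_j, hR, hR, adjInv_j]
  obtain ⟨g, hg, σ, hx⟩ := (x m).2
  change (x m).1 _ = ((x m).1 (b m)).adjugate
  rw [hx]
  exact cjR_adjugate g σ (b m)

theorem solvesOver_of_sl2_fin {p : ℕ} [Fact p.Prime] [CharP F p]
    (hF : 4 ≤ Nat.card F) {k : ℕ}
    {E Q : Type} [Group E] [Group Q] [Finite Q] (f : E →* Q) (s : Q →* E)
    (hfs : ∀ q, f (s q) = q) (θ : f.ker ≃* (Fin k → MP7fS.SL2 F)) {K : Type u} [Field K]
    [CharP K p] :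
    ∃ r : ℕ, SolvesOver K (FractionRing (MvPolynomial (Fin r) K)) f := by
  let _ : Algebra (ZMod p) F := ZMod.algebra F p
  have := nontrivial_SL2 (F := F)
  have := MP7fS.psl2_simple (F := F) hF
  have hz := MP7fS.psl2_center (F := F) hF
  have hperf := perf2 (F := F) hF
  let ρ : Q →* RingAut (Fin k → Matrix (Fin 2) (Fin 2) F) :=
    rhoH sur2 fix2 hz f s hperf θ
  have hρ : ∀ e b, ρ e ((adjInv p k F).j b) = (adjInv p k F).j (ρ e b) :=
    fun e b => adjInv_comm p (ρ e) (rhoH_form sur2 fix2 hz f s hperf θ e) b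
  obtain ⟨r, hr⟩ := lang_SL2_emb (p := p) (K := K) k ρ hρ
  refine ⟨r, solvesOver_of_splitH sur2 fix2 hz f s hfs hperf θ
    (MP7fS.toSL (p := p) (k := k) (F := F)) MP7fS.toSL_surj _ ?_ hr⟩
  intro e v
  exact coe_uactU (adjInv p k F) ρ hρ e v

theorem solvesOver_of_psl2_fin {p : ℕ} [Fact p.Prime] [CharP F p]
    (hF : 4 ≤ Nat.card F) {k : ℕ}
    {E Q : Type} [Group E] [Group Q] [Finite Q] (f : E →* Q) (s : Q →* E)
    (hfs : ∀ q, f (s q) = q) (θ : f.ker ≃* (Fin k → MP7fS.PSL2 F)) {K : Type u} [Field K]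
    [CharP K p] :
    ∃ r : ℕ, SolvesOver K (FractionRing (MvPolynomial (Fin r) K)) f := by
  let _ : Algebra (ZMod p) F := ZMod.algebra F p
  have := MP7fS.psl2_simple (F := F) hF
  have hz := MP7fS.psl2_center (F := F) hF
  let ρ : Q →* RingAut (Fin k → Matrix (Fin 2) (Fin 2) F) :=
    rhoS sur2 fix2 hz f s θ
  have hρ : ∀ e b, ρ e ((adjInv p k F).j b) = (adjInv p k F).j (ρ e b) :=
    fun e b => adjInv_comm p (ρ e) (rhoS_form sur2 fix2 hz f s θ e) b
  obtain ⟨r, hr⟩ := lang_SL2_emb (p := p) (K := K) k ρ hρ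
  refine ⟨r, solvesOver_of_splitS sur2 fix2 hz f s hfs θ
    (MP7fS.toSL (p := p) (k := k) (F := F)) MP7fS.toSL_surj _ ?_ hr⟩
  intro e v
  exact coe_uactU (adjInv p k F) ρ hρ e v

/-- Change of the index set. -/
noncomputable def reix (κ : Type) [Finite κ] (T : Type) [Group T] :
    (κ → T) ≃* (Fin (Nat.card κ) → T) where
  toEquiv := (Finite.equivFin κ).arrowCongr (Equiv.refl _)
  map_mul' _ _ := rfl

/-- **Split embedding problems with kernel a power of `SL(2, F)`** over rational function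
fields. -/
theorem solvesOver_of_sl2_split {p : ℕ} [Fact p.Prime] [CharP F p]
    (hF : 4 ≤ Nat.card F) {κ : Type} [Finite κ]
    {E Q : Type} [Group E] [Group Q] [Finite Q] (f : E →* Q) (s : Q →* E)
    (hfs : ∀ q, f (s q) = q) (θ : f.ker ≃* (κ → SpecialLinearGroup (Fin 2) F)) {K : Type u}
    [Field K] [CharP K p] :
    ∃ r : ℕ, SolvesOver K (FractionRing (MvPolynomial (Fin r) K)) f :=
  solvesOver_of_sl2_fin hF f s hfs
    (θ.trans (reix κ _))

/-- **Split embedding problems with kernel a power of `SL(2, F)`** over Hilbertian fields. -/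
theorem solves_of_sl2_split {p : ℕ} [Fact p.Prime] [CharP F p]
    (hF : 4 ≤ Nat.card F) {κ : Type} [Finite κ]
    {E Q : Type} [Group E] [Finite E] [Group Q] [Finite Q] (f : E →* Q) (s : Q →* E)
    (hfs : ∀ q, f (s q) = q) (θ : f.ker ≃* (κ → SpecialLinearGroup (Fin 2) F)) {K : Type u}
    [Field K] [CharP K p] (hK : MP7fR.IsHilbertian K) : Solves K f := by
  obtain ⟨r, hr⟩ := solvesOver_of_sl2_split hF f s hfs θ (K := K)
  exact solves_of_mv hK _ _ hr

/-- **Split embedding problems with kernel a power of `PSL(2, F)`** over rational function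
fields. -/
theorem solvesOver_of_psl2_split {p : ℕ} [Fact p.Prime] [CharP F p]
    (hF : 4 ≤ Nat.card F) {κ : Type} [Finite κ]
    {E Q : Type} [Group E] [Group Q] [Finite Q] (f : E →* Q) (s : Q →* E)
    (hfs : ∀ q, f (s q) = q) (θ : f.ker ≃* (κ → ProjectiveSpecialLinearGroup (Fin 2) F))
    {K : Type u} [Field K] [CharP K p] :
    ∃ r : ℕ, SolvesOver K (FractionRing (MvPolynomial (Fin r) K)) f :=
  solvesOver_of_psl2_fin hF f s hfs
    (θ.trans (reix κ _))

/-- **Split embedding problems with kernel a power of `PSL(2, F)`** over Hilbertian fields. -/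
theorem solves_of_psl2_split {p : ℕ} [Fact p.Prime] [CharP F p]
    (hF : 4 ≤ Nat.card F) {κ : Type} [Finite κ]
    {E Q : Type} [Group E] [Finite E] [Group Q] [Finite Q] (f : E →* Q) (s : Q →* E)
    (hfs : ∀ q, f (s q) = q) (θ : f.ker ≃* (κ → ProjectiveSpecialLinearGroup (Fin 2) F))
    {K : Type u} [Field K] [CharP K p] (hK : MP7fR.IsHilbertian K) : Solves K f := by
  obtain ⟨r, hr⟩ := solvesOver_of_psl2_split hF f s hfs θ (K := K)
  exact solves_of_mv hK _ _ hr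

end solve

end MP7fY
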