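import Pool.Agent.Lib.MP_7f581e_ntG.CmplPSL
import Pool.Agent.Lib.MP_7f581e_ntL.V10
import Pool.Agent.Lib.MP_7f581e_ntE.SpecialMv

/-!
Embedding problems with kernel a power of `PSL(n, F)`, `n ≥ 3`, such that `gcd(n, q - 1)` is
coprime to `(q - 1) / gcd(n, q - 1)`.
-/

set_option autoImplicit false
set_option linter.unusedSectionVars false

universe u

namespace MP7fG

open Matrix Matrix.SpecialLinearGroup MulOpposite MP7fU MP7fE MP7fV MP7fS

section

variable {F : Type} [Field F] [Finite F] {m : ℕ} {κ : Type} [Finite κ]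
  {p : ℕ} [Fact p.Prime] [Algebra (ZMod p) F]

/-- The value of an element of the special unitary group. -/
def suVal (u : SU (exDD p m F κ)) : κ × Bool → Matrix (Fin (m + 1)) (Fin (m + 1)) F :=
  ((u : (exInv p (m + 1) F κ).U) : (FM (m + 1) F (κ × Bool))ˣ).1

/-- The isomorphism of the special unitary group of the exchange algebra with the power of the
special linear group. -/
def slV : SU (exDD p m F κ) →* (κ → SpecialLinearGroup (Fin (m + 1)) F) where
  toFun u := fun k => ⟨suVal u (k, false), (mem_SU_exDD p m F κ _).mp u.2 (k, false)⟩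
  map_one' := rfl
  map_mul' _ _ := rfl

theorem slV_apply (u : SU (exDD p m F κ)) (k : κ) :
    (slV u k).1 = suVal u (k, false) := rfl

theorem suVal_eq (u : SU (exDD p m F κ)) : suVal u = wInc (slV u) := by
  funext y
  rcases y with ⟨k, b⟩
  cases b
  · rfl
  · have h1 : (exInv p (m + 1) F κ).j (suVal u) * suVal u = 1 := u.1.2
    have h2 : (suVal u (k, true)).transpose * suVal u (k, false) = 1 := congrFun h1 (k, false)
    have h3 : (suVal u (k, true)).transpose = ((slV u k)⁻¹).1 := by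
      have h4 : (slV u k).1 * ((slV u k)⁻¹).1 = 1 := by
        rw [← coe_mul, mul_inv_cancel, coe_one]
      calc (suVal u (k, true)).transpose =
          (suVal u (k, true)).transpose * ((slV u k).1 * ((slV u k)⁻¹).1) := by rw [h4, mul_one]
        _ = ((slV u k)⁻¹).1 := by rw [← mul_assoc, slV_apply, h2, one_mul]
    change suVal u (k, true) = (((slV u k)⁻¹).1).transpose
    rw [← h3, Matrix.transpose_transpose]

theorem wInc_mul (x y : κ → SpecialLinearGroup (Fin (m + 1)) F) :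
    wInc x * wInc y = wInc (x * y) := by
  funext z
  change (iT z.2 (x z.1)).1 * (iT z.2 (y z.1)).1 = (iT z.2 (x z.1 * y z.1)).1
  rw [map_mul]
  rfl

theorem wInc_one : wInc (1 : κ → SpecialLinearGroup (Fin (m + 1)) F) = 1 := by
  funext z
  change (iT z.2 1).1 = 1
  rw [map_one]
  rfl

theorem wJ_wInc (x : κ → SpecialLinearGroup (Fin (m + 1)) F) : wJ (wInc x) = wInc x⁻¹ := by
  funext z
  rcases z with ⟨k, b⟩
  cases b
  · change ((((x k)⁻¹).1).transpose).transpose = ((x k)⁻¹).1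
    rw [Matrix.transpose_transpose]
  · change ((x k).1).transpose = ((((x k)⁻¹)⁻¹).1).transpose
    rw [inv_inv]

theorem slV_surj (x : κ → SpecialLinearGroup (Fin (m + 1)) F) :
    ∃ u : SU (exDD p m F κ), slV u = x := by
  let w : (FM (m + 1) F (κ × Bool))ˣ := ⟨wInc x, wInc x⁻¹, by
    rw [wInc_mul, mul_inv_cancel, wInc_one], by rw [wInc_mul, inv_mul_cancel, wInc_one]⟩
  have hw : w ∈ (exInv p (m + 1) F κ).U := by
    change wJ (wInc x) * wInc x = 1
    rw [wJ_wInc, wInc_mul, inv_mul_cancel, wInc_one]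
  have hu : (⟨w, hw⟩ : (exInv p (m + 1) F κ).U) ∈ SU (exDD p m F κ) := by
    rw [mem_SU_exDD]
    intro y
    exact (iT y.2 (x y.1)).2
  refine ⟨⟨⟨w, hw⟩, hu⟩, ?_⟩
  funext k
  exact Subtype.ext rfl

/-- The ring automorphisms are compatible with the determinant. -/
theorem compat_R (d : PData (m + 1) F κ) :
    ∃ σ' : (κ × Bool → F) →+* (κ × Bool → F), (exDD p m F κ).Compat
      (d.R : FM (m + 1) F (κ × Bool) →+* FM (m + 1) F (κ × Bool)) σ' := by
  refine compat_exDD p m F κ _ (wPerm d.π d.ε) (fun y => (d.σ y.1 : F →+* F))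
    (fun y => (dgl (m + 1) F (sgn (wPerm d.π d.ε y).2 (d.a (wPerm d.π d.ε y).1))).1)
    (fun y => ((dgl (m + 1) F (sgn (wPerm d.π d.ε y).2 (d.a (wPerm d.π d.ε y).1)))⁻¹).1)
    (fun y => Units.mul_inv _) (fun y => ?_) (fun z y => ?_)
  · set g := dgl (m + 1) F (sgn (wPerm d.π d.ε y).2 (d.a (wPerm d.π d.ε y).1)) with hg
    have h1 : g.1 * Matrix.diagonal (Pi.single 0 1) = Matrix.diagonal (Pi.single 0 1) * g.1 := by
      rw [hg, dgl_coe, Matrix.diagonal_mul_diagonal, Matrix.diagonal_mul_diagonal]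
      congr 1
      funext i
      exact mul_comm _ _
    rw [h1, mul_assoc, Units.mul_inv, mul_one]
  · change d.R z (wPerm d.π d.ε y) = _
    rw [PData.R_apply, innR_apply, wR_apply]
    rfl

end

section

variable {F : Type} [Field F] [Finite F] {m : ℕ} {κ : Type} [Finite κ]
variable {E : Type} [Group E] [Finite E] (N : Subgroup E) [hN : N.Normal]
  (θ : N ≃* (κ → ProjectiveSpecialLinearGroup (Fin (m + 1)) F))

/-- The complement is the quotient. -/
noncomputable def quotP (h3 : 3 ≤ m + 1) (hd : DiagCond (m + 1) (Nat.card Fˣ)) :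
    cmplP N θ ≃* E ⧸ N :=
  MulEquiv.ofBijective ((QuotientGroup.mk' N).comp (Subgroup.subtype _)) ⟨by
    rw [injective_iff_map_eq_one]
    rintro ⟨e, he⟩ h
    have h1 : e ∈ N := (QuotientGroup.eq_one_iff e).mp h
    exact Subtype.ext (cmplP_disj N θ h3 hd h1 he), by
    intro q
    obtain ⟨e, rfl⟩ := QuotientGroup.mk'_surjective N q
    obtain ⟨x, hx⟩ := cmplP_sup N θ h3 hd e
    refine ⟨⟨_, hx⟩, ?_⟩
    change (QuotientGroup.mk' N) (nP N θ x * e) = _
    have h1 : QuotientGroup.mk' N (nP N θ x) = 1 := (QuotientGroup.eq_one_iff _).mpr (nP_mem N θ x)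
    rw [map_mul, h1, one_mul]⟩

theorem quotP_apply (h3 : 3 ≤ m + 1) (hd : DiagCond (m + 1) (Nat.card Fˣ)) (e : cmplP N θ) :
    quotP N θ h3 hd e = QuotientGroup.mk' N e := rfl

/-- The action of the quotient on the exchange algebra. -/
noncomputable def rhoQ (h3 : 3 ≤ m + 1) (hd : DiagCond (m + 1) (Nat.card Fˣ)) :
    E ⧸ N →* (FM (m + 1) F (κ × Bool) ≃+* FM (m + 1) F (κ × Bool)) :=
  (rhoP N θ h3).comp (quotP N θ h3 hd).symm.toMonoidHom

theorem rhoQ_apply (h3 : 3 ≤ m + 1) (hd : DiagCond (m + 1) (Nat.card Fˣ)) (q : E ⧸ N)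
    (z : FM (m + 1) F (κ × Bool)) :
    rhoQ N θ h3 hd q z = (pd N θ ((quotP N θ h3 hd).symm q)).R z := rfl

theorem rhoQ_eq (h3 : 3 ≤ m + 1) (hd : DiagCond (m + 1) (Nat.card Fˣ)) (q : E ⧸ N) :
    (rhoQ N θ h3 hd q : FM (m + 1) F (κ × Bool) →+* FM (m + 1) F (κ × Bool)) =
      ((pd N θ ((quotP N θ h3 hd).symm q)).R :
        FM (m + 1) F (κ × Bool) →+* FM (m + 1) F (κ × Bool)) := rfl

theorem rhoQ_j {p : ℕ} [Fact p.Prime] [Algebra (ZMod p) F] (h3 : 3 ≤ m + 1)
    (hd : DiagCond (m + 1) (Nat.card Fˣ)) (q : E ⧸ N) (z : FM (m + 1) F (κ × Bool)) :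
    rhoQ N θ h3 hd q ((exInv p (m + 1) F κ).j z) =
      (exInv p (m + 1) F κ).j (rhoQ N θ h3 hd q z) :=
  PData.R_wJ _ z

include θ in
/-- Embedding problems with kernel a power of `PSL(n, F)` over rational function fields. -/
theorem solvesOver_of_psl_kernel {p : ℕ} [Fact p.Prime] [CharP F p] (h3 : 3 ≤ m + 1)
    (hd : DiagCond (m + 1) (Nat.card Fˣ)) {K : Type u} [Field K] [CharP K p] :
    ∃ r : ℕ, SolvesOver K (FractionRing (MvPolynomial (Fin r) K)) (QuotientGroup.mk' N) := by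
  let _ : Algebra (ZMod p) F := ZMod.algebra F p
  have hD : ∀ q : E ⧸ N, ∃ σ : (κ × Bool → F) →+* (κ × Bool → F), (exDD p m F κ).Compat
      (rhoQ N θ h3 hd q : FM (m + 1) F (κ × Bool) →+* FM (m + 1) F (κ × Bool)) σ := fun q =>
    compat_R _
  obtain ⟨r, hr⟩ := lang_sl_emb (p := p) (K := K) (rhoQ N θ h3 hd) (rhoQ_j N θ h3 hd) hD
  refine ⟨r, ?_⟩
  have hcomm : ∀ q : E ⧸ N, ((nP N θ).comp (slV (p := p))).comp
      (suact (exDD p m F κ) (rhoQ N θ h3 hd) (rhoQ_j N θ h3 hd) hD q).toMonoidHom =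
      (MulAut.conj (((cmplP N θ).subtype.comp (quotP N θ h3 hd).symm.toMonoidHom) q)).toMonoidHom.comp
        ((nP N θ).comp slV) := by
    intro q
    ext u
    set v := suact (exDD p m F κ) (rhoQ N θ h3 hd) (rhoQ_j N θ h3 hd) hD q u with hv
    set e := (quotP N θ h3 hd).symm q with he
    change nP N θ (slV v) = (e : E) * nP N θ (slV u) * (e : E)⁻¹
    apply nP_psi
    rw [pd_is N θ e (slV u)]
    congr 1
    apply wInc_inj
    rw [← suVal_eq, ← PData.R_wInc, ← suVal_eq]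
    rfl
  refine SolvesOver.of_surjective (SemidirectProduct.lift ((nP N θ).comp (slV (p := p)))
    ((cmplP N θ).subtype.comp (quotP N θ h3 hd).symm.toMonoidHom) hcomm) ?_ ?_ hr
  · intro e
    obtain ⟨x, hx⟩ := cmplP_sup N θ h3 hd e
    obtain ⟨u, hu⟩ := slV_surj (p := p) x⁻¹
    refine ⟨⟨u, quotP N θ h3 hd ⟨_, hx⟩⟩, ?_⟩
    change nP N θ (slV u) * ((quotP N θ h3 hd).symm (quotP N θ h3 hd ⟨_, hx⟩) : E) = e
    rw [MulEquiv.symm_apply_apply, hu, map_inv, inv_mul_cancel_left]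
  · rintro ⟨u, q⟩
    change QuotientGroup.mk' N (nP N θ (slV u) * ((quotP N θ h3 hd).symm q : E)) = q
    have h1 : QuotientGroup.mk' N (nP N θ (slV u)) = 1 :=
      (QuotientGroup.eq_one_iff _).mpr (nP_mem N θ _)
    rw [map_mul, h1, one_mul, ← quotP_apply N θ h3 hd, MulEquiv.apply_symm_apply]

end

/-- **Embedding problems with kernel a power of `PSL(n, F)` over Hilbertian fields.** -/
theorem solves_of_psl_kernel {p : ℕ} [Fact p.Prime] {F : Type} [Field F] [Finite F] [CharP F p]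
    {n : ℕ} (h3 : 3 ≤ n) (hd : DiagCond n (Nat.card Fˣ)) {κ : Type} [Finite κ]
    {E : Type} [Group E] [Finite E] (N : Subgroup E) [N.Normal]
    (θ : N ≃* (κ → Matrix.ProjectiveSpecialLinearGroup (Fin n) F))
    {K : Type u} [Field K] [CharP K p] (hK : MP7fR.IsHilbertian K) :
    Solves K (QuotientGroup.mk' N) := by
  obtain ⟨m, rfl⟩ : ∃ m, n = m + 1 := ⟨n - 1, by omega⟩
  obtain ⟨r, hr⟩ := solvesOver_of_psl_kernel N θ (p := p) h3 hd (K := K)
  exact solves_of_mv hK _ _ hr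

end MP7fG
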