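import Mathlib

/-!
The special linear group is generated by transvections, and it is simple modulo its centre when
the rank is at least three.
-/

set_option autoImplicit false

namespace MP7fG

open Matrix Matrix.SpecialLinearGroup

variable {ι F : Type*} [Field F] [DecidableEq ι] [Fintype ι]

theorem diag2n_decompose {i j : ι} (hij : i ≠ j) (a : F) (ha : a ≠ 0) :
    diag2n hij a ha = SpecialLinearGroup.transvection hij a *
      SpecialLinearGroup.transvection hij.symm (-a⁻¹) *
      SpecialLinearGroup.transvection hij a *
      SpecialLinearGroup.transvection hij (-1) *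
      SpecialLinearGroup.transvection hij.symm 1 *
      SpecialLinearGroup.transvection hij (-1) := by
  apply Subtype.ext
  simp only [coe_mul, transvection_coe, diag2n_coe]
  simp [mul_add, add_mul, single_mul_single_of_ne, hij, hij.symm, ha]
  ext k l
  simp [diagonal_apply, one_apply, single_apply]
  by_cases hk : k = i
  · subst hk
    by_cases hl : k = l
    · subst hl
      simp [hij.symm]
    · by_cases hl2 : j = l
      · subst hl2
        simp [hij, hij.symm]
      · simp [hij.symm, hl, hl2]
  · have hk' : ¬ i = k := fun h => hk h.symm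
    by_cases hk2 : k = j
    · subst hk2
      by_cases hl : k = l
      · subst hl
        simp [hij]
        exact fun h => absurd h hk
      · by_cases hl2 : i = l
        · subst hl2
          simp [hij, hij.symm]
        · simp [hij, hl, hl2]
    · have hk2' : ¬ j = k := fun h => hk2 h.symm
      simp [hk, hk', hk2, hk2']

/-- `SL` is generated by transvections. -/
theorem transvection_induction [Nontrivial ι] (P : SpecialLinearGroup ι F → Prop)
    (htransvec : ∀ (i j : ι) (h : i ≠ j) c, P (SpecialLinearGroup.transvection h c))
    (hmul : ∀ A B, P A → P B → P (A * B)) (A : SpecialLinearGroup ι F) : P A := by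
  refine diagonal_transvection_induction' P _ (fun i j hij c hc ↦ ?_) htransvec hmul
  rw [diag2n_decompose hij c hc]
  refine hmul _ _ (hmul _ _ (hmul _ _ (hmul _ _ (hmul _ _ ?_ ?_) ?_) ?_) ?_) ?_
  all_goals exact htransvec _ _ _ _

open scoped commutatorElement

theorem transvection_commutator {i j k : ι} (hij : i ≠ j) (hjk : j ≠ k) (hik : i ≠ k) (a b : F) :
    SpecialLinearGroup.transvection hij a * SpecialLinearGroup.transvection hjk b =
      SpecialLinearGroup.transvection hik (a * b) * SpecialLinearGroup.transvection hjk b *
        SpecialLinearGroup.transvection hij a := by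
  apply Subtype.ext
  simp only [coe_mul, transvection_coe]
  simp [mul_add, add_mul, single_mul_single_of_ne, hjk.symm, hik.symm]
  abel

theorem transvection_mem_commutator (h3 : 3 ≤ Fintype.card ι) {i j : ι} (hij : i ≠ j) (c : F) :
    SpecialLinearGroup.transvection hij c ∈ commutator (SpecialLinearGroup ι F) := by
  obtain ⟨k, hk⟩ : ∃ k, k ∉ ({i, j} : Finset ι) := by
    by_contra hcon
    push Not at hcon
    have : Fintype.card ι ≤ ({i, j} : Finset ι).card := Finset.card_le_card fun x _ => hcon x
    have h2 := Finset.card_le_two (a := i) (b := j)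
    omega
  simp only [Finset.mem_insert, Finset.mem_singleton, not_or] at hk
  have h := transvection_commutator (fun h => hk.1 h.symm) hk.2 hij c 1
  have h2 : SpecialLinearGroup.transvection hij c =
      ⁅SpecialLinearGroup.transvection (fun h => hk.1 h.symm : i ≠ k) c,
        SpecialLinearGroup.transvection hk.2 (1 : F)⁆ := by
    rw [commutatorElement_def, h, mul_one]
    group
  rw [h2]
  exact Subgroup.commutator_mem_commutator (Subgroup.mem_top _) (Subgroup.mem_top _)

theorem SL_commutator_eq_top (h3 : 3 ≤ Fintype.card ι) :
    commutator (SpecialLinearGroup ι F) = ⊤ := by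
  have : Nontrivial ι := Fintype.one_lt_card_iff_nontrivial.mp (by omega)
  exact le_antisymm le_top (fun A _ ↦ transvection_induction _
    (fun _ _ hij c => transvection_mem_commutator h3 hij c) (fun _ _ ↦ mul_mem) A)

open scoped LinearAlgebra.Projectivization

theorem iSup_lineStab_eq_top [Nontrivial ι] :
    (⨆ p : ℙ F (ι → F), lineStab p.submodule) = (⊤ : Subgroup (SpecialLinearGroup ι F)) := by
  refine le_antisymm le_top fun A _ => transvection_induction _ (fun i j hij c => ?_)
    (fun _ _ => mul_mem) A
  have h1 := SL2Gen.transvection_mem_lineStab (F := F) hij c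
  rw [← Projectivization.submodule_mk (K := F) _ (Pi.single_ne_zero_iff.2 one_ne_zero)] at h1
  exact (le_iSup (fun p : ℙ F (ι → F) => lineStab p.submodule) _) h1

theorem iSup_iwasawaT_eq_top [Nontrivial ι] :
    iSup (PSL.iwasawaT (F := F) (ι := ι)) = ⊤ := by
  have step1 : iSup (PSL.iwasawaT (F := F) (ι := ι)) =
      Subgroup.map (QuotientGroup.mk' (Subgroup.center (Matrix.SpecialLinearGroup ι F)))
        (⨆ p : ℙ F (ι → F),
          Matrix.SpecialLinearGroup.lineStab (F := F) (ι := ι) p.submodule) := by
    rw [Subgroup.map_iSup]
  rw [step1, iSup_lineStab_eq_top]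
  exact Subgroup.map_top_of_surjective _ (QuotientGroup.mk'_surjective _)

open MulAction

/-- The Iwasawa structure on `PSL`. -/
noncomputable abbrev iwasawa [Nontrivial ι] :
    IwasawaStructure (Matrix.ProjectiveSpecialLinearGroup ι F) (ℙ F (ι → F)) where
  T := PSL.iwasawaT
  is_comm p := by
    have hSL : IsMulCommutative (lineStab (F := F) (ι := ι) p.submodule) := by
      rw [← Projectivization.mk_rep p, Projectivization.submodule_mk]
      exact lineStab_isMulCommutative_of_span p.rep p.rep_nonzero
    exact Subgroup.map_isMulCommutative _ _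
  is_conj g p := by
    obtain ⟨g_SL, rfl⟩ := QuotientGroup.mk_surjective g
    rw [Matrix.ProjectiveSpecialLinearGroup.smul_proj_mk]
    change Subgroup.map _ _ = _
    rw [PSL.smul_submodule, Matrix.SpecialLinearGroup.lineStab_smul,
      PSL.iwasawaT_map_conj]
  is_generator := iSup_iwasawaT_eq_top

theorem PSL_simple (h3 : 3 ≤ Fintype.card ι) :
    IsSimpleGroup (Matrix.ProjectiveSpecialLinearGroup ι F) := by
  have : Nontrivial ι := Fintype.one_lt_card_iff_nontrivial.mp (by omega)
  have h1 : Group.IsPerfect (SpecialLinearGroup ι F) := ⟨SL_commutator_eq_top h3⟩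
  have h2 : Group.IsPerfect (Matrix.ProjectiveSpecialLinearGroup ι F) := inferInstance
  exact MulAction.IwasawaStructure.isSimpleGroup h2.commutator_eq_top iwasawa inferInstance

end MP7fG
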