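import Pool.Agent.Lib.MP_7f581e_ntG.RootFrame

/-!
Every automorphism of `PSL(n, F)`, `3 ≤ n`, `F` finite, is induced by the product of a conjugation
by an element of `GL(n, F)`, a field automorphism, and possibly the inverse transpose.
-/

set_option autoImplicit false

namespace MP7fG

open Matrix Matrix.SpecialLinearGroup

variable {F : Type*} [Field F] {n : ℕ}

/-- The projection. -/
def mkP (n : ℕ) (F : Type*) [Field F] :
    SpecialLinearGroup (Fin n) F →* ProjectiveSpecialLinearGroup (Fin n) F :=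
  QuotientGroup.mk' _

theorem mkP_surj : Function.Surjective (mkP n F) := QuotientGroup.mk'_surjective _

theorem mkP_eq_one {A : SpecialLinearGroup (Fin n) F} :
    mkP n F A = 1 ↔ A ∈ Subgroup.center (SpecialLinearGroup (Fin n) F) :=
  QuotientGroup.eq_one_iff A

theorem mkP_eq {A B : SpecialLinearGroup (Fin n) F} (h : mkP n F A = mkP n F B) :
    ∃ c : F, A.1 = c • B.1 := by
  have h1 : A * B⁻¹ ∈ Subgroup.center (SpecialLinearGroup (Fin n) F) := by
    rw [← mkP_eq_one, map_mul, map_inv, h, mul_inv_cancel]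
  obtain ⟨c, -, hc⟩ := mem_center_iff.mp h1
  refine ⟨c, ?_⟩
  have h2 : A = A * B⁻¹ * B := by group
  rw [h2, coe_mul, ← hc, Matrix.scalar_apply, ← Matrix.smul_one_eq_diagonal, Matrix.smul_mul,
    one_mul]

theorem mkP_eq_of_smul [NeZero n] {A B : SpecialLinearGroup (Fin n) F} {c : F}
    (h : A.1 = c • B.1) : mkP n F A = mkP n F B := by
  rw [← mul_inv_eq_one, ← map_inv, ← map_mul, mkP_eq_one, mem_center_iff]
  have h1 := A.2
  rw [h, Matrix.det_smul, B.2, mul_one] at h1
  refine ⟨c, h1, ?_⟩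
  rw [coe_mul, h, Matrix.smul_mul, ← coe_mul, mul_inv_cancel, coe_one, Matrix.scalar_apply,
    Matrix.smul_one_eq_diagonal]

/-- The image of the unitriangular group. -/
def utP (n : ℕ) (F : Type*) [Field F] [Finite F] :
    Subgroup (ProjectiveSpecialLinearGroup (Fin n) F) := (ut n F).map (mkP n F)

theorem exists_conj_utP [Finite F] {p : ℕ} [hp : Fact p.Prime] [CharP F p]
    (α : ProjectiveSpecialLinearGroup (Fin n) F ≃* ProjectiveSpecialLinearGroup (Fin n) F) :
    ∃ g : SpecialLinearGroup (Fin n) F, ∀ A, A ∈ utP n F ↔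
      (mkP n F g)⁻¹ * α A * mkP n F g ∈ utP n F := by
  have : Finite (ProjectiveSpecialLinearGroup (Fin n) F) := Finite.of_surjective _ mkP_surj
  have hP1 : IsPGroup p (utP n F) := (isPGroup_ut (p := p)).map _
  have hP2 : ¬ p ∣ (utP n F).index := by
    intro hd
    exact not_dvd_index_ut (F := F) (n := n) (p := p)
      (hd.trans (Subgroup.index_map_dvd (ut n F) mkP_surj))
  let P : Sylow p (ProjectiveSpecialLinearGroup (Fin n) F) := hP1.toSylow hP2
  have hQ1 : IsPGroup p ((utP n F).map α.toMonoidHom) := hP1.map _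
  have hQ2 : ¬ p ∣ ((utP n F).map α.toMonoidHom).index := by
    have : ((utP n F).map α.toMonoidHom).index = (utP n F).index := by
      rw [Subgroup.index_map_of_bijective]
      exact α.bijective
    rw [this]
    exact hP2
  let Q : Sylow p (ProjectiveSpecialLinearGroup (Fin n) F) := hQ1.toSylow hQ2
  obtain ⟨g', hg⟩ := MulAction.exists_smul_eq (ProjectiveSpecialLinearGroup (Fin n) F) P Q
  obtain ⟨g, rfl⟩ := mkP_surj g'
  refine ⟨g, fun A => ?_⟩
  have h1 : ∀ B, B ∈ (Q : Subgroup (ProjectiveSpecialLinearGroup (Fin n) F)) ↔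
      (mkP n F g)⁻¹ * B * mkP n F g ∈ utP n F := by
    intro B
    rw [← hg, Sylow.coe_subgroup_smul, Subgroup.mem_pointwise_smul_iff_inv_smul_mem]
    rw [← map_inv, MulAut.smul_def, MulAut.conj_apply, inv_inv]
    rfl
  rw [← h1]
  change _ ↔ α A ∈ (utP n F).map α.toMonoidHom
  constructor
  · intro h
    exact ⟨A, h, rfl⟩
  · rintro ⟨B, hB, hBA⟩
    have : B = A := α.injective hBA
    rwa [← this]

theorem ut_center [Finite F] [NeZero n] {A : SpecialLinearGroup (Fin n) F} (hA : A ∈ ut n F)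
    (hc : A ∈ Subgroup.center (SpecialLinearGroup (Fin n) F)) : A = 1 := by
  obtain ⟨c, -, hc⟩ := mem_center_iff.mp hc
  have h1 := mem_ut.mp hA 0 0 le_rfl
  rw [if_pos rfl, ← hc, Matrix.scalar_apply, Matrix.diagonal_apply_eq] at h1
  rw [h1, map_one] at hc
  exact Subtype.ext hc.symm

/-- Every automorphism of `PSL(n, F)` maps the highest root group to a conjugate of itself. -/
theorem exists_conj_rootP [Finite F] [NeZero n] {i0 iL : Fin n} (h0 : ∀ i, i0 ≤ i)
    (hL : ∀ i, i ≤ iL) (hne : i0 ≠ iL)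
    (α : ProjectiveSpecialLinearGroup (Fin n) F ≃* ProjectiveSpecialLinearGroup (Fin n) F) :
    ∃ g : SpecialLinearGroup (Fin n) F, ∀ t, ∃ s,
      α (mkP n F (SpecialLinearGroup.transvection hne t)) =
        mkP n F (g * SpecialLinearGroup.transvection hne s * g⁻¹) := by
  obtain ⟨p, hp⟩ := CharP.exists F
  have hpp : Fact p.Prime := ⟨CharP.char_is_prime F p⟩
  obtain ⟨g, hg⟩ := exists_conj_utP (p := p) α
  refine ⟨g, fun t => ?_⟩
  have h1 : (mkP n F g)⁻¹ * α (mkP n F (SpecialLinearGroup.transvection hne t)) * mkP n F g ∈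
      utP n F := (hg _).mp ⟨_, transvection_mem_ut (lt_of_le_of_ne (h0 _) hne) t, rfl⟩
  obtain ⟨z, hz, hz1⟩ := h1
  have h4 := mem_centre_ut h0 hL hne hz (fun A hA => by
    have h2 : α.symm (mkP n F g * mkP n F A * (mkP n F g)⁻¹) ∈ utP n F := by
      rw [hg, MulEquiv.apply_symm_apply]
      have : (mkP n F g)⁻¹ * (mkP n F g * mkP n F A * (mkP n F g)⁻¹) * mkP n F g = mkP n F A := by
        group
      rw [this]
      exact ⟨A, hA, rfl⟩
    obtain ⟨B, hB, hB1⟩ := h2
    have h3 := congrArg (fun X => α (mkP n F X)) (transvection_centre_ut h0 hL hne t _ hB)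
    simp only [map_mul, hB1, MulEquiv.apply_symm_apply] at h3
    have h5 : mkP n F (A * z) = mkP n F (z * A) := by
      rw [map_mul, map_mul, hz1]
      set a := mkP n F A
      set b := mkP n F g
      set x := α (mkP n F (SpecialLinearGroup.transvection hne t))
      calc a * (b⁻¹ * x * b) = b⁻¹ * ((b * a * b⁻¹) * x) * b := by group
        _ = b⁻¹ * (x * (b * a * b⁻¹)) * b := by rw [h3]
        _ = _ := by group
    have h6 : A * z * (z * A)⁻¹ = 1 := by
      apply ut_center
      · exact mul_mem (mul_mem hA hz) (inv_mem (mul_mem hz hA))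
      · rw [← mkP_eq_one, map_mul, map_inv, h5, mul_inv_cancel]
    exact mul_inv_eq_one.mp h6)
  refine ⟨z.1 i0 iL, ?_⟩
  rw [← h4, map_mul, map_mul, hz1, map_inv]
  group

/-- Every automorphism of `PSL(n, F)` is given by a system of root groups. -/
theorem exists_rootSys [Finite F] (h3 : 3 ≤ n)
    (α : ProjectiveSpecialLinearGroup (Fin n) F ≃* ProjectiveSpecialLinearGroup (Fin n) F) :
    ∃ (R : RootSys n F), ∀ i j (h : i ≠ j) t, ∃ X : SpecialLinearGroup (Fin n) F,
      X.1 = rX (R.v i j) (R.f i j) (R.θ i j t) ∧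
      α (mkP n F (SpecialLinearGroup.transvection h t)) = mkP n F X := by
  have hn0 : 0 < n := by omega
  have : NeZero n := ⟨hn0.ne'⟩
  have hn1 : n - 1 < n := by omega
  have hne : (⟨0, hn0⟩ : Fin n) ≠ ⟨n - 1, hn1⟩ := by
    rw [Ne, Fin.mk.injEq]
    omega
  obtain ⟨g, hg⟩ := exists_conj_rootP (i0 := ⟨0, hn0⟩) (iL := ⟨n - 1, hn1⟩)
    (fun i => by rw [Fin.le_def]; exact Nat.zero_le _)
    (fun i => by rw [Fin.le_def]; have := i.2; simp only; omega) hne α
  choose S hS using hg
  have hkey : ∀ i j : Fin n, i ≠ j → ∃ h : SpecialLinearGroup (Fin n) F, ∀ (hij : i ≠ j) t,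
      α (mkP n F (SpecialLinearGroup.transvection hij t)) =
        mkP n F (h * SpecialLinearGroup.transvection hne (S t) * h⁻¹) := by
    intro i j hij
    obtain ⟨w, hw⟩ := exists_monomial (F := F) h3 hne hij
    obtain ⟨w', hw'⟩ := mkP_surj (α (mkP n F w))
    refine ⟨w' * g, fun _ t => ?_⟩
    have h1 : SpecialLinearGroup.transvection hij t =
        w * SpecialLinearGroup.transvection hne t * w⁻¹ := by
      rw [hw t]
      group
    rw [h1]
    simp only [map_mul, map_inv, hS, hw']
    group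
  choose! H hH using hkey
  have hinv : ∀ i j a b : Fin n, ∑ c, ((H i j)⁻¹).1 a c * (H i j).1 c b = if a = b then 1 else 0 := by
    intro i j a b
    rw [← Matrix.mul_apply, ← coe_mul, inv_mul_cancel, coe_one, Matrix.one_apply]
  obtain ⟨X, hX, hα⟩ : ∃ X : Fin n → Fin n → F → SpecialLinearGroup (Fin n) F,
      (∀ i j t, (X i j t).1 = rX (fun a => (H i j).1 a ⟨0, hn0⟩)
        (fun b => ((H i j)⁻¹).1 ⟨n - 1, hn1⟩ b) (S t)) ∧
      (∀ i j (h : i ≠ j) t, α (mkP n F (SpecialLinearGroup.transvection h t)) =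
        mkP n F (X i j t)) :=
    ⟨fun i j t => H i j * SpecialLinearGroup.transvection hne (S t) * (H i j)⁻¹,
      fun i j t => conj_transvection _ _ _, fun i j h t => hH i j h h t⟩
  refine ⟨RootSys.mk' h3 (fun i j a => (H i j).1 a ⟨0, hn0⟩)
    (fun i j b => ((H i j)⁻¹).1 ⟨n - 1, hn1⟩ b) (fun i j t => S t) ?_ ?_ ?_ ?_ ?_ ?_ ?_,
    fun i j h t => ⟨X i j t, hX i j t, hα i j h t⟩⟩
  · intro i j hij h0
    have h1 := hinv i j ⟨0, hn0⟩ ⟨0, hn0⟩
    rw [if_pos rfl, Finset.sum_eq_zero] at h1
    · exact zero_ne_one h1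
    · intro c _
      have : (H i j).1 c ⟨0, hn0⟩ = 0 := congrFun h0 c
      rw [this, mul_zero]
  · intro i j hij h0
    have h1 := hinv i j ⟨n - 1, hn1⟩ ⟨n - 1, hn1⟩
    rw [if_pos rfl, Finset.sum_eq_zero] at h1
    · exact zero_ne_one h1
    · intro c _
      have : ((H i j)⁻¹).1 ⟨n - 1, hn1⟩ c = 0 := congrFun h0 c
      rw [this, zero_mul]
  · intro i j hij
    have h1 := hinv i j ⟨n - 1, hn1⟩ ⟨0, hn0⟩
    rw [if_neg hne.symm] at h1
    exact h1
  · intro i j hij t ht h0
    have h1 := hα i j hij t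
    have h2 : X i j t = 1 := by
      apply Subtype.ext
      rw [hX, h0, rX, zero_smul, add_zero]
      rfl
    rw [h2, map_one] at h1
    have h3 : mkP n F (SpecialLinearGroup.transvection hij t) = 1 := by
      apply α.injective
      rw [h1, map_one]
    rw [mkP_eq_one, transvection_mem_center_iff] at h3
    exact ht h3
  · intro i j hij s t
    have h1 : mkP n F (X i j (s + t)) = mkP n F (X i j s * X i j t) := by
      rw [← hα i j hij, transvection_add, map_mul, map_mul, map_mul, hα, hα]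
    obtain ⟨c, hc⟩ := mkP_eq h1
    rw [coe_mul, hX, hX, hX] at hc
    exact ⟨c, hc⟩
  · intro i j k l hij hkl hjk hil
    have h1 : SpecialLinearGroup.transvection hij (1 : F) * SpecialLinearGroup.transvection hkl 1 =
        SpecialLinearGroup.transvection hkl 1 * SpecialLinearGroup.transvection hij 1 := by
      apply Subtype.ext
      simp only [coe_mul, transvection_coe]
      simp only [mul_add, add_mul, one_mul, mul_one, single_mul_single_of_ne _ _ _ _ hjk,
        single_mul_single_of_ne _ _ _ _ hil.symm]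
      abel
    have h2 : mkP n F (X i j 1 * X k l 1) = mkP n F (X k l 1 * X i j 1) := by
      rw [map_mul, map_mul, ← hα i j hij, ← hα k l hkl, ← map_mul, ← map_mul, h1, map_mul, map_mul]
    obtain ⟨c, hc⟩ := mkP_eq h2
    rw [coe_mul, coe_mul, hX, hX] at hc
    exact ⟨c, hc⟩
  · intro i j k hij hjk hik s t
    have h2 : mkP n F (X i j s * X j k t) = mkP n F (X i k (s * t) * X j k t * X i j s) := by
      rw [map_mul, map_mul, map_mul, ← hα i j hij, ← hα j k hjk, ← hα i k hik, ← map_mul,
        ← map_mul, transvection_commutator hij hjk hik]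
      simp only [map_mul]
    obtain ⟨c, hc⟩ := mkP_eq h2
    rw [coe_mul, coe_mul, coe_mul, hX, hX, hX] at hc
    exact ⟨c, hc⟩

/-- Conjugation by an element of the general linear group. -/
def conjSL (g : GL (Fin n) F) : SpecialLinearGroup (Fin n) F →* SpecialLinearGroup (Fin n) F where
  toFun A := ⟨g.1 * A.1 * (g⁻¹).1, by
    rw [Matrix.det_mul, Matrix.det_mul, A.2, mul_one, ← Matrix.det_mul, Units.mul_inv,
      Matrix.det_one]⟩
  map_one' := by
    apply Subtype.ext
    change g.1 * 1 * (g⁻¹).1 = 1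
    rw [mul_one, Units.mul_inv]
  map_mul' A B := by
    apply Subtype.ext
    change g.1 * (A.1 * B.1) * (g⁻¹).1 = (g.1 * A.1 * (g⁻¹).1) * (g.1 * B.1 * (g⁻¹).1)
    have : (g⁻¹).1 * g.1 = 1 := Units.inv_mul g
    calc _ = g.1 * A.1 * 1 * B.1 * (g⁻¹).1 := by noncomm_ring
      _ = g.1 * A.1 * ((g⁻¹).1 * g.1) * B.1 * (g⁻¹).1 := by rw [this]
      _ = _ := by noncomm_ring

theorem conjSL_coe (g : GL (Fin n) F) (A : SpecialLinearGroup (Fin n) F) :
    (conjSL g A).1 = g.1 * A.1 * (g⁻¹).1 := rfl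

theorem map_transvection (σ : F ≃+* F) {i j : Fin n} (h : i ≠ j) (t : F) :
    SpecialLinearGroup.map (σ : F →+* F) (SpecialLinearGroup.transvection h t) =
      SpecialLinearGroup.transvection h (σ t) := by
  apply Subtype.ext
  rw [SpecialLinearGroup.map_apply_coe, RingHom.mapMatrix_apply, transvection_coe,
    transvection_coe]
  ext a b
  rw [Matrix.map_apply, Matrix.add_apply, Matrix.add_apply, map_add, Matrix.one_apply,
    Matrix.single_apply, Matrix.single_apply]
  congr 1
  · split_ifs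
    · exact map_one _
    · exact map_zero _
  · split_ifs
    · rfl
    · exact map_zero _

/-- **Automorphisms of `PSL(n, F)`**, `n ≥ 3`, `F` finite. -/
theorem aut_psl [Finite F] (h3 : 3 ≤ n)
    (α : ProjectiveSpecialLinearGroup (Fin n) F ≃* ProjectiveSpecialLinearGroup (Fin n) F) :
    ∃ (g : GL (Fin n) F) (σ : F ≃+* F),
      (∀ A, α (mkP n F A) = mkP n F (conjSL g (SpecialLinearGroup.map (σ : F →+* F) A))) ∨
      (∀ A, α (mkP n F A) =
        mkP n F (conjSL g (SpecialLinearGroup.map (σ : F →+* F) (invT n F A)))) := by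
  have hn0 : 0 < n := by omega
  have : Nontrivial (Fin n) := by
    obtain ⟨m, hm, -⟩ := exists_third h3 (⟨0, hn0⟩ : Fin n) ⟨0, hn0⟩
    exact ⟨⟨_, _, hm⟩⟩
  obtain ⟨R, hR⟩ := exists_rootSys h3 α
  obtain ⟨g, σ, hg | hg⟩ := R.main h3
  · refine ⟨g, σ, Or.inl fun A => ?_⟩
    refine transvection_induction (fun A => α (mkP n F A) =
      mkP n F (conjSL g (SpecialLinearGroup.map (σ : F →+* F) A))) ?_ ?_ A
    · intro i j h t
      obtain ⟨X, hX, hα⟩ := hR i j h t
      rw [hα]
      congr 1
      apply Subtype.ext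
      rw [hX, hg i j h, conjSL_coe, map_transvection]
      rfl
    · intro A B hA hB
      simp only [map_mul, hA, hB]
  · refine ⟨g, σ, Or.inr fun A => ?_⟩
    refine transvection_induction (fun A => α (mkP n F A) =
      mkP n F (conjSL g (SpecialLinearGroup.map (σ : F →+* F) (invT n F A)))) ?_ ?_ A
    · intro i j h t
      obtain ⟨X, hX, hα⟩ := hR i j h t
      rw [hα]
      congr 1
      apply Subtype.ext
      rw [hX, hg i j h, conjSL_coe, invT_transvection, map_transvection, map_neg]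
      rfl
    · intro A B hA hB
      simp only [map_mul, hA, hB]

end MP7fG
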