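import Pool.Agent.Lib.MP_7f581e_ntG.Frame

/-!
Every automorphism of `SL(n, F)`, `3 ≤ n`, `F` finite, is the product of a conjugation by an
element of `GL(n, F)`, a field automorphism, and possibly the inverse transpose.
-/

set_option autoImplicit false

namespace MP7fG

open Matrix Matrix.SpecialLinearGroup

variable {F : Type*} [Field F] {n : ℕ}

theorem conj_single {A B : Matrix (Fin n) (Fin n) F} (hAB : A * B = 1) (i j : Fin n) (s : F) :
    A * (1 + single i j s) * B = 1 + s • vecMulVec (fun a => A a i) (fun b => B j b) := by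
  rw [mul_add, add_mul, mul_one, hAB]
  congr 1
  ext a b
  rw [Matrix.mul_apply, Finset.sum_eq_single j]
  · rw [mul_single_apply_same, Matrix.smul_apply, vecMulVec_apply, smul_eq_mul]
    ring
  · intro c _ hc
    rw [mul_single_apply_of_ne _ _ _ _ _ hc, zero_mul]
  · intro h
    exact absurd (Finset.mem_univ _) h

theorem transvection_inj {i j : Fin n} (h : i ≠ j) {s t : F}
    (he : SpecialLinearGroup.transvection h s = SpecialLinearGroup.transvection h t) : s = t := by
  have h1 := congrFun (congrFun (congrArg Subtype.val he) i) j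
  rwa [transvection_coe, transvection_coe, Matrix.add_apply, Matrix.add_apply,
    Matrix.single_apply_same, Matrix.single_apply_same, add_right_inj] at h1

theorem toGL_transvection {i j : Fin n} (h : i ≠ j) (t : F) :
    (toGL (SpecialLinearGroup.transvection h t) : GL (Fin n) F).1 = 1 + single i j t := rfl

theorem exists_frame {α : SpecialLinearGroup (Fin n) F ≃* SpecialLinearGroup (Fin n) F}
    (R : RootData α) (h3 : 3 ≤ n)
    (hP : ∀ i j k, i ≠ j → i ≠ k → Par (R.v i j) (R.v i k)) :
    ∃ (G : GL (Fin n) F) (τ : Fin n → Fin n → F → F), ∀ i j (h : i ≠ j) t,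
      toGL (α (SpecialLinearGroup.transvection h t)) =
        G * toGL (SpecialLinearGroup.transvection h (τ i j t)) * G⁻¹ := by
  have hs : ∀ i : Fin n, ∃ j, i ≠ j := by
    intro i
    obtain ⟨m, hm, -⟩ := exists_third h3 i i
    exact ⟨m, hm.symm⟩
  choose s hs using hs
  have hv : ∀ i j, i ≠ j → Par (R.v i j) (R.v i (s i)) := fun i j h => hP i j (s i) h (hs i)
  have hf : ∀ i j, i ≠ j → Par (R.f i j) (R.f (s j) j) := by
    intro i j h
    by_cases hi : i = s j
    · rw [← hi]
      exact Par.refl _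
    · exact (R.col_of_row (Ne.symm hi) h (hs j).symm (hP (s j) i j (Ne.symm hi) (hs j).symm)).2
  have hfv0 : ∀ i j, i ≠ j → R.f (s j) j ⬝ᵥ R.v i (s i) = 0 := by
    intro i j h
    exact (hf i j h).symm.dot_left ((hv i j h).symm.dot_right (R.hfv i j h))
  have hfv1 : ∀ j, R.f (s j) j ⬝ᵥ R.v j (s j) ≠ 0 := by
    intro j h0
    obtain ⟨k, hk1, hk2⟩ := exists_third h3 j (s j)
    have h1 := (R.col_of_row (hs j).symm hk1.symm hk2.symm
      (hP (s j) j k (hs j).symm hk2.symm)).1
    exact h1 ((hv j k hk1.symm).dot_right h0)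
  let A : Matrix (Fin n) (Fin n) F := fun a i => R.v i (s i) a
  let B : Matrix (Fin n) (Fin n) F := fun j a =>
    (R.f (s j) j ⬝ᵥ R.v j (s j))⁻¹ * R.f (s j) j a
  have hBA : B * A = 1 := by
    ext j i
    have h1 : (B * A) j i = (R.f (s j) j ⬝ᵥ R.v j (s j))⁻¹ * (R.f (s j) j ⬝ᵥ R.v i (s i)) := by
      have h2 : (R.f (s j) j ⬝ᵥ R.v i (s i)) = ∑ a, R.f (s j) j a * R.v i (s i) a := rfl
      rw [Matrix.mul_apply, h2, Finset.mul_sum]
      apply Finset.sum_congr rfl
      intro a _
      simp only [A, B]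
      ring
    rw [h1, Matrix.one_apply]
    split_ifs with h
    · subst h
      exact inv_mul_cancel₀ (hfv1 _)
    · rw [hfv0 i j (Ne.symm h), mul_zero]
  have hAB : A * B = 1 := mul_eq_one_comm.mp hBA
  have hτ : ∀ i j t, ∃ u : F, ∀ h : i ≠ j,
      (α (SpecialLinearGroup.transvection h t)).1 = A * (1 + single i j u) * B := by
    intro i j t
    by_cases h : i = j
    · exact ⟨0, fun h' => absurd h h'⟩
    · obtain ⟨c, hc, hvc⟩ := hv i j h
      obtain ⟨c', hc', hfc⟩ := hf i j h
      refine ⟨R.θ i j t * c * c' * (R.f (s j) j ⬝ᵥ R.v j (s j)), fun h' => ?_⟩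
      rw [R.hα, conj_single hAB]
      congr 1
      ext a b
      rw [Matrix.smul_apply, Matrix.smul_apply, vecMulVec_apply, vecMulVec_apply, hvc, hfc,
        smul_eq_mul, smul_eq_mul, Pi.smul_apply, Pi.smul_apply, smul_eq_mul, smul_eq_mul]
      simp only [A, B]
      field_simp [hfv1 j]
  choose τ hτ using hτ
  refine ⟨⟨A, B, hAB, hBA⟩, τ, fun i j h t => ?_⟩
  apply Units.ext
  exact hτ i j t h

/-- Scaling the frame. -/
noncomputable def diagGL (d : Fin n → F) (hd : ∀ i, d i ≠ 0) : GL (Fin n) F :=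
  ⟨diagonal d, diagonal fun i => (d i)⁻¹, by
    rw [diagonal_mul_diagonal, ← diagonal_one]
    congr 1
    funext i
    exact mul_inv_cancel₀ (hd i), by
    rw [diagonal_mul_diagonal, ← diagonal_one]
    congr 1
    funext i
    exact inv_mul_cancel₀ (hd i)⟩

theorem diagGL_conj (d : Fin n → F) (hd : ∀ i, d i ≠ 0) {i j : Fin n} (h : i ≠ j) (x : F) :
    diagGL d hd * toGL (SpecialLinearGroup.transvection h x) * (diagGL d hd)⁻¹ =
      toGL (SpecialLinearGroup.transvection h (d i * x * (d j)⁻¹)) := by
  apply Units.ext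
  have h1 := conj_single (A := diagonal d) (B := diagonal fun i => (d i)⁻¹)
    (diagGL d hd).val_inv i j x
  change diagonal d * (1 + single i j x) * diagonal (fun i => (d i)⁻¹) =
    1 + single i j (d i * x * (d j)⁻¹)
  rw [h1]
  congr 1
  ext a b
  rw [Matrix.smul_apply, vecMulVec_apply, Matrix.single_apply, smul_eq_mul, diagonal_apply,
    diagonal_apply]
  by_cases ha : a = i
  · by_cases hb : j = b
    · rw [if_pos ha, if_pos hb, if_pos ⟨ha.symm, hb⟩, ha]
      ring
    · have h2 : ¬ (i = a ∧ j = b) := fun h => hb h.2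
      rw [if_neg hb, if_neg h2]
      ring
  · have h2 : ¬ (i = a ∧ j = b) := fun h => ha h.1.symm
    rw [if_neg ha, if_neg h2]
    ring

/-- Field automorphisms. -/
theorem exists_field [Finite F] {α : SpecialLinearGroup (Fin n) F ≃* SpecialLinearGroup (Fin n) F}
    (h3 : 3 ≤ n) (G : GL (Fin n) F) (τ : Fin n → Fin n → F → F)
    (hG : ∀ i j (h : i ≠ j) t, toGL (α (SpecialLinearGroup.transvection h t)) =
        G * toGL (SpecialLinearGroup.transvection h (τ i j t)) * G⁻¹) :
    ∃ (g : GL (Fin n) F) (σ : F ≃+* F), ∀ A,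
      toGL (α A) = g * toGL (SpecialLinearGroup.map (σ : F →+* F) A) * g⁻¹ := by
  -- the relations
  have hadd : ∀ i j, i ≠ j → ∀ s t, τ i j (s + t) = τ i j s + τ i j t := by
    intro i j h s t
    apply transvection_inj h
    apply toGL_injective
    have h1 := hG i j h (s + t)
    rw [transvection_add, map_mul, map_mul, hG, hG] at h1
    have h2 : G * toGL (SpecialLinearGroup.transvection h (τ i j s)) * G⁻¹ *
        (G * toGL (SpecialLinearGroup.transvection h (τ i j t)) * G⁻¹) =
        G * (toGL (SpecialLinearGroup.transvection h (τ i j s)) *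
          toGL (SpecialLinearGroup.transvection h (τ i j t))) * G⁻¹ := by group
    rw [h2] at h1
    rw [transvection_add, map_mul]
    exact (mul_left_cancel (mul_right_cancel h1)).symm
  have hmul : ∀ i j k, i ≠ j → j ≠ k → i ≠ k → ∀ s t, τ i j s * τ j k t = τ i k (s * t) := by
    intro i j k hij hjk hik s t
    apply transvection_inj hik
    apply toGL_injective
    have h1 := congrArg toGL (congrArg α (transvection_commutator hij hjk hik s t))
    rw [map_mul, map_mul, map_mul, map_mul, map_mul, map_mul, hG, hG, hG] at h1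
    have h2 := congrArg toGL (transvection_commutator hij hjk hik (τ i j s) (τ j k t))
    rw [map_mul, map_mul, map_mul] at h2
    set x := toGL (SpecialLinearGroup.transvection hij (τ i j s))
    set y := toGL (SpecialLinearGroup.transvection hjk (τ j k t))
    set z := toGL (SpecialLinearGroup.transvection hik (τ i k (s * t)))
    set z' := toGL (SpecialLinearGroup.transvection hik (τ i j s * τ j k t))
    have h3 : G * (x * y) * G⁻¹ = G * (z * y * x) * G⁻¹ := by
      calc G * (x * y) * G⁻¹ = G * x * G⁻¹ * (G * y * G⁻¹) := by group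
        _ = G * z * G⁻¹ * (G * y * G⁻¹) * (G * x * G⁻¹) := h1
        _ = _ := by group
    rw [h2] at h3
    exact mul_right_cancel (mul_right_cancel (mul_left_cancel (mul_right_cancel h3)))
  have hne : ∀ i j, i ≠ j → ∀ t, t ≠ 0 → τ i j t ≠ 0 := by
    intro i j h t ht h0
    have h1 := hG i j h t
    rw [h0, transvection_coeff_zero, map_one, mul_one, mul_inv_cancel] at h1
    have h2 : α (SpecialLinearGroup.transvection h t) = 1 := by
      apply toGL_injective
      rw [h1, map_one]
    have h4 : SpecialLinearGroup.transvection h t = SpecialLinearGroup.transvection h 0 := by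
      apply α.injective
      rw [h2, transvection_coeff_zero, map_one]
    exact ht (transvection_inj h h4)
  -- the cocycle
  let c : Fin n → Fin n → F := fun i j => τ i j 1
  have hc0 : ∀ i j, i ≠ j → c i j ≠ 0 := fun i j h => hne i j h 1 one_ne_zero
  have hc1 : ∀ i j k, i ≠ j → j ≠ k → i ≠ k → c i j * c j k = c i k := by
    intro i j k hij hjk hik
    have := hmul i j k hij hjk hik 1 1
    rwa [mul_one] at this
  have hA : ∀ i j k, i ≠ j → i ≠ k → ∀ t, τ i j t / c i j = τ i k t / c i k := by
    intro i j k hij hik t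
    by_cases hjk : j = k
    · rw [hjk]
    · have h1 := hmul i j k hij hjk hik t 1
      rw [mul_one] at h1
      rw [div_eq_div_iff (hc0 i j hij) (hc0 i k hik), ← h1, ← hc1 i j k hij hjk hik]
      change _ = τ i j t * c j k * c i j
      ring
  have hB : ∀ i j k, j ≠ k → i ≠ k → ∀ t, τ j k t / c j k = τ i k t / c i k := by
    intro i j k hjk hik t
    by_cases hij : i = j
    · rw [hij]
    · have h1 := hmul i j k hij hjk hik 1 t
      rw [one_mul] at h1
      rw [div_eq_div_iff (hc0 j k hjk) (hc0 i k hik), ← h1, ← hc1 i j k hij hjk hik]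
      change _ = c i j * τ j k t * c j k
      ring
  have hn0 : 0 < n := by omega
  obtain ⟨j0, hj0, -⟩ := exists_third h3 (⟨0, hn0⟩ : Fin n) ⟨0, hn0⟩
  let σ : F → F := fun t => τ ⟨0, hn0⟩ j0 t / c ⟨0, hn0⟩ j0
  have hσ : ∀ i j, i ≠ j → ∀ t, τ i j t = c i j * σ t := by
    intro i j h t
    obtain ⟨m, hm1, hm2⟩ := exists_third h3 i (⟨0, hn0⟩ : Fin n)
    have h1 : τ i j t / c i j = σ t := by
      rw [hA i j m h hm1.symm t, hB ⟨0, hn0⟩ i m hm1.symm hm2.symm t,
        hA ⟨0, hn0⟩ m j0 hm2.symm hj0.symm t]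
    rw [← h1, mul_div_cancel₀ _ (hc0 i j h)]
  obtain ⟨k0, hk0, hkj0⟩ := exists_third h3 (⟨0, hn0⟩ : Fin n) j0
  let σr : F →+* F :=
    { toFun := σ
      map_one' := div_self (hc0 _ _ hj0.symm)
      map_mul' := by
        intro s t
        have h1 := hmul ⟨0, hn0⟩ j0 k0 hj0.symm hkj0.symm hk0.symm s t
        rw [hσ _ _ hj0.symm, hσ _ _ hkj0.symm, hσ _ _ hk0.symm,
          ← hc1 ⟨0, hn0⟩ j0 k0 hj0.symm hkj0.symm hk0.symm] at h1
        have h2 : c ⟨0, hn0⟩ j0 * c j0 k0 ≠ 0 :=
          mul_ne_zero (hc0 _ _ hj0.symm) (hc0 _ _ hkj0.symm)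
        apply mul_left_cancel₀ h2
        rw [← h1]
        ring
      map_zero' := by
        have h1 := hadd _ _ hj0.symm 0 0
        rw [add_zero] at h1
        have h2 : τ ⟨0, hn0⟩ j0 0 = 0 := by
          have := h1
          rwa [left_eq_add] at this
        change τ ⟨0, hn0⟩ j0 0 / _ = 0
        rw [h2, zero_div]
      map_add' := by
        intro s t
        change τ ⟨0, hn0⟩ j0 (s + t) / _ = τ ⟨0, hn0⟩ j0 s / _ + τ ⟨0, hn0⟩ j0 t / _
        rw [hadd _ _ hj0.symm, add_div] }
  have hbij : Function.Bijective σr := Finite.injective_iff_bijective.mp σr.injective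
  -- scaling
  let d : Fin n → F := fun i => if i = ⟨0, hn0⟩ then 1 else c i ⟨0, hn0⟩
  have hd : ∀ i, d i ≠ 0 := by
    intro i
    by_cases h : i = ⟨0, hn0⟩
    · simp only [d, h, if_true]
      exact one_ne_zero
    · simp only [d, h, if_false]
      exact hc0 _ _ h
  have hcc : ∀ i j, i ≠ j → c i j * c j i = 1 := by
    intro i j h
    obtain ⟨k, hk1, hk2⟩ := exists_third h3 i j
    have h1 := hc1 i j k h hk2.symm hk1.symm
    have h2 := hc1 j i k (Ne.symm h) hk1.symm hk2.symm
    rw [← h2, ← mul_assoc] at h1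
    exact mul_right_cancel₀ (hc0 i k hk1.symm) (h1.trans (one_mul _).symm)
  have hdc : ∀ i j, i ≠ j → c i j = d i * (d j)⁻¹ := by
    intro i j h
    rw [eq_mul_inv_iff_mul_eq₀ (hd j)]
    by_cases hi : i = ⟨0, hn0⟩
    · have hj : ¬ j = ⟨0, hn0⟩ := fun hj => h (hi.trans hj.symm)
      simp only [d, hi, hj, if_true, if_false]
      exact hcc _ _ (fun h' => hj h'.symm)
    · by_cases hj : j = ⟨0, hn0⟩
      · simp only [d, hi, hj, if_true, if_false, mul_one]
      · simp only [d, hi, hj, if_false]
        exact hc1 i j _ h hj hi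
  refine ⟨G * diagGL d hd, RingEquiv.ofBijective σr hbij, fun A => ?_⟩
  have : Nontrivial (Fin n) := ⟨⟨⟨0, hn0⟩, j0, hj0.symm⟩⟩
  refine transvection_induction (fun A => toGL (α A) = G * diagGL d hd *
    toGL (SpecialLinearGroup.map ((RingEquiv.ofBijective σr hbij : F ≃+* F) : F →+* F) A) *
      (G * diagGL d hd)⁻¹) ?_ ?_ A
  · intro i j h t
    have h1 : SpecialLinearGroup.map ((RingEquiv.ofBijective σr hbij : F ≃+* F) : F →+* F)
        (SpecialLinearGroup.transvection h t) = SpecialLinearGroup.transvection h (σ t) := by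
      apply Subtype.ext
      rw [SpecialLinearGroup.map_apply_coe, RingHom.mapMatrix_apply, transvection_coe,
        transvection_coe]
      ext a b
      rw [Matrix.map_apply, Matrix.add_apply, Matrix.add_apply, map_add, Matrix.one_apply,
        Matrix.single_apply, Matrix.single_apply]
      congr 1
      · split_ifs
        · exact map_one _
        · exact map_zero _
      · split_ifs
        · rfl
        · exact map_zero _
    rw [h1, hG]
    have h2 := diagGL_conj d hd h (σ t)
    have h4 : τ i j t = d i * σ t * (d j)⁻¹ := by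
      rw [hσ i j h, hdc i j h]
      ring
    rw [h4, ← h2]
    group
  · intro A B hA hB
    rw [map_mul, map_mul, map_mul, map_mul, hA, hB]
    group

/-- The inverse transpose. -/
def invT (n : ℕ) (F : Type*) [Field F] :
    SpecialLinearGroup (Fin n) F ≃* SpecialLinearGroup (Fin n) F where
  toFun A := (A⁻¹).transpose
  invFun A := (A⁻¹).transpose
  left_inv A := by
    apply inv_injective
    rw [← mul_left_cancel_iff (a := ((A⁻¹).transpose)⁻¹.transpose)]
    rw [mul_inv_cancel]
    apply Subtype.ext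
    have h1 : (((A⁻¹).transpose)⁻¹.transpose * A⁻¹).1 =
      (((A⁻¹).transpose)⁻¹).1.transpose * ((A⁻¹).1) := rfl
    have h2 : ((A⁻¹).1) = ((A⁻¹).transpose.1).transpose := rfl
    rw [h1, h2, ← Matrix.transpose_mul, ← coe_mul, mul_inv_cancel, coe_one, Matrix.transpose_one]
  right_inv A := by
    apply inv_injective
    rw [← mul_left_cancel_iff (a := ((A⁻¹).transpose)⁻¹.transpose)]
    rw [mul_inv_cancel]
    apply Subtype.ext
    have h1 : (((A⁻¹).transpose)⁻¹.transpose * A⁻¹).1 =
      (((A⁻¹).transpose)⁻¹).1.transpose * ((A⁻¹).1) := rfl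
    have h2 : ((A⁻¹).1) = ((A⁻¹).transpose.1).transpose := rfl
    rw [h1, h2, ← Matrix.transpose_mul, ← coe_mul, mul_inv_cancel, coe_one, Matrix.transpose_one]
  map_mul' A B := by
    apply Subtype.ext
    have h1 : ((A⁻¹).transpose * (B⁻¹).transpose).1 = (A⁻¹).1.transpose * (B⁻¹).1.transpose := rfl
    have h2 : (((A * B)⁻¹).transpose).1 = ((A * B)⁻¹).1.transpose := rfl
    rw [h1, h2, _root_.mul_inv_rev, ← Matrix.transpose_mul, coe_mul]

theorem invT_invT (A : SpecialLinearGroup (Fin n) F) : invT n F (invT n F A) = A :=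
  (invT n F).left_inv A

theorem invT_transvection {i j : Fin n} (h : i ≠ j) (t : F) :
    invT n F (SpecialLinearGroup.transvection h t) =
      SpecialLinearGroup.transvection h.symm (-t) := by
  have h1 : invT n F (SpecialLinearGroup.transvection h t) =
    ((SpecialLinearGroup.transvection h t)⁻¹).transpose := rfl
  rw [h1, transvection_inv]
  apply Subtype.ext
  rw [coe_transpose, transvection_coe, transvection_coe, Matrix.transpose_add,
    Matrix.transpose_one, Matrix.transpose_single]

/-- The dual root data. -/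
def RootData.dual {α : SpecialLinearGroup (Fin n) F ≃* SpecialLinearGroup (Fin n) F}
    (R : RootData α) : RootData ((invT n F).trans α) where
  v i j := R.v j i
  f i j := R.f j i
  θ i j t := R.θ j i (-t)
  hv i j h := R.hv j i h.symm
  hf i j h := R.hf j i h.symm
  hfv i j h := R.hfv j i h.symm
  hα i j h t := by
    rw [MulEquiv.trans_apply, invT_transvection, R.hα]

/-- **Automorphisms of `SL(n, F)`**, `n ≥ 3`, `F` finite. -/
theorem aut_sl [Finite F] (h3 : 3 ≤ n)
    (α : SpecialLinearGroup (Fin n) F ≃* SpecialLinearGroup (Fin n) F) :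
    ∃ (g : GL (Fin n) F) (σ : F ≃+* F),
      (∀ A, toGL (α A) = g * toGL (SpecialLinearGroup.map (σ : F →+* F) A) * g⁻¹) ∨
      (∀ A, toGL (α A) = g * toGL (SpecialLinearGroup.map (σ : F →+* F) (invT n F A)) * g⁻¹) := by
  obtain ⟨R⟩ := exists_rootData h3 α
  rcases R.all_alt h3 with hP | hD
  · obtain ⟨G, τ, hG⟩ := exists_frame R h3 hP
    obtain ⟨g, σ, hg⟩ := exists_field h3 G τ hG
    exact ⟨g, σ, Or.inl hg⟩
  · have hP : ∀ i j k, i ≠ j → i ≠ k → Par (R.dual.v i j) (R.dual.v i k) := by
      intro i j k hij hik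
      change Par (R.v j i) (R.v k i)
      by_cases hjk : j = k
      · rw [hjk]
        exact Par.refl _
      · rcases R.pd hjk hik.symm hij.symm with h | h
        · exact absurd (R.not_both hjk hik.symm hij.symm h.2.2.1
            (hD j k i hjk hij.symm)) id
        · exact h.2.2.1.symm
    obtain ⟨G, τ, hG⟩ := exists_frame R.dual h3 hP
    obtain ⟨g, σ, hg⟩ := exists_field h3 G τ hG
    refine ⟨g, σ, Or.inr fun A => ?_⟩
    have h1 := hg (invT n F A)
    rwa [MulEquiv.trans_apply, invT_invT] at h1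

end MP7fG
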