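import Pool.Agent.Lib.MP_7f581e_ntG.Syl

/-!
The centre of the upper unitriangular group is a root group, hence every automorphism of
`SL(n, F)` maps root groups to conjugates of root groups.
-/

set_option autoImplicit false

namespace MP7fG

open Matrix Matrix.SpecialLinearGroup

variable {F : Type*} [Field F] {n : ℕ}

theorem transvection_mem_ut [Finite F] {i j : Fin n} (h : i < j) (t : F) :
    SpecialLinearGroup.transvection h.ne t ∈ ut n F := by
  rw [mem_ut]
  intro a b hab
  have h1 : (SpecialLinearGroup.transvection h.ne t).1 = 1 + single i j t := rfl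
  have h2 : ¬ (i = a ∧ j = b) := by
    rintro ⟨rfl, rfl⟩
    exact absurd h (not_lt.mpr hab)
  rw [h1, Matrix.add_apply, Matrix.one_apply, Matrix.single_apply, if_neg h2, add_zero]

/-- The centre of the unitriangular group. -/
theorem mem_centre_ut [Finite F] {i0 iL : Fin n} (h0 : ∀ i, i0 ≤ i) (hL : ∀ i, i ≤ iL)
    (hne : i0 ≠ iL)
    {z : SpecialLinearGroup (Fin n) F} (hz : z ∈ ut n F) (hc : ∀ A ∈ ut n F, A * z = z * A) :
    z = SpecialLinearGroup.transvection hne (z.1 i0 iL) := by
  have hcomm : ∀ i j : Fin n, i < j → Commute (single i j (1 : F)) z.1 := by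
    intro i j hij
    have h1 := congrArg Subtype.val (hc _ (transvection_mem_ut hij (1 : F)))
    have h2 : (1 + single i j (1 : F)) * z.1 = z.1 * (1 + single i j (1 : F)) := h1
    rw [add_mul, mul_add, one_mul, mul_one] at h2
    exact add_left_cancel h2
  have hcol : ∀ a b : Fin n, b ≠ iL → a ≠ b → z.1 a b = 0 := by
    intro a b hb hab
    exact col_eq_zero_of_commute_single (hcomm b iL (lt_of_le_of_ne (hL b) hb)) hab
  have hrow : ∀ a b : Fin n, a ≠ i0 → a ≠ b → z.1 a b = 0 := by
    intro a b ha hab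
    exact row_eq_zero_of_commute_single (hcomm i0 a (lt_of_le_of_ne (h0 a) (Ne.symm ha)))
      (Ne.symm hab)
  apply Subtype.ext
  have h1 : (SpecialLinearGroup.transvection hne (z.1 i0 iL)).1 =
    1 + single i0 iL (z.1 i0 iL) := rfl
  rw [h1]
  ext a b
  rw [Matrix.add_apply, Matrix.one_apply, Matrix.single_apply]
  by_cases hab : a = b
  · subst hab
    rw [if_pos rfl, mem_ut.mp hz a a le_rfl, if_pos rfl, if_neg, add_zero]
    rintro ⟨h3, h4⟩
    exact hne (h3.trans h4.symm)
  · rw [if_neg hab, zero_add]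
    split_ifs with h3
    · rw [h3.1, h3.2]
    · by_cases hb : b = iL
      · by_cases ha : a = i0
        · exact absurd ⟨ha.symm, hb.symm⟩ h3
        · exact hrow a b ha hab
      · exact hcol a b hb hab

theorem transvection_centre_ut [Finite F] {i0 iL : Fin n} (h0 : ∀ i, i0 ≤ i) (hL : ∀ i, i ≤ iL)
    (hne : i0 ≠ iL) (t : F) (A : SpecialLinearGroup (Fin n) F) (hA : A ∈ ut n F) :
    A * SpecialLinearGroup.transvection hne t = SpecialLinearGroup.transvection hne t * A := by
  apply Subtype.ext
  rw [coe_mul, coe_mul]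
  have h1 : (SpecialLinearGroup.transvection hne t).1 = 1 + single i0 iL t := rfl
  rw [h1, mul_add, add_mul, mul_one, one_mul]
  congr 1
  ext a b
  by_cases ha : a = i0
  · subst ha
    rw [single_mul_apply_same, mem_ut.mp hA iL b (hL b)]
    by_cases hb : b = iL
    · subst hb
      rw [mul_single_apply_same, mem_ut.mp hA a a le_rfl, if_pos rfl, if_pos rfl, one_mul, mul_one]
    · rw [mul_single_apply_of_ne _ _ _ _ _ hb, if_neg (Ne.symm hb), mul_zero]
  · rw [single_mul_apply_of_ne _ _ _ _ _ ha]
    by_cases hb : b = iL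
    · subst hb
      rw [mul_single_apply_same, mem_ut.mp hA a i0 (h0 a), if_neg ha, zero_mul]
    · rw [mul_single_apply_of_ne _ _ _ _ _ hb]

/-- Every automorphism of `SL(n, F)` maps the highest root group to a conjugate of itself. -/
theorem exists_conj_root [Finite F] {i0 iL : Fin n} (h0 : ∀ i, i0 ≤ i) (hL : ∀ i, i ≤ iL)
    (hne : i0 ≠ iL) (α : SpecialLinearGroup (Fin n) F ≃* SpecialLinearGroup (Fin n) F) :
    ∃ g : SpecialLinearGroup (Fin n) F, ∀ t, ∃ s,
      α (SpecialLinearGroup.transvection hne t) =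
        g * SpecialLinearGroup.transvection hne s * g⁻¹ := by
  obtain ⟨p, hp⟩ := CharP.exists F
  have hpp : Fact p.Prime := ⟨CharP.char_is_prime F p⟩
  obtain ⟨g, hg⟩ := exists_conj_ut (p := p) α
  refine ⟨g, fun t => ?_⟩
  have h1 : g⁻¹ * α (SpecialLinearGroup.transvection hne t) * g ∈ ut n F :=
    (hg _).mp (transvection_mem_ut (lt_of_le_of_ne (h0 _) hne) t)
  have h4 := mem_centre_ut h0 hL hne h1 (fun A hA => by
    have h2 : α.symm (g * A * g⁻¹) ∈ ut n F := by
      rw [hg, MulEquiv.apply_symm_apply]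
      have : g⁻¹ * (g * A * g⁻¹) * g = A := by group
      rwa [this]
    have h3 := congrArg α (transvection_centre_ut h0 hL hne t _ h2)
    rw [map_mul α, map_mul α, MulEquiv.apply_symm_apply] at h3
    calc A * (g⁻¹ * α (SpecialLinearGroup.transvection hne t) * g)
        = g⁻¹ * ((g * A * g⁻¹) * α (SpecialLinearGroup.transvection hne t)) * g := by group
      _ = g⁻¹ * (α (SpecialLinearGroup.transvection hne t) * (g * A * g⁻¹)) * g := by rw [h3]
      _ = _ := by group)
  refine ⟨(g⁻¹ * α (SpecialLinearGroup.transvection hne t) * g).1 i0 iL, ?_⟩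
  rw [← h4]
  group

end MP7fG
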