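import Pool.Agent.Lib.MP_7f581e_ntG.Centre

/-!
Root data of an automorphism of `SL(n, F)`.
-/

set_option autoImplicit false

namespace MP7fG

open Matrix Matrix.SpecialLinearGroup

variable {F : Type*} [Field F] {n : ℕ}

theorem exists_third (h3 : 3 ≤ n) (a b : Fin n) : ∃ m : Fin n, m ≠ a ∧ m ≠ b := by
  by_contra hcon
  push Not at hcon
  have : Fintype.card (Fin n) ≤ ({a, b} : Finset (Fin n)).card := by
    apply Finset.card_le_card
    intro x _
    rw [Finset.mem_insert, Finset.mem_singleton]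
    by_cases h : x = a
    · exact Or.inl h
    · exact Or.inr (hcon x h)
  have h2 := Finset.card_le_two (a := a) (b := b)
  rw [Fintype.card_fin] at this
  omega

theorem exists_perm {i0 iL i j : Fin n} (hne : i0 ≠ iL) (hij : i ≠ j) :
    ∃ π : Equiv.Perm (Fin n), π i0 = i ∧ π iL = j := by
  refine ⟨Equiv.swap (Equiv.swap i0 i iL) j * Equiv.swap i0 i, ?_, ?_⟩
  · rw [Equiv.Perm.mul_apply, Equiv.swap_apply_left]
    apply Equiv.swap_apply_of_ne_of_ne _ hij
    intro h
    have h2 : Equiv.swap i0 i i0 = Equiv.swap i0 i iL := by rw [← h, Equiv.swap_apply_left]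
    exact hne ((Equiv.swap i0 i).injective h2)
  · rw [Equiv.Perm.mul_apply, Equiv.swap_apply_left]

theorem exists_monomial (h3 : 3 ≤ n) {i0 iL i j : Fin n} (hne : i0 ≠ iL) (hij : i ≠ j) :
    ∃ w : SpecialLinearGroup (Fin n) F, ∀ t,
      w * SpecialLinearGroup.transvection hne t = SpecialLinearGroup.transvection hij t * w := by
  obtain ⟨m, hm0, hmL⟩ := exists_third h3 i0 iL
  obtain ⟨π, hπ0, hπL⟩ := exists_perm hne hij
  let d : Fin n → F := Function.update 1 m ((Equiv.Perm.sign π : ℤ) : F)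
  let M : Matrix (Fin n) (Fin n) F := fun a b => d b * (if a = π b then 1 else 0)
  have hM : M.det = 1 := by
    have h1 := Matrix.det_mul_row d (fun a b => if a = π b then (1 : F) else 0)
    have h2 : (fun a b => if a = π b then (1 : F) else 0) =
        ((π⁻¹ : Equiv.Perm (Fin n)).permMatrix F) := by
      ext a b
      simp [Equiv.Perm.permMatrix, PEquiv.toMatrix_apply, Equiv.toPEquiv_apply, Equiv.eq_symm_apply,
        eq_comm, Equiv.Perm.inv_def]
    have h3 : M.det = (∏ i, d i) * (Matrix.det (fun a b => if a = π b then (1 : F) else 0)) := h1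
    rw [h3, h2, Matrix.det_permutation]
    have h4 : ∏ i, d i = ((Equiv.Perm.sign π : ℤ) : F) := by
      rw [Finset.prod_eq_single m]
      · simp [d]
      · intro b _ hb
        simp [d, hb]
      · intro h
        exact absurd (Finset.mem_univ _) h
    rw [h4, Equiv.Perm.sign_inv, ← Int.cast_mul, ← Units.val_mul, Int.units_mul_self,
      Units.val_one, Int.cast_one]
  refine ⟨(⟨M, hM⟩ : SpecialLinearGroup (Fin n) F), fun t => ?_⟩
  apply Subtype.ext
  change M * (1 + single i0 iL t) = (1 + single i j t) * M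
  rw [mul_add, add_mul, mul_one, one_mul]
  congr 1
  ext a b
  have hd0 : d i0 = 1 := by simp [d, Ne.symm hm0]
  have hdL : d iL = 1 := by simp [d, Ne.symm hmL]
  by_cases ha : a = i
  · subst ha
    rw [single_mul_apply_same]
    by_cases hb : b = iL
    · subst hb
      rw [mul_single_apply_same]
      simp [M, hπ0, hπL, hd0, hdL]
    · rw [mul_single_apply_of_ne _ _ _ _ _ hb]
      have : j ≠ π b := fun h => hb (π.injective (by rw [hπL, h]))
      simp [M, this]
  · rw [single_mul_apply_of_ne _ _ _ _ _ ha]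
    by_cases hb : b = iL
    · subst hb
      rw [mul_single_apply_same]
      simp [M, hπ0, ha]
    · rw [mul_single_apply_of_ne _ _ _ _ _ hb]

/-- Root data of an automorphism. -/
structure RootData (α : SpecialLinearGroup (Fin n) F ≃* SpecialLinearGroup (Fin n) F) where
  /-- the centre of the image root group -/
  v : Fin n → Fin n → Fin n → F
  /-- the axis of the image root group -/
  f : Fin n → Fin n → Fin n → F
  /-- the parameter -/
  θ : Fin n → Fin n → F → F
  hv : ∀ i j, i ≠ j → v i j ≠ 0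
  hf : ∀ i j, i ≠ j → f i j ≠ 0
  hfv : ∀ i j, i ≠ j → f i j ⬝ᵥ v i j = 0
  hα : ∀ i j (h : i ≠ j) t, (α (SpecialLinearGroup.transvection h t)).1 =
    1 + θ i j t • vecMulVec (v i j) (f i j)

theorem conj_transvection (h : SpecialLinearGroup (Fin n) F) {i j : Fin n} (hij : i ≠ j) (s : F) :
    (h * SpecialLinearGroup.transvection hij s * h⁻¹).1 =
      1 + s • vecMulVec (fun a => h.1 a i) (fun b => (h⁻¹).1 j b) := by
  have h1 : (h * SpecialLinearGroup.transvection hij s * h⁻¹).1 =
    h.1 * (1 + single i j s) * (h⁻¹).1 := rfl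
  have h2 : h.1 * (h⁻¹).1 = 1 := by
    rw [← coe_mul, mul_inv_cancel, coe_one]
  rw [h1, mul_add, add_mul, mul_one, h2]
  congr 1
  ext a b
  rw [Matrix.mul_apply, Finset.sum_eq_single j]
  · rw [mul_single_apply_same, Matrix.smul_apply, vecMulVec_apply, smul_eq_mul]
    ring
  · intro c _ hc
    rw [mul_single_apply_of_ne _ _ _ _ _ hc, zero_mul]
  · intro h
    exact absurd (Finset.mem_univ _) h

theorem exists_rootData [Finite F] (h3 : 3 ≤ n)
    (α : SpecialLinearGroup (Fin n) F ≃* SpecialLinearGroup (Fin n) F) :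
    Nonempty (RootData α) := by
  have hn0 : 0 < n := by omega
  have hn1 : n - 1 < n := by omega
  have hne : (⟨0, hn0⟩ : Fin n) ≠ ⟨n - 1, hn1⟩ := by
    rw [Ne, Fin.mk.injEq]
    omega
  obtain ⟨g, hg⟩ := exists_conj_root (i0 := ⟨0, hn0⟩) (iL := ⟨n - 1, hn1⟩)
    (fun i => by rw [Fin.le_def]; exact Nat.zero_le _)
    (fun i => by rw [Fin.le_def]; have := i.2; simp only; omega) hne α
  choose S hS using hg
  have hkey : ∀ i j : Fin n, i ≠ j → ∃ h : SpecialLinearGroup (Fin n) F, ∀ (hij : i ≠ j) t,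
      α (SpecialLinearGroup.transvection hij t) =
        h * SpecialLinearGroup.transvection hne (S t) * h⁻¹ := by
    intro i j hij
    obtain ⟨w, hw⟩ := exists_monomial (F := F) h3 hne hij
    refine ⟨α w * g, fun _ t => ?_⟩
    have h1 : SpecialLinearGroup.transvection hij t =
        w * SpecialLinearGroup.transvection hne t * w⁻¹ := by
      rw [hw t]
      group
    rw [h1, map_mul, map_mul, hS, map_inv]
    group
  choose! H hH using hkey
  have hinv : ∀ i j a b : Fin n, ∑ c, ((H i j)⁻¹).1 a c * (H i j).1 c b = if a = b then 1 else 0 := by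
    intro i j a b
    rw [← Matrix.mul_apply, ← coe_mul, inv_mul_cancel, coe_one, Matrix.one_apply]
  refine ⟨⟨fun i j a => (H i j).1 a ⟨0, hn0⟩, fun i j b => ((H i j)⁻¹).1 ⟨n - 1, hn1⟩ b,
    fun i j t => S t, ?_, ?_, ?_, ?_⟩⟩
  · intro i j hij h0
    have h1 := hinv i j ⟨0, hn0⟩ ⟨0, hn0⟩
    rw [if_pos rfl, Finset.sum_eq_zero] at h1
    · exact zero_ne_one h1
    · intro c _
      have : (H i j).1 c ⟨0, hn0⟩ = 0 := congrFun h0 c
      rw [this, mul_zero]
  · intro i j hij h0
    have h1 := hinv i j ⟨n - 1, hn1⟩ ⟨n - 1, hn1⟩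
    rw [if_pos rfl, Finset.sum_eq_zero] at h1
    · exact zero_ne_one h1
    · intro c _
      have : ((H i j)⁻¹).1 ⟨n - 1, hn1⟩ c = 0 := congrFun h0 c
      rw [this, zero_mul]
  · intro i j hij
    have h1 := hinv i j ⟨n - 1, hn1⟩ ⟨0, hn0⟩
    rw [if_neg hne.symm] at h1
    exact h1
  · intro i j hij t
    rw [hH i j hij hij t, conj_transvection]

end MP7fG
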