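import Pool.Agent.Lib.MP_7f581e_ntG.Gen
import Pool.Agent.Lib.MP_7f581e_ntG.Root

/-!
The root data of an automorphism of `SL(n, F)` come from a frame or from a dual frame.
-/

set_option autoImplicit false

namespace MP7fG

open Matrix Matrix.SpecialLinearGroup

variable {F : Type*} [Field F] {n : ℕ}

/-- Proportional vectors. -/
def Par (x y : Fin n → F) : Prop := ∃ c : F, c ≠ 0 ∧ x = c • y

theorem Par.refl (x : Fin n → F) : Par x x := ⟨1, one_ne_zero, (one_smul _ _).symm⟩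

theorem Par.symm {x y : Fin n → F} (h : Par x y) : Par y x := by
  obtain ⟨c, hc, rfl⟩ := h
  exact ⟨c⁻¹, inv_ne_zero hc, by rw [smul_smul, inv_mul_cancel₀ hc, one_smul]⟩

theorem Par.trans {x y z : Fin n → F} (h : Par x y) (h' : Par y z) : Par x z := by
  obtain ⟨c, hc, rfl⟩ := h
  obtain ⟨d, hd, rfl⟩ := h'
  exact ⟨c * d, mul_ne_zero hc hd, by rw [smul_smul]⟩

theorem Par.dot_left {x y z : Fin n → F} (h : Par x y) (h0 : y ⬝ᵥ z = 0) : x ⬝ᵥ z = 0 := by
  obtain ⟨c, hc, rfl⟩ := h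
  rw [smul_dotProduct, h0, smul_zero]

theorem Par.dot_right {x y z : Fin n → F} (h : Par x y) (h0 : z ⬝ᵥ y = 0) : z ⬝ᵥ x = 0 := by
  obtain ⟨c, hc, rfl⟩ := h
  rw [dotProduct_smul, h0, smul_zero]

/-- Two proportional rank one matrices have proportional columns and rows. -/
theorem par_of_vecMulVec {v v' f f' : Fin n → F} (hv : v ≠ 0) (hf : f ≠ 0) {a b : F}
    (ha : a ≠ 0) (h : a • vecMulVec v f = b • vecMulVec v' f') : Par v v' ∧ Par f f' := by
  have he : ∀ i j, a * (v i * f j) = b * (v' i * f' j) := by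
    intro i j
    have := congrFun (congrFun h i) j
    rwa [Matrix.smul_apply, Matrix.smul_apply, vecMulVec_apply, vecMulVec_apply, smul_eq_mul,
      smul_eq_mul] at this
  obtain ⟨i0, hi0⟩ : ∃ i, v i ≠ 0 := by
    by_contra hcon
    push Not at hcon
    exact hv (funext hcon)
  obtain ⟨j0, hj0⟩ : ∃ j, f j ≠ 0 := by
    by_contra hcon
    push Not at hcon
    exact hf (funext hcon)
  have h0 : b * (v' i0 * f' j0) ≠ 0 := by
    rw [← he]
    exact mul_ne_zero ha (mul_ne_zero hi0 hj0)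
  have hb : b ≠ 0 := left_ne_zero_of_mul h0
  have hv' : v' i0 ≠ 0 := left_ne_zero_of_mul (right_ne_zero_of_mul h0)
  have hf' : f' j0 ≠ 0 := right_ne_zero_of_mul (right_ne_zero_of_mul h0)
  constructor
  · refine ⟨b * f' j0 / (a * f j0), div_ne_zero (mul_ne_zero hb hf') (mul_ne_zero ha hj0), ?_⟩
    funext i
    rw [Pi.smul_apply, smul_eq_mul, div_mul_eq_mul_div, eq_div_iff (mul_ne_zero ha hj0)]
    linear_combination he i j0
  · refine ⟨b * v' i0 / (a * v i0), div_ne_zero (mul_ne_zero hb hv') (mul_ne_zero ha hi0), ?_⟩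
    funext j
    rw [Pi.smul_apply, smul_eq_mul, div_mul_eq_mul_div, eq_div_iff (mul_ne_zero ha hi0)]
    linear_combination he i0 j

theorem vmv_mul (v f v' f' : Fin n → F) :
    vecMulVec v f * vecMulVec v' f' = (f ⬝ᵥ v') • vecMulVec v f' := by
  ext i j
  rw [Matrix.mul_apply, Matrix.smul_apply, vecMulVec_apply, smul_eq_mul, dotProduct,
    Finset.sum_mul]
  apply Finset.sum_congr rfl
  intro k _
  rw [vecMulVec_apply, vecMulVec_apply]
  ring

theorem vmv_ne_zero {v f : Fin n → F} (hv : v ≠ 0) (hf : f ≠ 0) : vecMulVec v f ≠ 0 := by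
  obtain ⟨i0, hi0⟩ : ∃ i, v i ≠ 0 := by
    by_contra hcon
    push Not at hcon
    exact hv (funext hcon)
  obtain ⟨j0, hj0⟩ : ∃ j, f j ≠ 0 := by
    by_contra hcon
    push Not at hcon
    exact hf (funext hcon)
  intro h
  have := congrFun (congrFun h i0) j0
  rw [vecMulVec_apply] at this
  exact mul_ne_zero hi0 hj0 this

namespace RootData

variable {α : SpecialLinearGroup (Fin n) F ≃* SpecialLinearGroup (Fin n) F} (R : RootData α)

include R

theorem θ_ne {i j : Fin n} (h : i ≠ j) {t : F} (ht : t ≠ 0) : R.θ i j t ≠ 0 := by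
  intro h0
  have h1 := R.hα i j h t
  rw [h0, zero_smul, add_zero] at h1
  have h2 : α (SpecialLinearGroup.transvection h t) = 1 := Subtype.ext h1
  have h3 : SpecialLinearGroup.transvection h t = 1 := by
    apply α.injective
    rw [h2, map_one]
  have h4 : (SpecialLinearGroup.transvection h t).1 i j = (1 : Matrix (Fin n) (Fin n) F) i j := by
    rw [h3]
    rfl
  rw [transvection_coe, Matrix.add_apply, Matrix.one_apply_ne h, Matrix.single_apply_same,
    zero_add] at h4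
  exact ht h4

/-- Commuting root groups. -/
theorem comm {i j k l : Fin n} (hij : i ≠ j) (hkl : k ≠ l) (hjk : j ≠ k) (hil : i ≠ l) :
    R.f i j ⬝ᵥ R.v k l = 0 := by
  by_contra hc
  have h1 : SpecialLinearGroup.transvection hij (1 : F) * SpecialLinearGroup.transvection hkl 1 =
      SpecialLinearGroup.transvection hkl 1 * SpecialLinearGroup.transvection hij 1 := by
    apply Subtype.ext
    simp only [coe_mul, transvection_coe]
    simp only [mul_add, add_mul, one_mul, mul_one, single_mul_single_of_ne _ _ _ _ hjk,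
      single_mul_single_of_ne _ _ _ _ hil.symm]
    abel
  have h2 := congrArg Subtype.val (congrArg α h1)
  rw [map_mul, map_mul, coe_mul, coe_mul, R.hα, R.hα] at h2
  have h3 : (R.θ i j 1 • vecMulVec (R.v i j) (R.f i j)) *
      (R.θ k l 1 • vecMulVec (R.v k l) (R.f k l)) =
      (R.θ k l 1 • vecMulVec (R.v k l) (R.f k l)) *
      (R.θ i j 1 • vecMulVec (R.v i j) (R.f i j)) := by
    set A := R.θ i j 1 • vecMulVec (R.v i j) (R.f i j)
    set B := R.θ k l 1 • vecMulVec (R.v k l) (R.f k l)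
    calc A * B = (1 + A) * (1 + B) - 1 - A - B := by noncomm_ring
      _ = (1 + B) * (1 + A) - 1 - A - B := by rw [h2]
      _ = B * A := by noncomm_ring
  rw [smul_mul_smul_comm, smul_mul_smul_comm, vmv_mul, vmv_mul, smul_smul, smul_smul] at h3
  have h4 := par_of_vecMulVec (R.hv i j hij) (R.hf k l hkl)
    (mul_ne_zero (mul_ne_zero (R.θ_ne hij one_ne_zero) (R.θ_ne hkl one_ne_zero)) hc) h3
  exact hc (h4.1.symm.dot_right (R.hfv i j hij))

/-- The commutator relation. -/
theorem trip {i j k : Fin n} (hij : i ≠ j) (hjk : j ≠ k) (hik : i ≠ k) (s t : F) :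
    (R.θ i j s * R.θ j k t * (R.f i j ⬝ᵥ R.v j k)) • vecMulVec (R.v i j) (R.f j k) -
      (R.θ i j s * R.θ j k t * (R.f j k ⬝ᵥ R.v i j)) • vecMulVec (R.v j k) (R.f i j) =
      R.θ i k (s * t) • vecMulVec (R.v i k) (R.f i k) := by
  have h1 := congrArg Subtype.val (congrArg α (transvection_commutator hij hjk hik s t))
  rw [map_mul, map_mul, map_mul, coe_mul, coe_mul, coe_mul, R.hα, R.hα, R.hα] at h1
  have h2 : (R.θ i k (s * t) • vecMulVec (R.v i k) (R.f i k)) *
      (R.θ j k t • vecMulVec (R.v j k) (R.f j k)) = 0 := by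
    rw [smul_mul_smul_comm, vmv_mul, R.comm hik hjk hjk.symm hik, zero_smul, smul_zero]
  have h3 : (R.θ i k (s * t) • vecMulVec (R.v i k) (R.f i k)) *
      (R.θ i j s • vecMulVec (R.v i j) (R.f i j)) = 0 := by
    rw [smul_mul_smul_comm, vmv_mul, R.comm hik hij hik.symm hij, zero_smul, smul_zero]
  have h4 : (R.θ i j s • vecMulVec (R.v i j) (R.f i j)) *
      (R.θ j k t • vecMulVec (R.v j k) (R.f j k)) =
      (R.θ i j s * R.θ j k t * (R.f i j ⬝ᵥ R.v j k)) • vecMulVec (R.v i j) (R.f j k) := by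
    rw [smul_mul_smul_comm, vmv_mul, smul_smul]
  have h5 : (R.θ j k t • vecMulVec (R.v j k) (R.f j k)) *
      (R.θ i j s • vecMulVec (R.v i j) (R.f i j)) =
      (R.θ i j s * R.θ j k t * (R.f j k ⬝ᵥ R.v i j)) • vecMulVec (R.v j k) (R.f i j) := by
    rw [smul_mul_smul_comm, vmv_mul, smul_smul, mul_comm (R.θ j k t)]
  rw [← h4, ← h5]
  set A := R.θ i j s • vecMulVec (R.v i j) (R.f i j)
  set B := R.θ j k t • vecMulVec (R.v j k) (R.f j k)
  set C := R.θ i k (s * t) • vecMulVec (R.v i k) (R.f i k)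
  calc A * B - B * A = (1 + A) * (1 + B) - 1 - A - B - B * A := by noncomm_ring
    _ = (1 + C) * (1 + B) * (1 + A) - 1 - A - B - B * A := by rw [h1]
    _ = C + C * B + C * A + C * B * A := by noncomm_ring
    _ = C := by rw [h2, h3]; simp

theorem pd {i j k : Fin n} (hij : i ≠ j) (hjk : j ≠ k) (hik : i ≠ k) :
    (R.f i j ⬝ᵥ R.v j k ≠ 0 ∧ R.f j k ⬝ᵥ R.v i j = 0 ∧
      Par (R.v i j) (R.v i k) ∧ Par (R.f j k) (R.f i k)) ∨
    (R.f i j ⬝ᵥ R.v j k = 0 ∧ R.f j k ⬝ᵥ R.v i j ≠ 0 ∧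
      Par (R.v j k) (R.v i k) ∧ Par (R.f i j) (R.f i k)) := by
  have h1 := R.trip hij hjk hik 1 1
  have hθ := mul_ne_zero (R.θ_ne hij one_ne_zero) (R.θ_ne hjk (one_ne_zero (α := F)))
  have hθ3 : R.θ i k (1 * 1) ≠ 0 := R.θ_ne hik (by rw [one_mul]; exact one_ne_zero)
  set a := R.f i j ⬝ᵥ R.v j k with ha
  set b := R.f j k ⬝ᵥ R.v i j with hb
  have hab : a * b = 0 := by
    -- multiply by `vecMulVec (v i j) (f i j)` on the right
    have h2 := congrArg (fun M => M * vecMulVec (R.v i j) (R.f i j)) h1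
    simp only [sub_mul, smul_mul_assoc, vmv_mul, ← hb, R.hfv i j hij,
      R.comm hik hij hik.symm hij, zero_smul, smul_zero, sub_zero, smul_smul] at h2
    by_contra hab
    have h3 : R.θ i j 1 * R.θ j k 1 * a * b ≠ 0 := by
      rw [mul_assoc]
      exact mul_ne_zero hθ hab
    exact (smul_ne_zero h3 (vmv_ne_zero (R.hv i j hij) (R.hf i j hij))) h2
  by_cases ha0 : a = 0
  · right
    by_cases hb0 : b = 0
    · rw [ha0, hb0, mul_zero, zero_smul, zero_smul, sub_zero] at h1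
      exact absurd h1.symm (smul_ne_zero hθ3 (vmv_ne_zero (R.hv i k hik) (R.hf i k hik)))
    · refine ⟨ha0, hb0, ?_⟩
      rw [ha0, mul_zero, zero_smul, zero_sub, ← neg_smul] at h1
      exact par_of_vecMulVec (R.hv j k hjk) (R.hf i j hij) (neg_ne_zero.mpr (mul_ne_zero hθ hb0)) h1
  · left
    have hb0 : b = 0 := (mul_eq_zero.mp hab).resolve_left ha0
    refine ⟨ha0, hb0, ?_⟩
    rw [hb0, mul_zero, zero_smul, sub_zero] at h1
    exact par_of_vecMulVec (R.hv i j hij) (R.hf j k hjk) (mul_ne_zero hθ ha0) h1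

/-- First exclusion. -/
theorem excl1 {i j k : Fin n} (hij : i ≠ j) (hjk : j ≠ k) (hik : i ≠ k)
    (h1 : Par (R.v i j) (R.v i k)) (h2 : Par (R.v j k) (R.v i k)) : False := by
  have h3 : Par (R.v i j) (R.v j k) := h1.trans h2.symm
  have h4 : R.f j k ⬝ᵥ R.v i j = 0 := h3.dot_right (R.hfv j k hjk)
  have h5 : R.f i j ⬝ᵥ R.v j k = 0 := h3.symm.dot_right (R.hfv i j hij)
  rcases R.pd hij hjk hik with h | h
  · exact h.1 h5
  · exact h.2.1 h4

/-- Second exclusion. -/
theorem excl2 {i j k : Fin n} (hij : i ≠ j) (hjk : j ≠ k) (hik : i ≠ k)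
    (h1 : Par (R.f i j) (R.f i k)) (h2 : Par (R.f j k) (R.f i k)) : False := by
  have h3 : Par (R.f i j) (R.f j k) := h1.trans h2.symm
  have h4 : R.f i j ⬝ᵥ R.v j k = 0 := h3.dot_left (R.hfv j k hjk)
  have h5 : R.f j k ⬝ᵥ R.v i j = 0 := h3.symm.dot_left (R.hfv i j hij)
  rcases R.pd hij hjk hik with h | h
  · exact h.1 h4
  · exact h.2.1 h5

/-- Row relation of type `P` implies the column relation of type `P`. -/
theorem col_of_row {i j k : Fin n} (hij : i ≠ j) (hjk : j ≠ k) (hik : i ≠ k)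
    (h1 : Par (R.v i j) (R.v i k)) : R.f i j ⬝ᵥ R.v j k ≠ 0 ∧ Par (R.f j k) (R.f i k) := by
  rcases R.pd hij hjk hik with h | h
  · exact ⟨h.1, h.2.2.2⟩
  · exact absurd (R.excl1 hij hjk hik h1 h.2.2.1) id

theorem row_of_col {i j k : Fin n} (hij : i ≠ j) (hjk : j ≠ k) (hik : i ≠ k)
    (h1 : Par (R.f j k) (R.f i k)) : Par (R.v i j) (R.v i k) := by
  rcases R.pd hij hjk hik with h | h
  · exact h.2.2.1
  · exact absurd (R.excl2 hij hjk hik h.2.2.2 h1) id

theorem not_both {i j k : Fin n} (hij : i ≠ j) (hjk : j ≠ k) (hik : i ≠ k)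
    (h1 : Par (R.v i j) (R.v i k)) (h2 : Par (R.f i j) (R.f i k)) : False :=
  R.excl2 hij hjk hik h2 (R.col_of_row hij hjk hik h1).2

theorem row_or {i j k : Fin n} (hij : i ≠ j) (hik : i ≠ k) :
    Par (R.v i j) (R.v i k) ∨ Par (R.f i j) (R.f i k) := by
  by_cases hjk : j = k
  · subst hjk
    exact Or.inl (Par.refl _)
  · rcases R.pd hij hjk hik with h | h
    · exact Or.inl h.2.2.1
    · exact Or.inr h.2.2.2

theorem row_alt (i : Fin n) :
    (∀ j k, i ≠ j → i ≠ k → Par (R.v i j) (R.v i k)) ∨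
    (∀ j k, i ≠ j → i ≠ k → Par (R.f i j) (R.f i k)) := by
  by_contra hcon
  push Not at hcon
  obtain ⟨⟨j, k, hij, hik, hjk⟩, ⟨j', k', hij', hik', hjk'⟩⟩ := hcon
  have h1 : Par (R.f i j) (R.f i k) := (R.row_or hij hik).resolve_left hjk
  have h2 : ∀ l, i ≠ l → Par (R.f i j) (R.f i l) := by
    intro l hil
    by_contra h3
    have h4 : Par (R.v i j) (R.v i l) := (R.row_or hij hil).resolve_right h3
    rcases R.row_or hil hik with h5 | h5
    · exact hjk (h4.trans h5)
    · exact h3 (h1.trans h5.symm)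
  exact hjk' ((h2 j' hij').symm.trans (h2 k' hik'))

/-- All of type `P` or all of type `D`. -/
theorem all_alt (h3 : 3 ≤ n) :
    (∀ i j k, i ≠ j → i ≠ k → Par (R.v i j) (R.v i k)) ∨
    (∀ i j k, i ≠ j → i ≠ k → Par (R.f i j) (R.f i k)) := by
  have hstep : ∀ i i' : Fin n, (∀ j k, i ≠ j → i ≠ k → Par (R.v i j) (R.v i k)) →
      (∀ j k, i' ≠ j → i' ≠ k → Par (R.v i' j) (R.v i' k)) := by
    intro i i' h
    by_cases hii : i = i'
    · subst hii
      exact h
    · obtain ⟨k, hk1, hk2⟩ := exists_third h3 i i'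
      have h1 : Par (R.f i' k) (R.f i k) :=
        (R.col_of_row hii hk2.symm hk1.symm (h i' k hii hk1.symm)).2
      have h2 : Par (R.v i' i) (R.v i' k) :=
        R.row_of_col (Ne.symm hii) hk1.symm hk2.symm h1.symm
      rcases R.row_alt i' with h4 | h4
      · exact h4
      · exact absurd (R.not_both (Ne.symm hii) hk1.symm hk2.symm h2
          (h4 i k (Ne.symm hii) hk2.symm)) id
  rcases R.row_alt ⟨0, by omega⟩ with h | h
  · left
    intro i
    exact hstep _ i h
  · right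
    intro i
    rcases R.row_alt i with h' | h'
    · have h5 := hstep i ⟨0, by omega⟩ h'
      obtain ⟨j, hj, -⟩ := exists_third h3 ⟨0, by omega⟩ ⟨0, by omega⟩
      obtain ⟨k, hk, hkj⟩ := exists_third h3 ⟨0, by omega⟩ j
      exact absurd (R.not_both hj.symm hkj.symm hk.symm (h5 j k hj.symm hk.symm)
        (h j k hj.symm hk.symm)) id
    · exact h'

end RootData

end MP7fG
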