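import Pool.Agent.Lib.MP_7f581e_ntG.AutSL
import Pool.Agent.Lib.MP_7f581e_nt.AutPow

/-!
`SL(n, F)` is simple with trivial centre if `n` is coprime to `|F| - 1`; automorphisms of its
powers; the projection from the general linear group.
-/

set_option autoImplicit false

namespace MP7fG

open Matrix Matrix.SpecialLinearGroup

variable {F : Type*} [Field F] {n : ℕ}

theorem scalar_eq_one [Finite F] (hcop : (Nat.card F - 1).Coprime n) {r : F} (h0 : n ≠ 0)
    (h : r ^ n = 1) : r = 1 := by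
  have := Fintype.ofFinite F
  have hr : r ≠ 0 := by
    rintro rfl
    rw [zero_pow h0] at h
    exact zero_ne_one h
  have h1 : r ^ (Nat.card F - 1) = 1 := by
    rw [Nat.card_eq_fintype_card]
    exact FiniteField.pow_card_sub_one_eq_one r hr
  have h2 : orderOf r ∣ Nat.gcd (Nat.card F - 1) n :=
    Nat.dvd_gcd (orderOf_dvd_of_pow_eq_one h1) (orderOf_dvd_of_pow_eq_one h)
  rw [hcop] at h2
  exact orderOf_eq_one_iff.mp (Nat.dvd_one.mp h2)

theorem center_sl [Finite F] (hcop : (Nat.card F - 1).Coprime n) (h0 : n ≠ 0) :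
    Subgroup.center (SpecialLinearGroup (Fin n) F) = ⊥ := by
  rw [eq_bot_iff]
  intro A hA
  obtain ⟨r, hr, hA⟩ := mem_center_iff.mp hA
  rw [Fintype.card_fin] at hr
  rw [scalar_eq_one hcop h0 hr, map_one] at hA
  exact Subgroup.mem_bot.mpr (Subtype.ext hA.symm)

theorem isSimple_sl [Finite F] (hcop : (Nat.card F - 1).Coprime n) (h3 : 3 ≤ n) :
    IsSimpleGroup (SpecialLinearGroup (Fin n) F) := by
  have h1 : IsSimpleGroup (ProjectiveSpecialLinearGroup (Fin n) F) :=
    PSL_simple (by rw [Fintype.card_fin]; exact h3)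
  have h2 : Function.Bijective
      (QuotientGroup.mk' (Subgroup.center (SpecialLinearGroup (Fin n) F))) := by
    refine ⟨?_, QuotientGroup.mk'_surjective _⟩
    rw [← MonoidHom.ker_eq_bot_iff, QuotientGroup.ker_mk', center_sl hcop (by omega)]
  exact (MulEquiv.ofBijective _ h2).isSimpleGroup

/-- Every automorphism of a power of `SL(n, F)`. -/
theorem aut_sl_pow [Finite F] (hcop : (Nat.card F - 1).Coprime n) (h3 : 3 ≤ n)
    {κ : Type*} [Finite κ]
    (ψ : (κ → SpecialLinearGroup (Fin n) F) ≃* (κ → SpecialLinearGroup (Fin n) F)) :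
    ∃ (π : Equiv.Perm κ) (g : κ → GL (Fin n) F) (σ : κ → (F ≃+* F)) (ε : κ → Bool),
      ∀ x j, toGL (ψ x (π j)) = g j * toGL (SpecialLinearGroup.map (σ j : F →+* F)
        (if ε j then invT n F (x j) else x j)) * (g j)⁻¹ := by
  classical
  have hs := isSimple_sl hcop h3
  obtain ⟨π, φ, h⟩ := Pool.Agent.Lib.MP_7f581e_nt.AutAlt.aut_pi (center_sl hcop (by omega)) ψ
  have h1 : ∀ j, ∃ (g : GL (Fin n) F) (σ : F ≃+* F) (ε : Bool), ∀ A,
      toGL (φ j A) = g * toGL (SpecialLinearGroup.map (σ : F →+* F)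
        (if ε then invT n F A else A)) * g⁻¹ := by
    intro j
    obtain ⟨g, σ, h2 | h2⟩ := aut_sl h3 (φ j)
    · exact ⟨g, σ, false, h2⟩
    · exact ⟨g, σ, true, h2⟩
  choose g σ ε h2 using h1
  exact ⟨π, g, σ, ε, fun x j => by rw [h, h2]⟩

/-- The `n`-th root. -/
noncomputable def rootHom [Finite F] (hcop : (Nat.card F - 1).Coprime n) : Fˣ ≃* Fˣ :=
  (MulEquiv.ofBijective (powMonoidHom n : Fˣ →* Fˣ) (by
    have h1 : (Nat.card Fˣ).Coprime n := by
      rwa [Nat.card_units]
    exact (powCoprime h1).bijective)).symm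

theorem rootHom_pow [Finite F] (hcop : (Nat.card F - 1).Coprime n) (x : Fˣ) :
    (rootHom hcop x) ^ n = x :=
  (MulEquiv.ofBijective (powMonoidHom n : Fˣ →* Fˣ) _).apply_symm_apply x

theorem root_unique [Finite F] (hcop : (Nat.card F - 1).Coprime n) {x y : Fˣ}
    (h : y ^ n = x) : rootHom hcop x = y := by
  have h1 : (Nat.card Fˣ).Coprime n := by
    rwa [Nat.card_units]
  apply (powCoprime h1).injective
  change (rootHom hcop x) ^ n = y ^ n
  rw [rootHom_pow, h]

theorem rootHom_map [Finite F] (hcop : (Nat.card F - 1).Coprime n) (σ : F ≃+* F) (x : Fˣ) :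
    rootHom hcop (Units.map (σ : F →* F) x) = Units.map (σ : F →* F) (rootHom hcop x) := by
  apply root_unique
  rw [← map_pow, rootHom_pow]

/-- The projection of the general linear group to the special linear group. -/
noncomputable def slOf [Finite F] (hcop : (Nat.card F - 1).Coprime n) :
    GL (Fin n) F →* SpecialLinearGroup (Fin n) F where
  toFun g := ⟨((rootHom hcop (Matrix.GeneralLinearGroup.det g))⁻¹ : Fˣ).1 • g.1, by
    have h1 : (Matrix.GeneralLinearGroup.det g).1 = g.1.det := rfl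
    rw [Matrix.det_smul, Fintype.card_fin, ← Units.val_pow_eq_pow_val, inv_pow, rootHom_pow, ← h1,
      Units.inv_mul]⟩
  map_one' := by
    apply Subtype.ext
    change ((rootHom hcop (Matrix.GeneralLinearGroup.det (1 : GL (Fin n) F)))⁻¹ : Fˣ).1 •
      (1 : Matrix (Fin n) (Fin n) F) = 1
    rw [map_one, map_one, inv_one, Units.val_one, one_smul]
  map_mul' g h := by
    apply Subtype.ext
    change ((rootHom hcop (Matrix.GeneralLinearGroup.det (g * h)))⁻¹ : Fˣ).1 • (g.1 * h.1) =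
      (((rootHom hcop (Matrix.GeneralLinearGroup.det g))⁻¹ : Fˣ).1 • g.1) *
      (((rootHom hcop (Matrix.GeneralLinearGroup.det h))⁻¹ : Fˣ).1 • h.1)
    rw [map_mul, map_mul, mul_inv, Units.val_mul, smul_mul_smul_comm]

theorem slOf_coe [Finite F] (hcop : (Nat.card F - 1).Coprime n) (g : GL (Fin n) F) :
    (slOf hcop g).1 = ((rootHom hcop (Matrix.GeneralLinearGroup.det g))⁻¹ : Fˣ).1 • g.1 := rfl

theorem slOf_toGL [Finite F] (hcop : (Nat.card F - 1).Coprime n)
    (A : SpecialLinearGroup (Fin n) F) : slOf hcop (toGL A) = A := by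
  apply Subtype.ext
  have h1 : Matrix.GeneralLinearGroup.det (toGL A : GL (Fin n) F) = 1 := Units.ext A.2
  rw [slOf_coe, h1, map_one, inv_one, Units.val_one, one_smul]
  rfl

theorem conj_slOf [Finite F] (hcop : (Nat.card F - 1).Coprime n) (g : GL (Fin n) F)
    (A : SpecialLinearGroup (Fin n) F) :
    toGL (slOf hcop g * A * (slOf hcop g)⁻¹) = g * toGL A * g⁻¹ := by
  rw [map_mul, map_mul, map_inv]
  set r := ((rootHom hcop (Matrix.GeneralLinearGroup.det g))⁻¹ : Fˣ) with hr
  have h1 : (toGL (slOf hcop g) : GL (Fin n) F).1 = r.1 • g.1 := rfl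
  have h2 : ((toGL (slOf hcop g) : GL (Fin n) F)⁻¹).1 = (r⁻¹).1 • (g⁻¹).1 := by
    have h3 : (toGL (slOf hcop g) : GL (Fin n) F).1 * ((r⁻¹).1 • (g⁻¹).1) = 1 := by
      rw [h1, smul_mul_smul_comm, Units.mul_inv, one_smul]
      exact g.mul_inv
    calc ((toGL (slOf hcop g) : GL (Fin n) F)⁻¹).1
        = ((toGL (slOf hcop g) : GL (Fin n) F)⁻¹).1 *
          ((toGL (slOf hcop g) : GL (Fin n) F).1 * ((r⁻¹).1 • (g⁻¹).1)) := by rw [h3, mul_one]
      _ = (((toGL (slOf hcop g) : GL (Fin n) F)⁻¹).1 *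
          (toGL (slOf hcop g) : GL (Fin n) F).1) * ((r⁻¹).1 • (g⁻¹).1) := by rw [mul_assoc]
      _ = _ := by rw [Units.inv_mul, one_mul]
  apply Units.ext
  rw [Units.val_mul, Units.val_mul, Units.val_mul, Units.val_mul, h1, h2, Matrix.smul_mul,
    Matrix.smul_mul, Matrix.mul_smul, smul_smul, Units.mul_inv, one_smul]

end MP7fG
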