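import Pool.Agent.Lib.MP_7f581e_ntG.RootSys
import Pool.Agent.Lib.MP_7f581e_ntG.AutSL

/-!
Abstract systems of root groups are conjugate to the standard one or to its dual.
-/

set_option autoImplicit false

namespace MP7fG

open Matrix Matrix.SpecialLinearGroup

variable {F : Type*} [Field F] {n : ℕ}

theorem RootSys.exists_frame (R : RootSys n F) (h3 : 3 ≤ n)
    (hP : ∀ i j k, i ≠ j → i ≠ k → Par (R.v i j) (R.v i k)) :
    ∃ (G : GL (Fin n) F) (C : Fin n → Fin n → F), (∀ i j, i ≠ j → C i j ≠ 0) ∧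
      ∀ i j, i ≠ j → ∀ s, rX (R.v i j) (R.f i j) s =
        G.1 * (1 + single i j (C i j * s)) * (G⁻¹).1 := by
  have hs : ∀ i : Fin n, ∃ j, i ≠ j := by
    intro i
    obtain ⟨m, hm, -⟩ := exists_third h3 i i
    exact ⟨m, hm.symm⟩
  choose s hs using hs
  have hv : ∀ i j, i ≠ j → Par (R.v i j) (R.v i (s i)) := fun i j h => hP i j (s i) h (hs i)
  have hf : ∀ i j, i ≠ j → Par (R.f i j) (R.f (s j) j) := by
    intro i j h
    by_cases hi : i = s j
    · rw [← hi]
      exact Par.refl _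
    · exact (R.col_of_row (Ne.symm hi) h (hs j).symm (hP (s j) i j (Ne.symm hi) (hs j).symm)).2
  have hfv0 : ∀ i j, i ≠ j → R.f (s j) j ⬝ᵥ R.v i (s i) = 0 := by
    intro i j h
    exact (hf i j h).symm.dot_left ((hv i j h).symm.dot_right (R.hfv i j h))
  have hfv1 : ∀ j, R.f (s j) j ⬝ᵥ R.v j (s j) ≠ 0 := by
    intro j h0
    obtain ⟨k, hk1, hk2⟩ := exists_third h3 j (s j)
    have h1 := (R.col_of_row (hs j).symm hk1.symm hk2.symm
      (hP (s j) j k (hs j).symm hk2.symm)).1
    exact h1 ((hv j k hk1.symm).dot_right h0)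
  let A : Matrix (Fin n) (Fin n) F := fun a i => R.v i (s i) a
  let B : Matrix (Fin n) (Fin n) F := fun j a =>
    (R.f (s j) j ⬝ᵥ R.v j (s j))⁻¹ * R.f (s j) j a
  have hBA : B * A = 1 := by
    ext j i
    have h1 : (B * A) j i = (R.f (s j) j ⬝ᵥ R.v j (s j))⁻¹ * (R.f (s j) j ⬝ᵥ R.v i (s i)) := by
      have h2 : (R.f (s j) j ⬝ᵥ R.v i (s i)) = ∑ a, R.f (s j) j a * R.v i (s i) a := rfl
      rw [Matrix.mul_apply, h2, Finset.mul_sum]
      apply Finset.sum_congr rfl
      intro a _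
      simp only [A, B]
      ring
    rw [h1, Matrix.one_apply]
    split_ifs with h
    · subst h
      exact inv_mul_cancel₀ (hfv1 _)
    · rw [hfv0 i j (Ne.symm h), mul_zero]
  have hAB : A * B = 1 := mul_eq_one_comm.mp hBA
  have hτ : ∀ i j, ∃ u : F, i ≠ j → u ≠ 0 ∧ ∀ t,
      rX (R.v i j) (R.f i j) t = A * (1 + single i j (u * t)) * B := by
    intro i j
    by_cases h : i = j
    · exact ⟨0, fun h' => absurd h h'⟩
    · obtain ⟨c, hc, hvc⟩ := hv i j h
      obtain ⟨c', hc', hfc⟩ := hf i j h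
      refine ⟨c * c' * (R.f (s j) j ⬝ᵥ R.v j (s j)), fun h' => ⟨?_, fun t => ?_⟩⟩
      · exact mul_ne_zero (mul_ne_zero hc hc') (hfv1 j)
      rw [rX, conj_single hAB]
      congr 1
      ext a b
      rw [Matrix.smul_apply, Matrix.smul_apply, vecMulVec_apply, vecMulVec_apply, hvc, hfc,
        smul_eq_mul, smul_eq_mul, Pi.smul_apply, Pi.smul_apply, smul_eq_mul, smul_eq_mul]
      simp only [A, B]
      field_simp [hfv1 j]
  choose C hC using hτ
  exact ⟨⟨A, B, hAB, hBA⟩, C, fun i j h => (hC i j h).1, fun i j h => (hC i j h).2⟩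

/-- A system of root groups of type `P` is conjugate to the standard one, up to a field
automorphism. -/
theorem RootSys.exists_field [Finite F] (R : RootSys n F) (h3 : 3 ≤ n)
    (hP : ∀ i j k, i ≠ j → i ≠ k → Par (R.v i j) (R.v i k)) :
    ∃ (g : GL (Fin n) F) (σ : F ≃+* F), ∀ i j (h : i ≠ j) (t : F),
      rX (R.v i j) (R.f i j) (R.θ i j t) =
        (g * toGL (SpecialLinearGroup.transvection h (σ t)) * g⁻¹).1 := by
  obtain ⟨G, C, hC0, hC⟩ := R.exists_frame h3 hP
  let τ : Fin n → Fin n → F → F := fun i j t => C i j * R.θ i j t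
  have hG : ∀ i j (h : i ≠ j) t, rX (R.v i j) (R.f i j) (R.θ i j t) =
      (G * toGL (SpecialLinearGroup.transvection h (τ i j t)) * G⁻¹).1 := by
    intro i j h t
    rw [hC i j h]
    rfl
  have hadd : ∀ i j, i ≠ j → ∀ s t, τ i j (s + t) = τ i j s + τ i j t := by
    intro i j h s t
    change C i j * _ = _
    rw [R.hadd i j h, mul_add]
  have hmul : ∀ i j k, i ≠ j → j ≠ k → i ≠ k → ∀ s t, τ i j s * τ j k t = τ i k (s * t) := by
    intro i j k hij hjk hik s t
    apply transvection_inj hik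
    apply toGL_injective
    have h1 := R.rel2 i j k hij hjk hik s t
    rw [hG _ _ hij, hG _ _ hjk, hG _ _ hik, ← Units.val_mul, ← Units.val_mul,
      ← Units.val_mul] at h1
    have h1 := Units.ext h1
    have h2 := congrArg toGL (transvection_commutator hij hjk hik (τ i j s) (τ j k t))
    rw [map_mul, map_mul, map_mul] at h2
    set x := toGL (SpecialLinearGroup.transvection hij (τ i j s))
    set y := toGL (SpecialLinearGroup.transvection hjk (τ j k t))
    set z := toGL (SpecialLinearGroup.transvection hik (τ i k (s * t)))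
    set z' := toGL (SpecialLinearGroup.transvection hik (τ i j s * τ j k t))
    have h3 : G * (x * y) * G⁻¹ = G * (z * y * x) * G⁻¹ := by
      calc G * (x * y) * G⁻¹ = G * x * G⁻¹ * (G * y * G⁻¹) := by group
        _ = G * z * G⁻¹ * (G * y * G⁻¹) * (G * x * G⁻¹) := h1
        _ = _ := by group
    rw [h2] at h3
    exact mul_right_cancel (mul_right_cancel (mul_left_cancel (mul_right_cancel h3)))
  have hne : ∀ i j, i ≠ j → ∀ t, t ≠ 0 → τ i j t ≠ 0 := fun i j h t ht =>
    mul_ne_zero (hC0 i j h) (R.hθ i j h t ht)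
  -- the cocycle
  let c : Fin n → Fin n → F := fun i j => τ i j 1
  have hc0 : ∀ i j, i ≠ j → c i j ≠ 0 := fun i j h => hne i j h 1 one_ne_zero
  have hc1 : ∀ i j k, i ≠ j → j ≠ k → i ≠ k → c i j * c j k = c i k := by
    intro i j k hij hjk hik
    have := hmul i j k hij hjk hik 1 1
    rwa [mul_one] at this
  have hA : ∀ i j k, i ≠ j → i ≠ k → ∀ t, τ i j t / c i j = τ i k t / c i k := by
    intro i j k hij hik t
    by_cases hjk : j = k
    · rw [hjk]
    · have h1 := hmul i j k hij hjk hik t 1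
      rw [mul_one] at h1
      rw [div_eq_div_iff (hc0 i j hij) (hc0 i k hik), ← h1, ← hc1 i j k hij hjk hik]
      change _ = τ i j t * c j k * c i j
      ring
  have hB : ∀ i j k, j ≠ k → i ≠ k → ∀ t, τ j k t / c j k = τ i k t / c i k := by
    intro i j k hjk hik t
    by_cases hij : i = j
    · rw [hij]
    · have h1 := hmul i j k hij hjk hik 1 t
      rw [one_mul] at h1
      rw [div_eq_div_iff (hc0 j k hjk) (hc0 i k hik), ← h1, ← hc1 i j k hij hjk hik]
      change _ = c i j * τ j k t * c j k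
      ring
  have hn0 : 0 < n := by omega
  obtain ⟨j0, hj0, -⟩ := exists_third h3 (⟨0, hn0⟩ : Fin n) ⟨0, hn0⟩
  let σ : F → F := fun t => τ ⟨0, hn0⟩ j0 t / c ⟨0, hn0⟩ j0
  have hσ : ∀ i j, i ≠ j → ∀ t, τ i j t = c i j * σ t := by
    intro i j h t
    obtain ⟨m, hm1, hm2⟩ := exists_third h3 i (⟨0, hn0⟩ : Fin n)
    have h1 : τ i j t / c i j = σ t := by
      rw [hA i j m h hm1.symm t, hB ⟨0, hn0⟩ i m hm1.symm hm2.symm t,
        hA ⟨0, hn0⟩ m j0 hm2.symm hj0.symm t]
    rw [← h1, mul_div_cancel₀ _ (hc0 i j h)]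
  obtain ⟨k0, hk0, hkj0⟩ := exists_third h3 (⟨0, hn0⟩ : Fin n) j0
  let σr : F →+* F :=
    { toFun := σ
      map_one' := div_self (hc0 _ _ hj0.symm)
      map_mul' := by
        intro s t
        have h1 := hmul ⟨0, hn0⟩ j0 k0 hj0.symm hkj0.symm hk0.symm s t
        rw [hσ _ _ hj0.symm, hσ _ _ hkj0.symm, hσ _ _ hk0.symm,
          ← hc1 ⟨0, hn0⟩ j0 k0 hj0.symm hkj0.symm hk0.symm] at h1
        have h2 : c ⟨0, hn0⟩ j0 * c j0 k0 ≠ 0 :=
          mul_ne_zero (hc0 _ _ hj0.symm) (hc0 _ _ hkj0.symm)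
        apply mul_left_cancel₀ h2
        rw [← h1]
        ring
      map_zero' := by
        have h1 := hadd _ _ hj0.symm 0 0
        rw [add_zero] at h1
        have h2 : τ ⟨0, hn0⟩ j0 0 = 0 := by
          have := h1
          rwa [left_eq_add] at this
        change τ ⟨0, hn0⟩ j0 0 / _ = 0
        rw [h2, zero_div]
      map_add' := by
        intro s t
        change τ ⟨0, hn0⟩ j0 (s + t) / _ = τ ⟨0, hn0⟩ j0 s / _ + τ ⟨0, hn0⟩ j0 t / _
        rw [hadd _ _ hj0.symm, add_div] }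
  have hbij : Function.Bijective σr := Finite.injective_iff_bijective.mp σr.injective
  -- scaling
  let d : Fin n → F := fun i => if i = ⟨0, hn0⟩ then 1 else c i ⟨0, hn0⟩
  have hd : ∀ i, d i ≠ 0 := by
    intro i
    by_cases h : i = ⟨0, hn0⟩
    · simp only [d, h, if_true]
      exact one_ne_zero
    · simp only [d, h, if_false]
      exact hc0 _ _ h
  have hcc : ∀ i j, i ≠ j → c i j * c j i = 1 := by
    intro i j h
    obtain ⟨k, hk1, hk2⟩ := exists_third h3 i j
    have h1 := hc1 i j k h hk2.symm hk1.symm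
    have h2 := hc1 j i k (Ne.symm h) hk1.symm hk2.symm
    rw [← h2, ← mul_assoc] at h1
    exact mul_right_cancel₀ (hc0 i k hk1.symm) (h1.trans (one_mul _).symm)
  have hdc : ∀ i j, i ≠ j → c i j = d i * (d j)⁻¹ := by
    intro i j h
    rw [eq_mul_inv_iff_mul_eq₀ (hd j)]
    by_cases hi : i = ⟨0, hn0⟩
    · have hj : ¬ j = ⟨0, hn0⟩ := fun hj => h (hi.trans hj.symm)
      simp only [d, hi, hj, if_true, if_false]
      exact hcc _ _ (fun h' => hj h'.symm)
    · by_cases hj : j = ⟨0, hn0⟩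
      · simp only [d, hi, hj, if_true, if_false, mul_one]
      · simp only [d, hi, hj, if_false]
        exact hc1 i j _ h hj hi
  refine ⟨G * diagGL d hd, RingEquiv.ofBijective σr hbij, fun i j h t => ?_⟩
  rw [hG i j h]
  have h2 := diagGL_conj d hd h (σ t)
  have h4 : τ i j t = d i * σ t * (d j)⁻¹ := by
    rw [hσ i j h, hdc i j h]
    ring
  have h5 : G * toGL (SpecialLinearGroup.transvection h (τ i j t)) * G⁻¹ =
      G * diagGL d hd * toGL (SpecialLinearGroup.transvection h (σ t)) *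
        (G * diagGL d hd)⁻¹ := by
    rw [h4, ← h2]
    group
  rw [h5]
  rfl

theorem rX_neg {v f : Fin n → F} (h : f ⬝ᵥ v = 0) (θ : F) : rX v f (-θ) * rX v f θ = 1 := by
  rw [rX_mul h, neg_add_cancel, rX, zero_smul, add_zero]

theorem RootSys.θ_neg (R : RootSys n F) {a b : Fin n} (hab : a ≠ b) (t : F) :
    R.θ a b (-t) = -R.θ a b t := by
  have h1 := R.hadd a b hab (-t) t
  have h2 := R.hadd a b hab 0 0
  rw [add_zero] at h2
  have h3 : R.θ a b 0 = 0 := by rwa [left_eq_add] at h2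
  rw [neg_add_cancel, h3] at h1
  exact eq_neg_of_add_eq_zero_left h1.symm

/-- The dual system. -/
def RootSys.dual (R : RootSys n F) : RootSys n F where
  v i j := R.v j i
  f i j := R.f j i
  θ i j t := R.θ j i (-t)
  hv i j h := R.hv j i h.symm
  hf i j h := R.hf j i h.symm
  hfv i j h := R.hfv j i h.symm
  hθ i j h t ht := R.hθ j i h.symm _ (neg_ne_zero.mpr ht)
  hadd i j h s t := by rw [neg_add, R.hadd j i h.symm]
  rel1 i j k l hij hkl hjk hil := by
    have h1 := (R.rel1 j i l k hij.symm hkl.symm hil hjk)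
    rw [R.θ_neg hij.symm, R.θ_neg hkl.symm]
    have h2 := rX_neg (R.hfv j i hij.symm) (R.θ j i 1)
    have h3 := rX_neg (R.hfv l k hkl.symm) (R.θ l k 1)
    let ua : GL (Fin n) F := ⟨_, _, mul_eq_one_comm.mp h2, h2⟩
    let ub : GL (Fin n) F := ⟨_, _, mul_eq_one_comm.mp h3, h3⟩
    have h4 : Commute ua ub := Units.ext h1
    exact congrArg Units.val h4.inv_inv
  rel2 i j k hij hjk hik s t := by
    have h1 := R.rel2 k j i hjk.symm hij.symm hik.symm (-t) (-s)
    rw [neg_mul_neg, mul_comm t s] at h1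
    rw [mul_assoc (rX (R.v k i) (R.f k i) _), h1, R.θ_neg hik.symm, ← mul_assoc, ← mul_assoc,
      rX_neg (R.hfv k i hik.symm), one_mul]

theorem RootSys.dual_P (R : RootSys n F)
    (hD : ∀ i j k, i ≠ j → i ≠ k → Par (R.f i j) (R.f i k)) :
    ∀ i j k, i ≠ j → i ≠ k → Par (R.dual.v i j) (R.dual.v i k) := by
  intro i j k hij hik
  change Par (R.v j i) (R.v k i)
  by_cases hjk : j = k
  · rw [hjk]
    exact Par.refl _
  · rcases R.pd hjk hik.symm hij.symm with h | h
    · exact absurd (R.not_both hjk hik.symm hij.symm h.2.2.1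
        (hD j k i hjk hij.symm)) id
    · exact h.2.2.1.symm

/-- **Systems of root groups** are conjugate to the standard one or its dual, up to a field
automorphism. -/
theorem RootSys.main [Finite F] (R : RootSys n F) (h3 : 3 ≤ n) :
    ∃ (g : GL (Fin n) F) (σ : F ≃+* F),
      (∀ i j (h : i ≠ j) (t : F), rX (R.v i j) (R.f i j) (R.θ i j t) =
        (g * toGL (SpecialLinearGroup.transvection h (σ t)) * g⁻¹).1) ∨
      (∀ i j (h : i ≠ j) (t : F), rX (R.v i j) (R.f i j) (R.θ i j t) =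
        (g * toGL (SpecialLinearGroup.transvection h.symm (-σ t)) * g⁻¹).1) := by
  rcases R.all_alt h3 with hP | hD
  · obtain ⟨g, σ, hg⟩ := R.exists_field h3 hP
    exact ⟨g, σ, Or.inl hg⟩
  · obtain ⟨g, σ, hg⟩ := R.dual.exists_field h3 (R.dual_P hD)
    refine ⟨g, σ, Or.inr fun i j h t => ?_⟩
    have h1 := hg j i h.symm (-t)
    change rX (R.v i j) (R.f i j) (R.θ i j (- -t)) = _ at h1
    rwa [neg_neg, map_neg] at h1

end MP7fG
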