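import Pool.Agent.Lib.MP_7f581e_ntG.Frame

/-!
Abstract systems of root groups in `SL(n, F)`.
-/

set_option autoImplicit false

namespace MP7fG

open Matrix Matrix.SpecialLinearGroup

variable {F : Type*} [Field F] {n : ℕ}

/-- A common zero of two functionals. -/
theorem exists_common_zero (h3 : 3 ≤ n) (f f' : Fin n → F) :
    ∃ w : Fin n → F, w ≠ 0 ∧ f ⬝ᵥ w = 0 ∧ f' ⬝ᵥ w = 0 := by
  let φ : (Fin n → F) →ₗ[F] (Fin 2 → F) := Matrix.mulVecLin (Matrix.of ![f, f'])
  have h1 : LinearMap.ker φ ≠ ⊥ := by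
    apply LinearMap.ker_ne_bot_of_finrank_lt
    rw [Module.finrank_fin_fun, Module.finrank_fin_fun]
    omega
  obtain ⟨w, hw, hw0⟩ := Submodule.exists_mem_ne_zero_of_ne_bot h1
  refine ⟨w, hw0, ?_, ?_⟩
  · exact congrFun hw 0
  · exact congrFun hw 1

/-- The matrix of a root element. -/
def rX (v f : Fin n → F) (θ : F) : Matrix (Fin n) (Fin n) F := 1 + θ • vecMulVec v f

theorem rX_mulVec (v f w : Fin n → F) (θ : F) :
    rX v f θ *ᵥ w = w + (θ * (f ⬝ᵥ w)) • v := by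
  rw [rX, Matrix.add_mulVec, Matrix.one_mulVec, Matrix.smul_mulVec, vecMulVec_mulVec]
  congr 1
  rw [mul_smul]
  congr 1
  ext i
  simp [mul_comm]

theorem rX_mul {v f : Fin n → F} (h : f ⬝ᵥ v = 0) (θ θ' : F) :
    rX v f θ * rX v f θ' = rX v f (θ + θ') := by
  have h1 : (θ • vecMulVec v f) * (θ' • vecMulVec v f) = 0 := by
    rw [smul_mul_smul_comm, vmv_mul, h, zero_smul, smul_zero]
  rw [rX, rX, rX, add_smul]
  set A := θ • vecMulVec v f
  set B := θ' • vecMulVec v f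
  calc (1 + A) * (1 + B) = 1 + (A + B) + A * B := by noncomm_ring
    _ = _ := by rw [h1, add_zero]

/-- Abstract systems of root groups. -/
structure RootSys (n : ℕ) (F : Type*) [Field F] where
  /-- the centre of the root group -/
  v : Fin n → Fin n → Fin n → F
  /-- the axis of the root group -/
  f : Fin n → Fin n → Fin n → F
  /-- the parameter -/
  θ : Fin n → Fin n → F → F
  hv : ∀ i j, i ≠ j → v i j ≠ 0
  hf : ∀ i j, i ≠ j → f i j ≠ 0
  hfv : ∀ i j, i ≠ j → f i j ⬝ᵥ v i j = 0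
  hθ : ∀ i j, i ≠ j → ∀ t, t ≠ 0 → θ i j t ≠ 0
  hadd : ∀ i j, i ≠ j → ∀ s t, θ i j (s + t) = θ i j s + θ i j t
  rel1 : ∀ i j k l, i ≠ j → k ≠ l → j ≠ k → i ≠ l →
    rX (v i j) (f i j) (θ i j 1) * rX (v k l) (f k l) (θ k l 1) =
      rX (v k l) (f k l) (θ k l 1) * rX (v i j) (f i j) (θ i j 1)
  rel2 : ∀ i j k, i ≠ j → j ≠ k → i ≠ k → ∀ s t,
    rX (v i j) (f i j) (θ i j s) * rX (v j k) (f j k) (θ j k t) =
      rX (v i k) (f i k) (θ i k (s * t)) * rX (v j k) (f j k) (θ j k t) *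
        rX (v i j) (f i j) (θ i j s)

/-- Commuting root elements. -/
theorem comm_of_rX {v f v' f' : Fin n → F} (hv : v ≠ 0) (hf' : f' ≠ 0)
    (hfv : f ⬝ᵥ v = 0) {θ θ' : F} (hθ : θ ≠ 0) (hθ' : θ' ≠ 0)
    (h : rX v f θ * rX v' f' θ' = rX v' f' θ' * rX v f θ) : f ⬝ᵥ v' = 0 := by
  by_contra hc
  have h3 : (θ • vecMulVec v f) * (θ' • vecMulVec v' f') =
      (θ' • vecMulVec v' f') * (θ • vecMulVec v f) := by
    unfold rX at h
    set A := θ • vecMulVec v f
    set B := θ' • vecMulVec v' f'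
    calc A * B = (1 + A) * (1 + B) - 1 - A - B := by noncomm_ring
      _ = (1 + B) * (1 + A) - 1 - A - B := by rw [h]
      _ = B * A := by noncomm_ring
  rw [smul_mul_smul_comm, smul_mul_smul_comm, vmv_mul, vmv_mul, smul_smul, smul_smul] at h3
  have h4 := par_of_vecMulVec hv hf' (mul_ne_zero (mul_ne_zero hθ hθ') hc) h3
  exact hc (h4.1.symm.dot_right hfv)

/-- A system of root groups whose relations hold up to scalars. -/
def RootSys.mk' (h3 : 3 ≤ n) (v f : Fin n → Fin n → Fin n → F) (θ : Fin n → Fin n → F → F)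
    (hv : ∀ i j, i ≠ j → v i j ≠ 0) (hf : ∀ i j, i ≠ j → f i j ≠ 0)
    (hfv : ∀ i j, i ≠ j → f i j ⬝ᵥ v i j = 0)
    (hθ : ∀ i j, i ≠ j → ∀ t, t ≠ 0 → θ i j t ≠ 0)
    (hadd : ∀ i j, i ≠ j → ∀ s t, ∃ c : F, rX (v i j) (f i j) (θ i j (s + t)) =
      c • (rX (v i j) (f i j) (θ i j s) * rX (v i j) (f i j) (θ i j t)))
    (rel1 : ∀ i j k l, i ≠ j → k ≠ l → j ≠ k → i ≠ l → ∃ c : F,
      rX (v i j) (f i j) (θ i j 1) * rX (v k l) (f k l) (θ k l 1) =
        c • (rX (v k l) (f k l) (θ k l 1) * rX (v i j) (f i j) (θ i j 1)))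
    (rel2 : ∀ i j k, i ≠ j → j ≠ k → i ≠ k → ∀ s t, ∃ c : F,
      rX (v i j) (f i j) (θ i j s) * rX (v j k) (f j k) (θ j k t) =
        c • (rX (v i k) (f i k) (θ i k (s * t)) * rX (v j k) (f j k) (θ j k t) *
          rX (v i j) (f i j) (θ i j s))) : RootSys n F :=
  have r1 : ∀ i j k l, i ≠ j → k ≠ l → j ≠ k → i ≠ l →
      rX (v i j) (f i j) (θ i j 1) * rX (v k l) (f k l) (θ k l 1) =
        rX (v k l) (f k l) (θ k l 1) * rX (v i j) (f i j) (θ i j 1) := by
    intro i j k l hij hkl hjk hil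
    obtain ⟨c, hc⟩ := rel1 i j k l hij hkl hjk hil
    obtain ⟨w, hw0, hw1, hw2⟩ := exists_common_zero h3 (f i j) (f k l)
    have h1 := congrArg (fun M => M *ᵥ w) hc
    simp only [Matrix.smul_mulVec, ← Matrix.mulVec_mulVec, rX_mulVec, hw1, hw2, mul_zero,
      zero_smul, add_zero] at h1
    have h2 : c = 1 := by
      have h4 : (1 - c) • w = 0 := by
        rw [sub_smul, one_smul, ← h1, sub_self]
      exact (sub_eq_zero.mp ((smul_eq_zero.mp h4).resolve_right hw0)).symm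
    rw [hc, h2, one_smul]
  have cm : ∀ i j k l, i ≠ j → k ≠ l → j ≠ k → i ≠ l → f i j ⬝ᵥ v k l = 0 := by
    intro i j k l hij hkl hjk hil
    exact comm_of_rX (hv i j hij) (hf k l hkl) (hfv i j hij) (hθ i j hij 1 one_ne_zero)
      (hθ k l hkl 1 one_ne_zero) (r1 i j k l hij hkl hjk hil)
  { v := v, f := f, θ := θ, hv := hv, hf := hf, hfv := hfv, hθ := hθ
    hadd := by
      intro i j hij s t
      obtain ⟨c, hc⟩ := hadd i j hij s t
      obtain ⟨w, hw0, hw1, -⟩ := exists_common_zero h3 (f i j) (f i j)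
      have h1 := congrArg (fun M => M *ᵥ w) hc
      simp only [Matrix.smul_mulVec, ← Matrix.mulVec_mulVec, rX_mulVec, hw1, mul_zero,
        zero_smul, add_zero] at h1
      have h2 : c = 1 := by
        have h4 : (1 - c) • w = 0 := by
          rw [sub_smul, one_smul, ← h1, sub_self]
        exact (sub_eq_zero.mp ((smul_eq_zero.mp h4).resolve_right hw0)).symm
      rw [h2, one_smul, rX_mul (hfv i j hij), rX, rX, add_right_inj, ← sub_eq_zero,
        ← sub_smul] at hc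
      exact sub_eq_zero.mp ((smul_eq_zero.mp hc).resolve_right
        (vmv_ne_zero (hv i j hij) (hf i j hij)))
    rel1 := r1
    rel2 := by
      intro i j k hij hjk hik s t
      obtain ⟨c, hc⟩ := rel2 i j k hij hjk hik s t
      obtain ⟨w, hw0, hw1, hw2⟩ := exists_common_zero h3 (f i j) (f j k)
      have h1 := congrArg (fun M => M *ᵥ w) hc
      simp only [Matrix.smul_mulVec, ← Matrix.mulVec_mulVec, rX_mulVec, hw1, hw2, mul_zero,
        zero_smul, add_zero] at h1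
      have h2 : c = 1 := by
        by_contra hne
        have h4 : (1 - c) • w = (c * (θ i k (s * t) * (f i k ⬝ᵥ w))) • v i k := by
          rw [sub_smul, one_smul, mul_smul, sub_eq_iff_eq_add, ← smul_add, add_comm, ← h1]
        have h5 : 1 - c ≠ 0 := sub_ne_zero.mpr (Ne.symm hne)
        have h6 : f i k ⬝ᵥ w = 0 := by
          have h7 := congrArg (fun z => f i k ⬝ᵥ z) h4
          simp only [dotProduct_smul, hfv i k hik, mul_zero, smul_eq_mul] at h7
          exact (mul_eq_zero.mp h7).resolve_left h5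
        rw [h6, mul_zero, mul_zero, zero_smul] at h4
        exact hw0 ((smul_eq_zero.mp h4).resolve_left h5)
      rw [hc, h2, one_smul] }

namespace RootSys

variable (R : RootSys n F)

include R

/-- Commuting root groups. -/
theorem comm {i j k l : Fin n} (hij : i ≠ j) (hkl : k ≠ l) (hjk : j ≠ k) (hil : i ≠ l) :
    R.f i j ⬝ᵥ R.v k l = 0 :=
  comm_of_rX (R.hv i j hij) (R.hf k l hkl) (R.hfv i j hij) (R.hθ i j hij 1 one_ne_zero)
    (R.hθ k l hkl 1 one_ne_zero) (R.rel1 i j k l hij hkl hjk hil)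

/-- The commutator relation. -/
theorem trip {i j k : Fin n} (hij : i ≠ j) (hjk : j ≠ k) (hik : i ≠ k) (s t : F) :
    (R.θ i j s * R.θ j k t * (R.f i j ⬝ᵥ R.v j k)) • vecMulVec (R.v i j) (R.f j k) -
      (R.θ i j s * R.θ j k t * (R.f j k ⬝ᵥ R.v i j)) • vecMulVec (R.v j k) (R.f i j) =
      R.θ i k (s * t) • vecMulVec (R.v i k) (R.f i k) := by
  have h1 := R.rel2 i j k hij hjk hik s t
  unfold rX at h1
  have h2 : (R.θ i k (s * t) • vecMulVec (R.v i k) (R.f i k)) *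
      (R.θ j k t • vecMulVec (R.v j k) (R.f j k)) = 0 := by
    rw [smul_mul_smul_comm, vmv_mul, R.comm hik hjk hjk.symm hik, zero_smul, smul_zero]
  have h3 : (R.θ i k (s * t) • vecMulVec (R.v i k) (R.f i k)) *
      (R.θ i j s • vecMulVec (R.v i j) (R.f i j)) = 0 := by
    rw [smul_mul_smul_comm, vmv_mul, R.comm hik hij hik.symm hij, zero_smul, smul_zero]
  have h4 : (R.θ i j s • vecMulVec (R.v i j) (R.f i j)) *
      (R.θ j k t • vecMulVec (R.v j k) (R.f j k)) =
      (R.θ i j s * R.θ j k t * (R.f i j ⬝ᵥ R.v j k)) • vecMulVec (R.v i j) (R.f j k) := by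
    rw [smul_mul_smul_comm, vmv_mul, smul_smul]
  have h5 : (R.θ j k t • vecMulVec (R.v j k) (R.f j k)) *
      (R.θ i j s • vecMulVec (R.v i j) (R.f i j)) =
      (R.θ i j s * R.θ j k t * (R.f j k ⬝ᵥ R.v i j)) • vecMulVec (R.v j k) (R.f i j) := by
    rw [smul_mul_smul_comm, vmv_mul, smul_smul, mul_comm (R.θ j k t)]
  rw [← h4, ← h5]
  set A := R.θ i j s • vecMulVec (R.v i j) (R.f i j)
  set B := R.θ j k t • vecMulVec (R.v j k) (R.f j k)
  set C := R.θ i k (s * t) • vecMulVec (R.v i k) (R.f i k)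
  calc A * B - B * A = (1 + A) * (1 + B) - 1 - A - B - B * A := by noncomm_ring
    _ = (1 + C) * (1 + B) * (1 + A) - 1 - A - B - B * A := by rw [h1]
    _ = C + C * B + C * A + C * B * A := by noncomm_ring
    _ = C := by rw [h2, h3]; simp

theorem pd {i j k : Fin n} (hij : i ≠ j) (hjk : j ≠ k) (hik : i ≠ k) :
    (R.f i j ⬝ᵥ R.v j k ≠ 0 ∧ R.f j k ⬝ᵥ R.v i j = 0 ∧
      Par (R.v i j) (R.v i k) ∧ Par (R.f j k) (R.f i k)) ∨
    (R.f i j ⬝ᵥ R.v j k = 0 ∧ R.f j k ⬝ᵥ R.v i j ≠ 0 ∧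
      Par (R.v j k) (R.v i k) ∧ Par (R.f i j) (R.f i k)) := by
  have h1 := R.trip hij hjk hik 1 1
  have hθ := mul_ne_zero (R.hθ i j hij 1 one_ne_zero) (R.hθ j k hjk 1 one_ne_zero)
  have hθ3 : R.θ i k (1 * 1) ≠ 0 := R.hθ i k hik _ (by rw [one_mul]; exact one_ne_zero)
  set a := R.f i j ⬝ᵥ R.v j k with ha
  set b := R.f j k ⬝ᵥ R.v i j with hb
  have hab : a * b = 0 := by
    -- multiply by `vecMulVec (v i j) (f i j)` on the right
    have h2 := congrArg (fun M => M * vecMulVec (R.v i j) (R.f i j)) h1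
    simp only [sub_mul, smul_mul_assoc, vmv_mul, ← hb, R.hfv i j hij,
      R.comm hik hij hik.symm hij, zero_smul, smul_zero, sub_zero, smul_smul] at h2
    by_contra hab
    have h3 : R.θ i j 1 * R.θ j k 1 * a * b ≠ 0 := by
      rw [mul_assoc]
      exact mul_ne_zero hθ hab
    exact (smul_ne_zero h3 (vmv_ne_zero (R.hv i j hij) (R.hf i j hij))) h2
  by_cases ha0 : a = 0
  · right
    by_cases hb0 : b = 0
    · rw [ha0, hb0, mul_zero, zero_smul, zero_smul, sub_zero] at h1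
      exact absurd h1.symm (smul_ne_zero hθ3 (vmv_ne_zero (R.hv i k hik) (R.hf i k hik)))
    · refine ⟨ha0, hb0, ?_⟩
      rw [ha0, mul_zero, zero_smul, zero_sub, ← neg_smul] at h1
      exact par_of_vecMulVec (R.hv j k hjk) (R.hf i j hij) (neg_ne_zero.mpr (mul_ne_zero hθ hb0)) h1
  · left
    have hb0 : b = 0 := (mul_eq_zero.mp hab).resolve_left ha0
    refine ⟨ha0, hb0, ?_⟩
    rw [hb0, mul_zero, zero_smul, sub_zero] at h1
    exact par_of_vecMulVec (R.hv i j hij) (R.hf j k hjk) (mul_ne_zero hθ ha0) h1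

/-- First exclusion. -/
theorem excl1 {i j k : Fin n} (hij : i ≠ j) (hjk : j ≠ k) (hik : i ≠ k)
    (h1 : Par (R.v i j) (R.v i k)) (h2 : Par (R.v j k) (R.v i k)) : False := by
  have h3 : Par (R.v i j) (R.v j k) := h1.trans h2.symm
  have h4 : R.f j k ⬝ᵥ R.v i j = 0 := h3.dot_right (R.hfv j k hjk)
  have h5 : R.f i j ⬝ᵥ R.v j k = 0 := h3.symm.dot_right (R.hfv i j hij)
  rcases R.pd hij hjk hik with h | h
  · exact h.1 h5
  · exact h.2.1 h4

/-- Second exclusion. -/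
theorem excl2 {i j k : Fin n} (hij : i ≠ j) (hjk : j ≠ k) (hik : i ≠ k)
    (h1 : Par (R.f i j) (R.f i k)) (h2 : Par (R.f j k) (R.f i k)) : False := by
  have h3 : Par (R.f i j) (R.f j k) := h1.trans h2.symm
  have h4 : R.f i j ⬝ᵥ R.v j k = 0 := h3.dot_left (R.hfv j k hjk)
  have h5 : R.f j k ⬝ᵥ R.v i j = 0 := h3.symm.dot_left (R.hfv i j hij)
  rcases R.pd hij hjk hik with h | h
  · exact h.1 h4
  · exact h.2.1 h5

/-- Row relation of type `P` implies the column relation of type `P`. -/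
theorem col_of_row {i j k : Fin n} (hij : i ≠ j) (hjk : j ≠ k) (hik : i ≠ k)
    (h1 : Par (R.v i j) (R.v i k)) : R.f i j ⬝ᵥ R.v j k ≠ 0 ∧ Par (R.f j k) (R.f i k) := by
  rcases R.pd hij hjk hik with h | h
  · exact ⟨h.1, h.2.2.2⟩
  · exact absurd (R.excl1 hij hjk hik h1 h.2.2.1) id

theorem row_of_col {i j k : Fin n} (hij : i ≠ j) (hjk : j ≠ k) (hik : i ≠ k)
    (h1 : Par (R.f j k) (R.f i k)) : Par (R.v i j) (R.v i k) := by
  rcases R.pd hij hjk hik with h | h
  · exact h.2.2.1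
  · exact absurd (R.excl2 hij hjk hik h.2.2.2 h1) id

theorem not_both {i j k : Fin n} (hij : i ≠ j) (hjk : j ≠ k) (hik : i ≠ k)
    (h1 : Par (R.v i j) (R.v i k)) (h2 : Par (R.f i j) (R.f i k)) : False :=
  R.excl2 hij hjk hik h2 (R.col_of_row hij hjk hik h1).2

theorem row_or {i j k : Fin n} (hij : i ≠ j) (hik : i ≠ k) :
    Par (R.v i j) (R.v i k) ∨ Par (R.f i j) (R.f i k) := by
  by_cases hjk : j = k
  · subst hjk
    exact Or.inl (Par.refl _)
  · rcases R.pd hij hjk hik with h | h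
    · exact Or.inl h.2.2.1
    · exact Or.inr h.2.2.2

theorem row_alt (i : Fin n) :
    (∀ j k, i ≠ j → i ≠ k → Par (R.v i j) (R.v i k)) ∨
    (∀ j k, i ≠ j → i ≠ k → Par (R.f i j) (R.f i k)) := by
  by_contra hcon
  push Not at hcon
  obtain ⟨⟨j, k, hij, hik, hjk⟩, ⟨j', k', hij', hik', hjk'⟩⟩ := hcon
  have h1 : Par (R.f i j) (R.f i k) := (R.row_or hij hik).resolve_left hjk
  have h2 : ∀ l, i ≠ l → Par (R.f i j) (R.f i l) := by
    intro l hil
    by_contra h3
    have h4 : Par (R.v i j) (R.v i l) := (R.row_or hij hil).resolve_right h3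
    rcases R.row_or hil hik with h5 | h5
    · exact hjk (h4.trans h5)
    · exact h3 (h1.trans h5.symm)
  exact hjk' ((h2 j' hij').symm.trans (h2 k' hik'))

/-- All of type `P` or all of type `D`. -/
theorem all_alt (h3 : 3 ≤ n) :
    (∀ i j k, i ≠ j → i ≠ k → Par (R.v i j) (R.v i k)) ∨
    (∀ i j k, i ≠ j → i ≠ k → Par (R.f i j) (R.f i k)) := by
  have hstep : ∀ i i' : Fin n, (∀ j k, i ≠ j → i ≠ k → Par (R.v i j) (R.v i k)) →
      (∀ j k, i' ≠ j → i' ≠ k → Par (R.v i' j) (R.v i' k)) := by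
    intro i i' h
    by_cases hii : i = i'
    · subst hii
      exact h
    · obtain ⟨k, hk1, hk2⟩ := exists_third h3 i i'
      have h1 : Par (R.f i' k) (R.f i k) :=
        (R.col_of_row hii hk2.symm hk1.symm (h i' k hii hk1.symm)).2
      have h2 : Par (R.v i' i) (R.v i' k) :=
        R.row_of_col (Ne.symm hii) hk1.symm hk2.symm h1.symm
      rcases R.row_alt i' with h4 | h4
      · exact h4
      · exact absurd (R.not_both (Ne.symm hii) hk1.symm hk2.symm h2
          (h4 i k (Ne.symm hii) hk2.symm)) id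
  rcases R.row_alt ⟨0, by omega⟩ with h | h
  · left
    intro i
    exact hstep _ i h
  · right
    intro i
    rcases R.row_alt i with h' | h'
    · have h5 := hstep i ⟨0, by omega⟩ h'
      obtain ⟨j, hj, -⟩ := exists_third h3 ⟨0, by omega⟩ ⟨0, by omega⟩
      obtain ⟨k, hk, hkj⟩ := exists_third h3 ⟨0, by omega⟩ j
      exact absurd (R.not_both hj.symm hkj.symm hk.symm (h5 j k hj.symm hk.symm)
        (h j k hj.symm hk.symm)) id
    · exact h'

end RootSys

end MP7fG
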