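import Pool.Agent.Lib.MP_7f581e_ntG.SplitSL
import Pool.Agent.Lib.MP_7f581e_ntL.U14
import Pool.Agent.Lib.MP_7f581e_ntL.U4
import Pool.Agent.Lib.MP_7f581e_ntR.Reg
import Pool.Agent.Lib.MP_7f581e_ntL.U2
import Pool.Agent.Lib.MP_7f581e_ntL.U1
import Pool.Agent.Lib.MP_7f581e_ntS.LangB
import Pool.Agent.Lib.MP_7f581e_ntS.LangA
import Pool.Agent.Lib.MP_7f581e_ntS.Tens

/-!
Embedding problems with kernel a power of `SL(n, F)`, `n ≥ 3` coprime to `|F| - 1`.
-/

set_option autoImplicit false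
set_option linter.unusedSectionVars false

universe u

namespace MP7fG

open Matrix Matrix.SpecialLinearGroup MulOpposite MP7fU MP7fE

section

variable {F : Type} [Field F] [Finite F] {n : ℕ} {κ : Type}

theorem slOf_map (hcop : (Nat.card F - 1).Coprime n) (σ : F ≃+* F) {g g' : GL (Fin n) F}
    (h : g'.1 = g.1.map σ) :
    slOf hcop g' = SpecialLinearGroup.map (σ : F →+* F) (slOf hcop g) := by
  have h1 : Matrix.GeneralLinearGroup.det g' =
      Units.map (σ : F →* F) (Matrix.GeneralLinearGroup.det g) := by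
    apply Units.ext
    change g'.1.det = σ g.1.det
    rw [h]
    exact ((σ : F →+* F).map_det g.1).symm
  apply Subtype.ext
  rw [slOf_coe, ← map_coe, slOf_coe, h1, rootHom_map, h]
  ext i j
  rw [Matrix.smul_apply, Matrix.map_apply, Matrix.map_apply, Matrix.smul_apply, smul_eq_mul,
    smul_eq_mul, map_mul, ← map_inv]
  rfl

theorem slOf_invT (hcop : (Nat.card F - 1).Coprime n) {g g' : GL (Fin n) F}
    (h : g'.1 = ((g⁻¹).1).transpose) : slOf hcop g' = invT n F (slOf hcop g) := by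
  have h1 : Matrix.GeneralLinearGroup.det g' = (Matrix.GeneralLinearGroup.det g)⁻¹ := by
    rw [← map_inv]
    apply Units.ext
    change g'.1.det = (g⁻¹).1.det
    rw [h, Matrix.det_transpose]
  have h2 : invT n F (slOf hcop g) = (slOf hcop (g⁻¹)).transpose := by
    rw [map_inv]
    rfl
  apply Subtype.ext
  rw [h2, coe_transpose, slOf_coe, slOf_coe, h1, h, Matrix.transpose_smul,
    map_inv Matrix.GeneralLinearGroup.det g, map_inv (rootHom hcop)]

/-- The projection of the unitary group of the exchange algebra. -/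
noncomputable def slU {p : ℕ} [Fact p.Prime] [Algebra (ZMod p) F] [Finite κ]
    (hcop : (Nat.card F - 1).Coprime n) :
    (exchInv p (κ → Matrix (Fin n) (Fin n) F)).U →* (κ → SpecialLinearGroup (Fin n) F) where
  toFun u := fun k => slOf hcop (MulEquiv.piUnits ((exchU p _).symm u) k)
  map_one' := by
    funext k
    rw [map_one, map_one, Pi.one_apply, map_one, Pi.one_apply]
  map_mul' u v := by
    funext k
    rw [map_mul, map_mul, Pi.mul_apply, map_mul, Pi.mul_apply]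

theorem slU_apply {p : ℕ} [Fact p.Prime] [Algebra (ZMod p) F] [Finite κ]
    (hcop : (Nat.card F - 1).Coprime n) (u : (exchInv p (κ → Matrix (Fin n) (Fin n) F)).U)
    (k : κ) : slU hcop u k = slOf hcop (MulEquiv.piUnits ((exchU p _).symm u) k) := rfl

theorem slU_surj {p : ℕ} [Fact p.Prime] [Algebra (ZMod p) F] [Finite κ]
    (hcop : (Nat.card F - 1).Coprime n) (x : κ → SpecialLinearGroup (Fin n) F) :
    ∃ u : (exchInv p (κ → Matrix (Fin n) (Fin n) F)).U, slU hcop u = x := by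
  refine ⟨exchU p _ (MulEquiv.piUnits.symm fun k => toGL (x k)), ?_⟩
  funext k
  rw [slU_apply, MulEquiv.symm_apply_apply, MulEquiv.apply_symm_apply, slOf_toGL]

theorem coe_g {p : ℕ} [Fact p.Prime] [Algebra (ZMod p) F] [Finite κ]
    (u : (exchInv p (κ → Matrix (Fin n) (Fin n) F)).U) (k : κ) :
    (MulEquiv.piUnits ((exchU p _).symm u) k).1 = wE n F κ (u.1 : _ × _) (k, false) := rfl

theorem coe_g_inv {p : ℕ} [Fact p.Prime] [Algebra (ZMod p) F] [Finite κ]
    (u : (exchInv p (κ → Matrix (Fin n) (Fin n) F)).U) (k : κ) :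
    (((MulEquiv.piUnits ((exchU p _).symm u) k)⁻¹).1).transpose =
      wE n F κ (u.1 : _ × _) (k, true) := by
  obtain ⟨c, rfl⟩ := (exchU p _).surjective u
  rw [MulEquiv.symm_apply_apply]
  rfl

end

section

variable {F : Type} [Field F] [Finite F] {n : ℕ} {κ : Type} [Finite κ]
variable {E : Type} [Group E] [Finite E] (N : Subgroup E) [hN : N.Normal]
  (θ : N ≃* (κ → SpecialLinearGroup (Fin n) F))

/-- The complement is the quotient. -/
noncomputable def quotE (h3 : 3 ≤ n) (hcop : (Nat.card F - 1).Coprime n) :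
    cmpl N θ ≃* E ⧸ N :=
  MulEquiv.ofBijective ((QuotientGroup.mk' N).comp (Subgroup.subtype _)) ⟨by
    rw [injective_iff_map_eq_one]
    rintro ⟨e, he⟩ h
    have h1 : e ∈ N := (QuotientGroup.eq_one_iff e).mp h
    exact Subtype.ext (cmpl_disj N θ h3 hcop h1 he), by
    intro q
    obtain ⟨e, rfl⟩ := QuotientGroup.mk'_surjective N q
    obtain ⟨x, hx⟩ := cmpl_sup N θ h3 hcop e
    refine ⟨⟨_, hx⟩, ?_⟩
    change (QuotientGroup.mk' N) (nn N θ x * e) = _
    have h1 : QuotientGroup.mk' N (nn N θ x) = 1 := (QuotientGroup.eq_one_iff _).mpr (nn_mem N θ x)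
    rw [map_mul, h1, one_mul]⟩

theorem quotE_apply (h3 : 3 ≤ n) (hcop : (Nat.card F - 1).Coprime n) (e : cmpl N θ) :
    quotE N θ h3 hcop e = QuotientGroup.mk' N e := rfl

/-- The action of the quotient on the exchange algebra. -/
noncomputable def rhoE (h3 : 3 ≤ n) (hcop : (Nat.card F - 1).Coprime n) :
    E ⧸ N →* ((κ → Matrix (Fin n) (Fin n) F) × (κ → Matrix (Fin n) (Fin n) F)ᵐᵒᵖ ≃+*
      (κ → Matrix (Fin n) (Fin n) F) × (κ → Matrix (Fin n) (Fin n) F)ᵐᵒᵖ) where
  toFun q := ((wE n F κ).trans (rhoW N θ h3 ((quotE N θ h3 hcop).symm q))).trans (wE n F κ).symm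
  map_one' := by
    ext1 z
    rw [map_one, map_one, RingEquiv.trans_apply, RingEquiv.trans_apply]
    exact (wE n F κ).symm_apply_apply z
  map_mul' a b := by
    ext1 z
    rw [map_mul, map_mul, RingEquiv.trans_apply, RingEquiv.trans_apply]
    change _ = (wE n F κ).symm (rhoW N θ h3 ((quotE N θ h3 hcop).symm a) (wE n F κ
      ((wE n F κ).symm (rhoW N θ h3 ((quotE N θ h3 hcop).symm b) (wE n F κ z)))))
    rw [RingEquiv.apply_symm_apply]
    rfl

theorem wE_rhoE (h3 : 3 ≤ n) (hcop : (Nat.card F - 1).Coprime n) (q : E ⧸ N)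
    (z : (κ → Matrix (Fin n) (Fin n) F) × (κ → Matrix (Fin n) (Fin n) F)ᵐᵒᵖ) :
    wE n F κ (rhoE N θ h3 hcop q z) =
      rhoAux N θ ((quotE N θ h3 hcop).symm q) (wE n F κ z) :=
  (wE n F κ).apply_symm_apply _

theorem wE_j {p : ℕ} [Fact p.Prime] [Algebra (ZMod p) F]
    (z : (κ → Matrix (Fin n) (Fin n) F) × (κ → Matrix (Fin n) (Fin n) F)ᵐᵒᵖ) :
    wE n F κ ((exchInv p (κ → Matrix (Fin n) (Fin n) F)).j z) = wJ (wE n F κ z) :=
  wE_swap z.1 (unop z.2)

theorem rhoE_j {p : ℕ} [Fact p.Prime] [Algebra (ZMod p) F] (h3 : 3 ≤ n)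
    (hcop : (Nat.card F - 1).Coprime n) (q : E ⧸ N)
    (z : (κ → Matrix (Fin n) (Fin n) F) × (κ → Matrix (Fin n) (Fin n) F)ᵐᵒᵖ) :
    rhoE N θ h3 hcop q ((exchInv p (κ → Matrix (Fin n) (Fin n) F)).j z) =
      (exchInv p (κ → Matrix (Fin n) (Fin n) F)).j (rhoE N θ h3 hcop q z) := by
  apply (wE n F κ).injective
  rw [wE_rhoE, wE_j, wE_j, wE_rhoE, rhoAux_wJ]

/-- The equivariance. -/
theorem slU_equiv {p : ℕ} [Fact p.Prime] [Algebra (ZMod p) F] (h3 : 3 ≤ n)
    (hcop : (Nat.card F - 1).Coprime n) (q : E ⧸ N)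
    (u v : (exchInv p (κ → Matrix (Fin n) (Fin n) F)).U)
    (h : (v.1 : (κ → Matrix (Fin n) (Fin n) F) × (κ → Matrix (Fin n) (Fin n) F)ᵐᵒᵖ) =
      rhoE N θ h3 hcop q u.1) :
    slU hcop v = psiN N θ ((quotE N θ h3 hcop).symm q) (slU hcop u) := by
  set e := (quotE N θ h3 hcop).symm q with he
  obtain ⟨π, ε, σ, h1⟩ := e.2
  have h2 := rhoAux_unique N θ h3 e h1
  rw [ind_iff] at h1
  funext i
  obtain ⟨k, rfl⟩ := π.surjective i
  rw [h1, slU_apply, slU_apply]
  have h4 : (MulEquiv.piUnits ((exchU p _).symm v) (π k)).1 =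
      (wE n F κ (u.1 : _ × _) (k, ε k)).map (σ k) := by
    rw [coe_g, h, wE_rhoE, ← he, h2]
    have h5 : (π k, false) = wPerm π ε (k, ε k) := by
      simp [wPerm_apply]
    rw [h5, wR_apply]
  cases hε : ε k
  · rw [hε, ← coe_g] at h4
    rw [iT_false]
    exact slOf_map hcop (σ k) h4
  · rw [hε, ← coe_g_inv] at h4
    rw [iT_true, ← invT_map]
    set g := MulEquiv.piUnits ((exchU p _).symm u) k
    have h6 : (Units.map (RingHom.mapMatrix (σ k : F →+* F) :
        Matrix (Fin n) (Fin n) F →+* Matrix (Fin n) (Fin n) F).toMonoidHom g : GL (Fin n) F).1 =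
        g.1.map (σ k) := rfl
    rw [← slOf_map hcop (σ k) h6]
    apply slOf_invT
    rw [h4, ← map_inv]
    rfl

include θ in
/-- Embedding problems with kernel a power of `SL(n, F)` over rational function fields. -/
theorem solvesOver_of_sl_kernel {p : ℕ} [Fact p.Prime] [CharP F p] (h3 : 3 ≤ n)
    (hcop : (Nat.card F - 1).Coprime n) {K : Type u} [Field K] [CharP K p] :
    ∃ r : ℕ, SolvesOver K (FractionRing (MvPolynomial (Fin r) K)) (QuotientGroup.mk' N) := by
  let _ : Algebra (ZMod p) F := ZMod.algebra F p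
  have : Finite (κ → Matrix (Fin n) (Fin n) F) := by
    have : Finite (Matrix (Fin n) (Fin n) F) := inferInstanceAs (Finite (Fin n → Fin n → F))
    infer_instance
  obtain ⟨r, hr⟩ := lang_exch_emb (p := p) (κ → Matrix (Fin n) (Fin n) F) (K := K)
    (rhoE N θ h3 hcop) (rhoE_j N θ h3 hcop)
  refine ⟨r, ?_⟩
  have hcomm : ∀ q : E ⧸ N, ((nn N θ).comp (slU (p := p) hcop)).comp
      (uactU (exchInv p (κ → Matrix (Fin n) (Fin n) F)) (rhoE N θ h3 hcop)
        (rhoE_j N θ h3 hcop) q).toMonoidHom =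
      (MulAut.conj (((cmpl N θ).subtype.comp (quotE N θ h3 hcop).symm.toMonoidHom) q)).toMonoidHom.comp
        ((nn N θ).comp (slU hcop)) := by
    intro q
    ext u
    change nn N θ (slU hcop (uactU _ (rhoE N θ h3 hcop) _ q u)) =
      ((quotE N θ h3 hcop).symm q : E) * nn N θ (slU hcop u) *
        ((quotE N θ h3 hcop).symm q : E)⁻¹
    rw [← nn_psi, slU_equiv N θ h3 hcop q u _ (coe_uactU _ _ _ q u)]
  refine SolvesOver.of_surjective (SemidirectProduct.lift ((nn N θ).comp (slU (p := p) hcop))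
    ((cmpl N θ).subtype.comp (quotE N θ h3 hcop).symm.toMonoidHom) hcomm) ?_ ?_ hr
  · intro e
    obtain ⟨x, hx⟩ := cmpl_sup N θ h3 hcop e
    obtain ⟨u, hu⟩ := slU_surj (p := p) hcop x⁻¹
    refine ⟨⟨u, quotE N θ h3 hcop ⟨_, hx⟩⟩, ?_⟩
    change nn N θ (slU hcop u) * ((quotE N θ h3 hcop).symm (quotE N θ h3 hcop ⟨_, hx⟩) : E) = e
    rw [MulEquiv.symm_apply_apply, hu, map_inv, inv_mul_cancel_left]
  · rintro ⟨u, q⟩
    change QuotientGroup.mk' N (nn N θ (slU hcop u) * ((quotE N θ h3 hcop).symm q : E)) = q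
    have h1 : QuotientGroup.mk' N (nn N θ (slU hcop u)) = 1 :=
      (QuotientGroup.eq_one_iff _).mpr (nn_mem N θ _)
    rw [map_mul, h1, one_mul, ← quotE_apply N θ h3 hcop, MulEquiv.apply_symm_apply]

end

end MP7fG
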