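import Pool.Agent.Lib.MP_7f581e_ntG.SolveSL
import Pool.Agent.Lib.MP_7f581e_ntE.SpecialMv

/-!
Embedding problems over Hilbertian fields with kernel a power of `SL(n, F)`, `n ≥ 3` coprime
to `|F| - 1`.
-/

set_option autoImplicit false

universe u

namespace MP7fG

open MP7fE

/-- Embedding problems with kernel a power of `SL(n, F)` over Hilbertian fields. -/
theorem solves_of_sl_kernel {p : ℕ} [Fact p.Prime] {F : Type} [Field F] [Finite F] [CharP F p]
    {n : ℕ} (h3 : 3 ≤ n) (hcop : (Nat.card F - 1).Coprime n) {κ : Type} [Finite κ]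
    {E : Type} [Group E] [Finite E] (N : Subgroup E) [N.Normal]
    (θ : N ≃* (κ → Matrix.SpecialLinearGroup (Fin n) F))
    {K : Type u} [Field K] [CharP K p] (hK : MP7fR.IsHilbertian K) :
    Solves K (QuotientGroup.mk' N) := by
  obtain ⟨r, hr⟩ := solvesOver_of_sl_kernel N θ (p := p) h3 hcop (K := K)
  exact solves_of_mv hK _ _ hr

end MP7fG
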