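import Pool.Agent.Lib.MP_7f581e_ntG.Mu

/-!
A normal subgroup isomorphic to a power of `PSL(n, F)`, `n ≥ 3`, has a complement if
`gcd(n, q - 1)` is coprime to `(q - 1) / gcd(n, q - 1)`.
-/

set_option autoImplicit false
set_option linter.unusedSectionVars false

namespace MP7fG

open Matrix Matrix.SpecialLinearGroup MulOpposite

variable {F : Type*} [Field F] {n : ℕ} {κ : Type*}

/-- The projection of powers. -/
def mkk : (κ → SpecialLinearGroup (Fin n) F) →* (κ → ProjectiveSpecialLinearGroup (Fin n) F) where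
  toFun x := fun k => mkP n F (x k)
  map_one' := by
    funext k
    exact map_one _
  map_mul' x y := by
    funext k
    exact map_mul _ _ _

theorem mkk_apply (x : κ → SpecialLinearGroup (Fin n) F) (k : κ) : mkk x k = mkP n F (x k) := rfl

theorem mkk_surj (z : κ → ProjectiveSpecialLinearGroup (Fin n) F) :
    ∃ x : κ → SpecialLinearGroup (Fin n) F, mkk x = z := by
  choose x hx using fun k => mkP_surj (n := n) (F := F) (z k)
  exact ⟨x, funext hx⟩

/-- Transvections which agree modulo the centre are equal. -/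
theorem transvection_eq_of_mkP [NeZero n] {i j i' j' : Fin n} (h : i ≠ j) (h' : i' ≠ j') {s t : F}
    (he : mkP n F (SpecialLinearGroup.transvection h s) =
      mkP n F (SpecialLinearGroup.transvection h' t)) :
    SpecialLinearGroup.transvection h s = SpecialLinearGroup.transvection h' t := by
  obtain ⟨c, hc⟩ := mkP_eq he
  have h1 := congrFun (congrFun hc 0) 0
  have hd : ∀ {i j : Fin n} (h : i ≠ j) (s : F),
      (SpecialLinearGroup.transvection h s).1 0 0 = 1 := by
    intro i j h s
    have h2 : ¬ (i = 0 ∧ j = 0) := fun h3 => h (h3.1.trans h3.2.symm)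
    rw [transvection_coe, Matrix.add_apply, Matrix.one_apply_eq, Matrix.single_apply, if_neg h2,
      add_zero]
  rw [Matrix.smul_apply, hd, hd, smul_eq_mul, mul_one] at h1
  apply Subtype.ext
  rw [hc, ← h1, one_smul]

/-- The explicit automorphism. -/
noncomputable def wf [NeZero n] (π : Equiv.Perm κ) (ε : κ → Bool) (σ : κ → (F ≃+* F))
    (a : κ → Fˣ) (x : κ → SpecialLinearGroup (Fin n) F) : κ → SpecialLinearGroup (Fin n) F :=
  fun k => conjSL (dgl n F (a k)) (SpecialLinearGroup.map ((σ (π.symm k) : F ≃+* F) : F →+* F)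
    (iT (ε (π.symm k)) (x (π.symm k))))

theorem wf_apply [NeZero n] (π : Equiv.Perm κ) (ε : κ → Bool) (σ : κ → (F ≃+* F))
    (a : κ → Fˣ) (x : κ → SpecialLinearGroup (Fin n) F) (k : κ) :
    wf π ε σ a x (π k) = conjSL (dgl n F (a (π k)))
      (SpecialLinearGroup.map ((σ k : F ≃+* F) : F →+* F) (iT (ε k) (x k))) := by
  unfold wf
  rw [Equiv.symm_apply_apply]

theorem wRa_wInc [NeZero n] (π : Equiv.Perm κ) (ε : κ → Bool) (σ : κ → (F ≃+* F))
    (a : κ → Fˣ) (x : κ → SpecialLinearGroup (Fin n) F) :
    innR a (wR π ε σ (wInc x)) = wInc (wf π ε σ a x) := by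
  have h1 : Ind (wR (n := n) π ε σ) (fun x k => SpecialLinearGroup.map
      ((σ (π.symm k) : F ≃+* F) : F →+* F) (iT (ε (π.symm k)) (x (π.symm k)))) := by
    rw [ind_iff]
    intro x k
    simp only [Equiv.symm_apply_apply]
  rw [h1 x, innR_wInc]
  rfl

/-- The group automorphism `ψ` is given by the data. -/
def IndP [NeZero n] (π : Equiv.Perm κ) (ε : κ → Bool) (σ : κ → (F ≃+* F)) (a : κ → Fˣ)
    (ψ : (κ → ProjectiveSpecialLinearGroup (Fin n) F) →
      (κ → ProjectiveSpecialLinearGroup (Fin n) F)) : Prop :=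
  ∀ x, ψ (mkk x) = mkk (wf π ε σ a x)

theorem indP_unique [NeZero n] (h3 : 3 ≤ n) {π π' : Equiv.Perm κ} {ε ε' : κ → Bool}
    {σ σ' : κ → (F ≃+* F)} {a a' : κ → Fˣ}
    {ψ : (κ → ProjectiveSpecialLinearGroup (Fin n) F) →
      (κ → ProjectiveSpecialLinearGroup (Fin n) F)}
    (h : IndP π ε σ a ψ) (h' : IndP π' ε' σ' a' ψ) : π = π' ∧ ε = ε' ∧ σ = σ' ∧ a = a' := by
  classical
  obtain ⟨i, hi, -⟩ := exists_third h3 (0 : Fin n) 0
  obtain ⟨j, hj0, hji⟩ := exists_third h3 (0 : Fin n) i
  have hij : i ≠ j := hji.symm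
  have hk : ∀ x k, mkP n F (wf π ε σ a x k) = mkP n F (wf π' ε' σ' a' x k) := by
    intro x k
    have h1 := (h x).symm.trans (h' x)
    exact congrFun h1 k
  -- the explicit action on transvections
  have hact : ∀ (a : Fˣ) (σ : F ≃+* F) (b : Bool) {i j : Fin n} (hij : i ≠ j) (t : F),
      conjSL (dgl n F a) (SpecialLinearGroup.map (σ : F →+* F)
        (iT b (SpecialLinearGroup.transvection hij t))) =
      if b then SpecialLinearGroup.transvection hij.symm (dvec a j * σ (-t) * (dvec a i)⁻¹)
      else SpecialLinearGroup.transvection hij (dvec a i * σ t * (dvec a j)⁻¹) := by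
    intro a σ b i j hij t
    cases b
    · rw [iT_false, map_transvection, conjSL_transvection]
      rfl
    · rw [iT_true, invT_transvection, map_transvection, conjSL_transvection]
      rfl
  have hπ : π = π' := by
    ext k
    by_contra hne
    obtain ⟨k', hk'⟩ := π'.surjective (π k)
    have hkk : k' ≠ k := fun h => hne (by rw [← hk', h])
    let A : SpecialLinearGroup (Fin n) F := SpecialLinearGroup.transvection hij (1 : F)
    have h1 := hk (Pi.mulSingle k A) (π k)
    rw [wf_apply, ← hk', wf_apply, Pi.mulSingle_eq_same, Pi.mulSingle_eq_of_ne hkk, map_one,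
      map_one, map_one, map_one, hact, mkP_eq_one] at h1
    have hz : ∀ x y : F, x ≠ 0 → y ≠ 0 → x * y ≠ 0 := fun x y hx hy => mul_ne_zero hx hy
    split_ifs at h1
    · rw [transvection_mem_center_iff] at h1
      refine mul_ne_zero (mul_ne_zero (dvec_ne _ _) ?_) (inv_ne_zero (dvec_ne _ _)) h1
      rw [map_neg, map_one]
      exact neg_ne_zero.mpr one_ne_zero
    · rw [transvection_mem_center_iff] at h1
      refine mul_ne_zero (mul_ne_zero (dvec_ne _ _) ?_) (inv_ne_zero (dvec_ne _ _)) h1
      rw [map_one]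
      exact one_ne_zero
  subst hπ
  have h4 : ∀ k, ε k = ε' k ∧ σ k = σ' k ∧ a (π k) = a' (π k) := by
    intro k
    have h5 : ∀ {i j : Fin n} (hij : i ≠ j) (t : F),
        (if ε k then SpecialLinearGroup.transvection hij.symm
            (dvec (a (π k)) j * σ k (-t) * (dvec (a (π k)) i)⁻¹)
          else SpecialLinearGroup.transvection hij
            (dvec (a (π k)) i * σ k t * (dvec (a (π k)) j)⁻¹)) =
        (if ε' k then SpecialLinearGroup.transvection hij.symm
            (dvec (a' (π k)) j * σ' k (-t) * (dvec (a' (π k)) i)⁻¹)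
          else SpecialLinearGroup.transvection hij
            (dvec (a' (π k)) i * σ' k t * (dvec (a' (π k)) j)⁻¹)) := by
      intro i j hij t
      have h6 := hk (fun _ => SpecialLinearGroup.transvection hij t) (π k)
      rw [wf_apply, wf_apply, hact, hact] at h6
      split_ifs at h6 ⊢ <;> exact transvection_eq_of_mkP _ _ h6
    have hε : ε k = ε' k := by
      by_contra hne
      have h6 := h5 hij 1
      have h7 : ∀ {i j : Fin n} (hij : i ≠ j) {s t : F}, s ≠ 0 →
          SpecialLinearGroup.transvection hij s ≠ SpecialLinearGroup.transvection hij.symm t := by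
        intro i j hij s t hs he
        have h8 := congrFun (congrFun (congrArg Subtype.val he) i) j
        have h9 : ¬ (j = i ∧ i = j) := fun h => hij h.2
        rw [transvection_coe, transvection_coe, Matrix.add_apply, Matrix.add_apply,
          Matrix.single_apply_same, Matrix.single_apply, if_neg h9, add_right_inj] at h8
        exact hs h8
      cases hε1 : ε k <;> cases hε2 : ε' k
      · exact hne (by rw [hε1, hε2])
      · rw [hε1, hε2] at h6
        simp only [if_true, if_false, Bool.false_eq_true] at h6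
        refine h7 hij ?_ h6
        rw [map_one, mul_one]
        exact mul_ne_zero (dvec_ne _ _) (inv_ne_zero (dvec_ne _ _))
      · rw [hε1, hε2] at h6
        simp only [if_true, if_false, Bool.false_eq_true] at h6
        refine h7 hij ?_ h6.symm
        rw [map_one, mul_one]
        exact mul_ne_zero (dvec_ne _ _) (inv_ne_zero (dvec_ne _ _))
      · exact hne (by rw [hε1, hε2])
    refine ⟨hε, ?_, ?_⟩
    · ext t
      have h6 := h5 hij t
      rw [← hε, dvec_of_ne _ hi, dvec_of_ne _ hj0, dvec_of_ne _ hi, dvec_of_ne _ hj0] at h6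
      cases hε1 : ε k
      · rw [hε1] at h6
        simp only [if_false, Bool.false_eq_true, one_mul, inv_one, mul_one] at h6
        exact transvection_inj _ h6
      · rw [hε1] at h6
        simp only [if_true, one_mul, inv_one, mul_one, map_neg] at h6
        exact neg_injective (transvection_inj _ h6)
    · have h6 := h5 hi.symm 1
      rw [← hε, dvec_of_ne _ hi, dvec_of_ne _ hi, dvec_zero, dvec_zero] at h6
      cases hε1 : ε k
      · rw [hε1] at h6
        simp only [if_false, Bool.false_eq_true, one_mul, inv_one, mul_one, map_one] at h6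
        exact Units.ext (transvection_inj _ h6)
      · rw [hε1] at h6
        simp only [if_true, one_mul, map_neg, map_one] at h6
        have h7 := transvection_inj _ h6
        have h8 : ((a (π k) : Fˣ) : F)⁻¹ = ((a' (π k) : Fˣ) : F)⁻¹ := by
          linear_combination -h7
        exact Units.ext (inv_injective h8)
  have hε : ε = ε' := funext fun k => (h4 k).1
  have hσ : σ = σ' := funext fun k => (h4 k).2.1
  have ha : a = a' := by
    funext k
    obtain ⟨k, rfl⟩ := π.surjective k
    exact (h4 k).2.2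
  exact ⟨rfl, hε, hσ, ha⟩

section

variable {E : Type*} [Group E] (N : Subgroup E) [hN : N.Normal]
  (θ : N ≃* (κ → ProjectiveSpecialLinearGroup (Fin n) F))

/-- The automorphism given by conjugation. -/
def psiP (e : E) : (κ → ProjectiveSpecialLinearGroup (Fin n) F) ≃*
    (κ → ProjectiveSpecialLinearGroup (Fin n) F) :=
  (θ.symm.trans (MulAut.conjNormal e)).trans θ

theorem psiP_apply (e : E) (z : κ → ProjectiveSpecialLinearGroup (Fin n) F) :
    psiP N θ e z = θ (MulAut.conjNormal e (θ.symm z)) := rfl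

theorem psiP_one : psiP N θ 1 = MulEquiv.refl _ := by
  ext1 z
  rw [psiP_apply, map_one, MulAut.one_apply, MulEquiv.apply_symm_apply]
  rfl

theorem psiP_mul (e f : E) : psiP N θ (e * f) = (psiP N θ f).trans (psiP N θ e) := by
  ext1 z
  rw [MulEquiv.trans_apply, psiP_apply, psiP_apply, psiP_apply, map_mul, MulAut.mul_apply,
    MulEquiv.symm_apply_apply]

/-- The projection to `N`. -/
def nP : (κ → SpecialLinearGroup (Fin n) F) →* E :=
  ((Subgroup.subtype N).comp θ.symm.toMonoidHom).comp mkk

theorem nP_mem (x : κ → SpecialLinearGroup (Fin n) F) : nP N θ x ∈ N := (θ.symm (mkk x)).2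

theorem nP_surj {e : E} (he : e ∈ N) : ∃ x, nP N θ x = e := by
  obtain ⟨x, hx⟩ := mkk_surj (θ ⟨e, he⟩)
  refine ⟨x, ?_⟩
  change (θ.symm (mkk x) : E) = e
  rw [hx, MulEquiv.symm_apply_apply]

theorem nP_eq {x y : κ → SpecialLinearGroup (Fin n) F} (h : mkk x = mkk y) :
    nP N θ x = nP N θ y := by
  change (θ.symm (mkk x) : E) = (θ.symm (mkk y) : E)
  rw [h]

theorem nP_psi {e : E} {x y : κ → SpecialLinearGroup (Fin n) F}
    (h : mkk y = psiP N θ e (mkk x)) : nP N θ y = e * nP N θ x * e⁻¹ := by
  change (θ.symm (mkk y) : E) = e * (θ.symm (mkk x) : E) * e⁻¹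
  rw [h, psiP_apply, MulEquiv.symm_apply_apply, MulAut.conjNormal_apply]

theorem psiP_nP (x : κ → SpecialLinearGroup (Fin n) F)
    (z : κ → ProjectiveSpecialLinearGroup (Fin n) F) :
    psiP N θ (nP N θ x) z = mkk x * z * (mkk x)⁻¹ := by
  apply θ.symm.injective
  rw [psiP_apply, MulEquiv.symm_apply_apply, map_mul, map_mul, map_inv]
  apply Subtype.ext
  rw [MulAut.conjNormal_apply]
  rfl

/-- Data of an element of the complement. -/
structure PData (n : ℕ) (F : Type*) [Field F] (κ : Type*) where
  π : Equiv.Perm κ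
  ε : κ → Bool
  σ : κ → (F ≃+* F)
  a : κ → Fˣ
  ha : ∀ k, a k ^ (Nat.gcd n (Nat.card Fˣ)) = 1

/-- The data of a product. -/
def PData.mul (d d' : PData n F κ) : PData n F κ where
  π := d'.π.trans d.π
  ε := fun k => xor (d.ε (d'.π k)) (d'.ε k)
  σ := fun k => (d'.σ k).trans (d.σ (d'.π k))
  a := d.a * wA d.π d.ε d.σ d'.a
  ha k := by
    rw [Pi.mul_apply, mul_pow, d.ha, one_mul]
    unfold wA
    rw [← map_pow, sgn_pow, d'.ha, sgn_one, map_one]

/-- The trivial data. -/
def PData.one : PData n F κ where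
  π := Equiv.refl κ
  ε := fun _ => false
  σ := fun _ => RingEquiv.refl F
  a := 1
  ha _ := one_pow _

/-- The ring automorphism given by the data. -/
noncomputable def PData.R [NeZero n] (d : PData n F κ) :
    (κ × Bool → Matrix (Fin n) (Fin n) F) ≃+* (κ × Bool → Matrix (Fin n) (Fin n) F) :=
  (wR d.π d.ε d.σ).trans (innR d.a)

theorem PData.R_apply [NeZero n] (d : PData n F κ) (z : κ × Bool → Matrix (Fin n) (Fin n) F) :
    d.R z = innR d.a (wR d.π d.ε d.σ z) := rfl

theorem PData.R_mul [NeZero n] (d d' : PData n F κ) (z : κ × Bool → Matrix (Fin n) (Fin n) F) :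
    (d.mul d').R z = d.R (d'.R z) := by
  rw [R_apply, R_apply, R_apply, wR_innR, ← innR_mul]
  congr 1
  change wR (d'.π.trans d.π) _ _ z = (wR d'.π d'.ε d'.σ).trans (wR d.π d.ε d.σ) z
  rw [wR_comp]
  rfl

theorem PData.R_one [NeZero n] (z : κ × Bool → Matrix (Fin n) (Fin n) F) :
    (PData.one : PData n F κ).R z = z := by
  rw [R_apply]
  change innR 1 (wR (Equiv.refl κ) (fun _ => false) (fun _ => RingEquiv.refl F) z) = z
  rw [innR_one, wR_one]
  rfl

theorem PData.R_wInc [NeZero n] (d : PData n F κ) (x : κ → SpecialLinearGroup (Fin n) F) :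
    d.R (wInc x) = wInc (wf d.π d.ε d.σ d.a x) := wRa_wInc _ _ _ _ _

theorem PData.R_wJ [NeZero n] (d : PData n F κ) (z : κ × Bool → Matrix (Fin n) (Fin n) F) :
    d.R (wJ z) = wJ (d.R z) := by
  rw [R_apply, R_apply, wR_wJ, innR_wJ]

/-- The group automorphism is given by the data. -/
def PData.Is [NeZero n] (d : PData n F κ) (ψ : (κ → ProjectiveSpecialLinearGroup (Fin n) F) →
    (κ → ProjectiveSpecialLinearGroup (Fin n) F)) : Prop :=
  IndP d.π d.ε d.σ d.a ψ

theorem PData.Is.mul [NeZero n] {d d' : PData n F κ}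
    {ψ ψ' : (κ → ProjectiveSpecialLinearGroup (Fin n) F) →
      (κ → ProjectiveSpecialLinearGroup (Fin n) F)} (h : d.Is ψ) (h' : d'.Is ψ') :
    (d.mul d').Is (fun z => ψ (ψ' z)) := by
  intro x
  change ψ (ψ' (mkk x)) = _
  rw [h' x, h _]
  congr 1
  apply wInc_inj
  have h1 := (d.mul d').R_wInc x
  rw [PData.R_mul, PData.R_wInc, PData.R_wInc] at h1
  exact h1

theorem PData.Is.one [NeZero n] : (PData.one : PData n F κ).Is (fun z => z) := by
  intro x
  refine congrArg mkk ?_
  apply wInc_inj
  have h1 := (PData.one : PData n F κ).R_wInc x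
  rw [PData.R_one] at h1
  exact h1

theorem PData.Is.unique [NeZero n] (h3 : 3 ≤ n) {d d' : PData n F κ}
    {ψ : (κ → ProjectiveSpecialLinearGroup (Fin n) F) →
      (κ → ProjectiveSpecialLinearGroup (Fin n) F)} (h : d.Is ψ) (h' : d'.Is ψ) : d = d' := by
  obtain ⟨h1, h2, h3, h4⟩ := indP_unique h3 h h'
  cases d
  cases d'
  simp only at h1 h2 h3 h4
  subst h1
  subst h2
  subst h3
  subst h4
  rfl

/-- The complement, as a submonoid. -/
def cmplP0 [NeZero n] : Submonoid E where
  carrier := {e | ∃ d : PData n F κ, d.Is (psiP N θ e)}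
  one_mem' := ⟨PData.one, by
    rw [psiP_one]
    exact PData.Is.one⟩
  mul_mem' := by
    rintro e f ⟨d, h1⟩ ⟨d', h2⟩
    refine ⟨d.mul d', ?_⟩
    rw [psiP_mul]
    exact h1.mul h2

/-- The complement. -/
def cmplP [NeZero n] [Finite E] : Subgroup E where
  toSubmonoid := cmplP0 N θ
  inv_mem' := by
    intro e he
    have h1 : e⁻¹ = e ^ (orderOf e - 1) := by
      symm
      apply eq_inv_of_mul_eq_one_left
      rw [← pow_succ, Nat.sub_add_cancel (orderOf_pos e), pow_orderOf_eq_one]
    rw [h1]
    exact Submonoid.pow_mem _ he _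

theorem mem_cmplP [NeZero n] [Finite E] {e : E} :
    e ∈ cmplP N θ ↔ ∃ d : PData n F κ, d.Is (psiP N θ e) := Iff.rfl

/-- The data of an element of the complement. -/
noncomputable def pd [NeZero n] [Finite E] (e : cmplP N θ) : PData n F κ := Classical.choose e.2

theorem pd_is [NeZero n] [Finite E] (e : cmplP N θ) : (pd N θ e).Is (psiP N θ e) :=
  Classical.choose_spec e.2

/-- The action of the complement. -/
noncomputable def rhoP [NeZero n] [Finite E] (h3 : 3 ≤ n) :
    cmplP N θ →* RingAut (κ × Bool → Matrix (Fin n) (Fin n) F) where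
  toFun e := (pd N θ e).R
  map_one' := by
    have h1 : pd N θ 1 = PData.one := by
      refine (pd_is N θ 1).unique h3 ?_
      change PData.one.Is (psiP N θ 1)
      rw [psiP_one]
      exact PData.Is.one
    rw [h1]
    ext1 z
    exact PData.R_one z
  map_mul' e f := by
    have h1 : pd N θ (e * f) = (pd N θ e).mul (pd N θ f) := by
      refine (pd_is N θ (e * f)).unique h3 ?_
      change PData.Is _ (psiP N θ (e * f))
      rw [psiP_mul]
      exact (pd_is N θ e).mul (pd_is N θ f)
    rw [h1]
    ext1 z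
    exact PData.R_mul _ _ z

theorem rhoP_apply [NeZero n] [Finite E] (h3 : 3 ≤ n) (e : cmplP N θ)
    (z : κ × Bool → Matrix (Fin n) (Fin n) F) : rhoP N θ h3 e z = (pd N θ e).R z := rfl

end

end MP7fG
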