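import Pool.Agent.Lib.MP_7f581e_ntG.WAut
import Pool.Agent.Lib.MP_7f581e_ntG.Pow

/-!
A normal subgroup isomorphic to a power of `SL(n, F)` has a complement, if `n ≥ 3` is coprime
to `|F| - 1`; the complement acts on the exchange algebra.
-/

set_option autoImplicit false
set_option linter.unusedSectionVars false

namespace MP7fG

open Matrix Matrix.SpecialLinearGroup MulOpposite

variable {F : Type*} [Field F] {n : ℕ} {κ : Type*}

section

variable {E : Type*} [Group E] (N : Subgroup E) [hN : N.Normal]
  (θ : N ≃* (κ → SpecialLinearGroup (Fin n) F))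

/-- The automorphism given by conjugation. -/
def psiN (e : E) : (κ → SpecialLinearGroup (Fin n) F) ≃* (κ → SpecialLinearGroup (Fin n) F) :=
  (θ.symm.trans (MulAut.conjNormal e)).trans θ

theorem psiN_apply (e : E) (z : κ → SpecialLinearGroup (Fin n) F) :
    psiN N θ e z = θ (MulAut.conjNormal e (θ.symm z)) := rfl

theorem psiN_one : psiN N θ 1 = MulEquiv.refl _ := by
  ext1 z
  rw [psiN_apply, map_one, MulAut.one_apply, MulEquiv.apply_symm_apply]
  rfl

theorem psiN_mul (e f : E) : psiN N θ (e * f) = (psiN N θ f).trans (psiN N θ e) := by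
  ext1 z
  rw [MulEquiv.trans_apply, psiN_apply, psiN_apply, psiN_apply, map_mul, MulAut.mul_apply,
    MulEquiv.symm_apply_apply]

/-- The inclusion. -/
def nn : (κ → SpecialLinearGroup (Fin n) F) →* E :=
  (Subgroup.subtype N).comp θ.symm.toMonoidHom

theorem nn_mem (x : κ → SpecialLinearGroup (Fin n) F) : nn N θ x ∈ N := (θ.symm x).2

theorem nn_surj {e : E} (he : e ∈ N) : ∃ x, nn N θ x = e := by
  refine ⟨θ ⟨e, he⟩, ?_⟩
  change (θ.symm (θ ⟨e, he⟩) : E) = e
  rw [MulEquiv.symm_apply_apply]

theorem nn_psi (e : E) (x : κ → SpecialLinearGroup (Fin n) F) :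
    nn N θ (psiN N θ e x) = e * nn N θ x * e⁻¹ := by
  change (θ.symm (psiN N θ e x) : E) = e * (θ.symm x : E) * e⁻¹
  rw [psiN_apply, MulEquiv.symm_apply_apply, MulAut.conjNormal_apply]

theorem psiN_nn (x z : κ → SpecialLinearGroup (Fin n) F) :
    psiN N θ (nn N θ x) z = x * z * x⁻¹ := by
  apply θ.symm.injective
  rw [psiN_apply, MulEquiv.symm_apply_apply, map_mul, map_mul, map_inv]
  apply Subtype.ext
  rw [MulAut.conjNormal_apply]
  rfl

/-- The complement, as a submonoid. -/
def cmpl0 : Submonoid E where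
  carrier := {e | ∃ (π : Equiv.Perm κ) (ε : κ → Bool) (σ : κ → (F ≃+* F)),
    Ind (wR π ε σ) (psiN N θ e)}
  one_mem' := by
    refine ⟨Equiv.refl κ, fun _ => false, fun _ => RingEquiv.refl F, ?_⟩
    rw [psiN_one, wR_one]
    intro x
    rfl
  mul_mem' := by
    rintro e f ⟨π, ε, σ, h1⟩ ⟨π', ε', σ', h2⟩
    refine ⟨π'.trans π, fun k => xor (ε (π' k)) (ε' k), fun k => (σ' k).trans (σ (π' k)), ?_⟩
    rw [psiN_mul, ← wR_comp]
    intro x
    rw [RingEquiv.trans_apply, h2, h1]
    rfl

/-- The complement. -/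
def cmpl [Finite E] : Subgroup E where
  toSubmonoid := cmpl0 N θ
  inv_mem' := by
    intro e he
    have h1 : e⁻¹ = e ^ (orderOf e - 1) := by
      symm
      apply eq_inv_of_mul_eq_one_left
      rw [← pow_succ, Nat.sub_add_cancel (orderOf_pos e), pow_orderOf_eq_one]
    rw [h1]
    exact Submonoid.pow_mem _ he _

theorem mem_cmpl [Finite E] {e : E} :
    e ∈ cmpl N θ ↔ ∃ (π : Equiv.Perm κ) (ε : κ → Bool) (σ : κ → (F ≃+* F)),
      Ind (wR π ε σ) (psiN N θ e) := Iff.rfl

/-- The action of an element of the complement. -/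
noncomputable def rhoAux [Finite E] (e : cmpl N θ) :
    RingAut (κ × Bool → Matrix (Fin n) (Fin n) F) :=
  wR (Classical.choose e.2) (Classical.choose (Classical.choose_spec e.2))
    (Classical.choose (Classical.choose_spec (Classical.choose_spec e.2)))

theorem rhoAux_ind [Finite E] (e : cmpl N θ) : Ind (rhoAux N θ e) (psiN N θ e) :=
  Classical.choose_spec (Classical.choose_spec (Classical.choose_spec e.2))

theorem rhoAux_wJ [Finite E] (e : cmpl N θ) (z : κ × Bool → Matrix (Fin n) (Fin n) F) :
    rhoAux N θ e (wJ z) = wJ (rhoAux N θ e z) := wR_wJ _ _ _ z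

theorem rhoAux_unique [Finite E] (h3 : 3 ≤ n) (e : cmpl N θ) {π : Equiv.Perm κ} {ε : κ → Bool}
    {σ : κ → (F ≃+* F)} (h : Ind (wR π ε σ) (psiN N θ e)) : rhoAux N θ e = wR π ε σ :=
  wR_unique h3 (rhoAux_ind N θ e) h

/-- The action of the complement. -/
noncomputable def rhoW [Finite E] (h3 : 3 ≤ n) :
    cmpl N θ →* RingAut (κ × Bool → Matrix (Fin n) (Fin n) F) where
  toFun e := rhoAux N θ e
  map_one' := by
    have h1 : rhoAux N θ 1 = wR (Equiv.refl κ) (fun _ => false) (fun _ => RingEquiv.refl F) := by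
      apply rhoAux_unique N θ h3
      rw [wR_one]
      change Ind _ (psiN N θ 1)
      rw [psiN_one]
      intro x
      rfl
    rw [h1, wR_one]
    rfl
  map_mul' e f := by
    obtain ⟨π, ε, σ, h1⟩ := e.2
    obtain ⟨π', ε', σ', h2⟩ := f.2
    rw [rhoAux_unique N θ h3 e h1, rhoAux_unique N θ h3 f h2]
    change _ = (wR π' ε' σ').trans (wR π ε σ)
    rw [wR_comp]
    apply rhoAux_unique N θ h3
    change Ind _ (psiN N θ (e * f))
    rw [psiN_mul, ← wR_comp]
    intro x
    rw [RingEquiv.trans_apply, h2, h1]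
    rfl

theorem cmpl_disj [Finite E] [Finite F] (h3 : 3 ≤ n) (hcop : (Nat.card F - 1).Coprime n)
    {e : E} (he : e ∈ N) (h : e ∈ cmpl N θ) : e = 1 := by
  classical
  obtain ⟨x, rfl⟩ := nn_surj N θ he
  obtain ⟨π, ε, σ, h1⟩ := (mem_cmpl N θ).mp h
  rw [ind_iff] at h1
  simp only [psiN_nn] at h1
  have hn0 : 0 < n := by omega
  obtain ⟨j0, hj0, -⟩ := exists_third h3 (⟨0, hn0⟩ : Fin n) ⟨0, hn0⟩
  have hπ : ∀ k, π k = k := by
    intro k
    by_contra hne
    let A : SpecialLinearGroup (Fin n) F := SpecialLinearGroup.transvection hj0 (1 : F)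
    have h2 := h1 (Pi.mulSingle (π k) A) k
    rw [Pi.mulSingle_eq_of_ne (Ne.symm hne), map_one, map_one] at h2
    have h4 : x (π k) * A * (x (π k))⁻¹ = 1 := by
      rw [← h2, Pi.mul_apply, Pi.mul_apply, Pi.mulSingle_eq_same, Pi.inv_apply]
    have h5 : A = SpecialLinearGroup.transvection hj0 (0 : F) := by
      rw [transvection_coeff_zero]
      have : A = (x (π k))⁻¹ * (x (π k) * A * (x (π k))⁻¹) * x (π k) := by group
      rw [this, h4]
      group
    exact one_ne_zero (transvection_inj hj0 h5)
  have h2 : ∀ k (A : SpecialLinearGroup (Fin n) F), x k * A =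
      SpecialLinearGroup.map (σ k : F →+* F) (iT (ε k) A) * x k := by
    intro k A
    have h4 := h1 (fun _ => A) k
    rw [hπ k] at h4
    rw [← h4]
    change x k * A = (x k * A * (x k)⁻¹) * x k
    group
  have hx : x = 1 := by
    funext k
    have hmap : ∀ (i j : Fin n) (hij : i ≠ j) (t : F),
        (SpecialLinearGroup.map (σ k : F →+* F) (SpecialLinearGroup.transvection hij t)).1 =
        1 + single i j (σ k t) := by
      intro i j hij t
      rw [← map_coe, transvection_coe]
      ext a b
      rw [Matrix.map_apply, Matrix.add_apply, Matrix.add_apply, map_add, Matrix.one_apply,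
        Matrix.single_apply, Matrix.single_apply]
      congr 1
      · split_ifs
        · exact map_one _
        · exact map_zero _
      · split_ifs
        · rfl
        · exact map_zero _
    cases hε : ε k
    · have hcomm : ∀ i j : Fin n, i ≠ j → Commute (single i j (1 : F)) (x k).1 := by
        intro i j hij
        have h4 := congrArg Subtype.val (h2 k (SpecialLinearGroup.transvection hij 1))
        rw [hε, iT_false, coe_mul, coe_mul, hmap, map_one, transvection_coe, mul_add, add_mul,
          mul_one, one_mul] at h4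
        exact (add_left_cancel h4).symm
      obtain ⟨r, hr⟩ := mem_range_scalar_of_commute_single (M := (x k).1)
        (fun i j hij => hcomm i j hij)
      have h5 : r ^ n = 1 := by
        have := (x k).2
        rw [← hr, Matrix.scalar_apply, Matrix.det_diagonal, Finset.prod_const, Finset.card_univ,
          Fintype.card_fin] at this
        exact this
      rw [scalar_eq_one hcop (by omega) h5, map_one] at hr
      exact Subtype.ext hr.symm
    · exfalso
      have hcomm : ∀ i j : Fin n, i ≠ j →
          (x k).1 * single i j (1 : F) = single j i (-1) * (x k).1 := by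
        intro i j hij
        have h4 := congrArg Subtype.val (h2 k (SpecialLinearGroup.transvection hij 1))
        rw [hε, iT_true, invT_transvection, coe_mul, coe_mul, hmap, map_neg, map_one,
          transvection_coe, mul_add, add_mul, mul_one, one_mul] at h4
        exact add_left_cancel h4
      have hzero : (x k).1 = 0 := by
        ext a i
        obtain ⟨j, hji, hja⟩ := exists_third h3 i a
        have h4 := congrFun (congrFun (hcomm i j hji.symm) a) j
        rw [mul_single_apply_same, single_mul_apply_of_ne _ _ _ _ _ hja.symm, mul_one] at h4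
        exact h4
      have h6 := (x k).2
      have : Nonempty (Fin n) := ⟨⟨0, hn0⟩⟩
      rw [hzero, Matrix.det_zero] at h6
      exact zero_ne_one h6
  rw [hx, map_one]

theorem cmpl_sup [Finite E] [Finite F] [Finite κ] (h3 : 3 ≤ n)
    (hcop : (Nat.card F - 1).Coprime n) (e : E) : ∃ x, nn N θ x * e ∈ cmpl N θ := by
  obtain ⟨π, g, σ, ε, h⟩ := aut_sl_pow hcop h3 (psiN N θ e)
  refine ⟨fun i => (slOf hcop (g (π.symm i)))⁻¹, (mem_cmpl N θ).mpr ⟨π, ε, σ, ?_⟩⟩
  rw [ind_iff]
  intro x k
  rw [psiN_mul, MulEquiv.trans_apply, psiN_nn]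
  have h1 : psiN N θ e x (π k) = slOf hcop (g k) * SpecialLinearGroup.map (σ k : F →+* F)
      (iT (ε k) (x k)) * (slOf hcop (g k))⁻¹ := by
    apply toGL_injective
    rw [h, conj_slOf]
    cases ε k <;> rfl
  change (slOf hcop (g (π.symm (π k))))⁻¹ * psiN N θ e x (π k) *
    ((slOf hcop (g (π.symm (π k))))⁻¹)⁻¹ = _
  rw [Equiv.symm_apply_apply, h1]
  group

end

end MP7fG
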