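import Mathlib

/-!
The upper unitriangular group is a Sylow subgroup of `SL(n, F)`, and its centre.
-/

set_option autoImplicit false

namespace MP7fG

open Matrix Matrix.SpecialLinearGroup

variable {F : Type*} [Field F] {n : ℕ}

/-- The upper unitriangular matrices, as a submonoid. -/
def utm (n : ℕ) (F : Type*) [Field F] : Submonoid (SpecialLinearGroup (Fin n) F) where
  carrier := {A | ∀ i j, j ≤ i → A.1 i j = if i = j then 1 else 0}
  one_mem' := by
    intro i j _
    simp [Matrix.one_apply]
  mul_mem' := by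
    intro A B hA hB i j hij
    simp only [Set.mem_setOf_eq] at hA hB
    have h1 : (A * B).1 i j = ∑ k, A.1 i k * B.1 k j := by
      rw [coe_mul, Matrix.mul_apply]
    rw [h1, Finset.sum_eq_single i]
    · rw [hA i i le_rfl, if_pos rfl, one_mul, hB i j hij]
    · intro k _ hk
      rcases lt_or_gt_of_ne hk with h | h
      · rw [hA i k h.le, if_neg (fun h' => hk h'.symm), zero_mul]
      · rw [hB k j (hij.trans h.le), if_neg (by rintro rfl; exact absurd hij (not_le.mpr h)),
          mul_zero]
    · intro h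
      exact absurd (Finset.mem_univ _) h

/-- The upper unitriangular group. -/
def ut (n : ℕ) (F : Type*) [Field F] [Finite F] : Subgroup (SpecialLinearGroup (Fin n) F) where
  toSubmonoid := utm n F
  inv_mem' := by
    intro e he
    have h1 : e⁻¹ = e ^ (orderOf e - 1) := by
      symm
      apply eq_inv_of_mul_eq_one_left
      rw [← pow_succ, Nat.sub_add_cancel (orderOf_pos e), pow_orderOf_eq_one]
    rw [h1]
    exact Submonoid.pow_mem _ he _

theorem mem_ut [Finite F] {A : SpecialLinearGroup (Fin n) F} :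
    A ∈ ut n F ↔ ∀ i j, j ≤ i → A.1 i j = if i = j then 1 else 0 := Iff.rfl

/-- The matrix with given entries above the diagonal. -/
def umat (f : (j : Fin n) → (Fin j.val → F)) : Matrix (Fin n) (Fin n) F :=
  fun i j => if h : i < j then f j ⟨i.val, h⟩ else if i = j then 1 else 0

theorem umat_det (f : (j : Fin n) → (Fin j.val → F)) : (umat f).det = 1 := by
  rw [Matrix.det_of_upperTriangular]
  · apply Finset.prod_eq_one
    intro i _
    simp [umat]
  · intro i j hij
    have : ¬ i < j := not_lt.mpr hij.le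
    have h2 : i ≠ j := fun h => absurd hij (by simp [h])
    simp [umat, this, h2]

/-- The unitriangular matrices as functions. -/
def utEquiv (n : ℕ) (F : Type*) [Field F] [Finite F] :
    ut n F ≃ ((j : Fin n) → (Fin j.val → F)) where
  toFun A := fun j i => A.1.1 ⟨i.val, i.2.trans j.2⟩ j
  invFun f := ⟨⟨umat f, umat_det f⟩, by
    intro i j hij
    have : ¬ i < j := not_lt.mpr hij
    simp [umat, this]⟩
  left_inv A := by
    apply Subtype.ext
    apply Subtype.ext
    ext i j
    simp only [umat]
    split_ifs with h1 h2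
    · rfl
    · rw [h2, mem_ut.mp A.2 j j le_rfl, if_pos rfl]
    · rw [mem_ut.mp A.2 i j (not_lt.mp h1), if_neg h2]
  right_inv f := by
    funext j i
    have : (⟨i.val, i.2.trans j.2⟩ : Fin n) < j := i.2
    simp [umat, this]

theorem card_ut [Finite F] : Nat.card (ut n F) = ∏ j : Fin n, Nat.card F ^ j.val := by
  rw [Nat.card_congr (utEquiv n F), Nat.card_pi]
  apply Finset.prod_congr rfl
  intro j _
  rw [Nat.card_fun, Nat.card_fin]

theorem card_GL_eq [Finite F] : ∃ m, Nat.card (GL (Fin n) F) = Nat.card (ut n F) * m ∧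
    ∀ p : ℕ, p.Prime → CharP F p → ¬ p ∣ m := by
  have := Fintype.ofFinite F
  refine ⟨∏ i : Fin n, (Nat.card F ^ (n - i.val) - 1), ?_, ?_⟩
  · rw [Matrix.card_GL_field, card_ut, ← Finset.prod_mul_distrib]
    apply Finset.prod_congr rfl
    intro i _
    rw [Nat.mul_sub, mul_one, ← pow_add, Nat.card_eq_fintype_card]
    congr 2
    omega
  · intro p hp hc hdvd
    rw [hp.prime.dvd_finset_prod_iff] at hdvd
    obtain ⟨i, -, hi⟩ := hdvd
    have h1 : p ∣ Nat.card F := by
      have : Fact p.Prime := ⟨hp⟩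
      obtain ⟨k, hk⟩ := FiniteField.card F p
      rw [Nat.card_eq_fintype_card, hk.2]
      exact dvd_pow_self p k.ne_zero
    have h2 : p ∣ Nat.card F ^ (n - i.val) := dvd_pow h1 (by omega)
    have h3 : 1 ≤ Nat.card F ^ (n - i.val) := Nat.one_le_iff_ne_zero.mpr
      (pow_ne_zero _ Nat.card_pos.ne')
    have h4 : p ∣ 1 := by
      have := (Nat.dvd_sub h2 hi)
      rwa [Nat.sub_sub_self h3] at this
    exact hp.one_lt.ne' (Nat.dvd_one.mp h4)

theorem not_dvd_index_ut [Finite F] {p : ℕ} [hp : Fact p.Prime] [CharP F p] :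
    ¬ p ∣ (ut n F).index := by
  obtain ⟨m, hm, hpm⟩ := card_GL_eq (F := F) (n := n)
  have h1 : Nat.card (ut n F) * (ut n F).index = Nat.card (SpecialLinearGroup (Fin n) F) :=
    Subgroup.card_mul_index _
  have h2 : Nat.card (SpecialLinearGroup (Fin n) F) ∣ Nat.card (GL (Fin n) F) := by
    have h3 : Function.Injective (Matrix.SpecialLinearGroup.toGL : _ →* GL (Fin n) F) :=
      Matrix.SpecialLinearGroup.toGL_injective
    exact Subgroup.card_dvd_of_injective _ h3
  intro hd
  obtain ⟨l, hl⟩ := h2
  rw [hm, ← h1, mul_assoc] at hl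
  have h4 : m = (ut n F).index * l := Nat.eq_of_mul_eq_mul_left Nat.card_pos hl
  exact hpm p hp.out inferInstance (h4 ▸ hd.mul_right l)

theorem isPGroup_ut [Finite F] {p : ℕ} [hp : Fact p.Prime] [CharP F p] : IsPGroup p (ut n F) := by
  have := Fintype.ofFinite F
  obtain ⟨k, hk⟩ := FiniteField.card F p
  have h1 : Nat.card (ut n F) = p ^ (∑ j : Fin n, k * j.val) := by
    rw [card_ut, Nat.card_eq_fintype_card, hk.2, ← Finset.prod_pow_eq_pow_sum]
    apply Finset.prod_congr rfl
    intro j _
    rw [pow_mul]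
  exact IsPGroup.of_card h1

/-- An automorphism can be corrected such that it preserves the unitriangular group. -/
theorem exists_conj_ut [Finite F] {p : ℕ} [hp : Fact p.Prime] [CharP F p]
    (α : SpecialLinearGroup (Fin n) F ≃* SpecialLinearGroup (Fin n) F) :
    ∃ g : SpecialLinearGroup (Fin n) F, ∀ A, A ∈ ut n F ↔ g⁻¹ * α A * g ∈ ut n F := by
  let P : Sylow p (SpecialLinearGroup (Fin n) F) := isPGroup_ut.toSylow not_dvd_index_ut
  have hQ1 : IsPGroup p ((ut n F).map α.toMonoidHom) := (isPGroup_ut (p := p)).map _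
  have hQ2 : ¬ p ∣ ((ut n F).map α.toMonoidHom).index := by
    have : ((ut n F).map α.toMonoidHom).index = (ut n F).index := by
      rw [Subgroup.index_map_of_bijective]
      exact α.bijective
    rw [this]
    exact not_dvd_index_ut
  let Q : Sylow p (SpecialLinearGroup (Fin n) F) := hQ1.toSylow hQ2
  obtain ⟨g, hg⟩ := MulAction.exists_smul_eq (SpecialLinearGroup (Fin n) F) P Q
  refine ⟨g, fun A => ?_⟩
  have h1 : ∀ B, B ∈ (Q : Subgroup (SpecialLinearGroup (Fin n) F)) ↔ g⁻¹ * B * g ∈ ut n F := by
    intro B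
    rw [← hg, Sylow.coe_subgroup_smul, Subgroup.mem_pointwise_smul_iff_inv_smul_mem]
    rw [← map_inv, MulAut.smul_def, MulAut.conj_apply, inv_inv]
    rfl
  rw [← h1]
  change _ ↔ α A ∈ (ut n F).map α.toMonoidHom
  constructor
  · intro h
    exact ⟨A, h, rfl⟩
  · rintro ⟨B, hB, hBA⟩
    have : B = A := α.injective hBA
    rwa [← this]

end MP7fG
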